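import Pool.Agent.Helper8.SUZ.Defs2

set_option autoImplicit false

namespace Pool.Agent.Helper8.SUZ

open MvPolynomial

/-- the polynomial `P(X, X ^ t)`. -/
noncomputable def bivR (F : Type*) [Field F] [Tits F] (t : ℕ) (P : A2) : Polynomial F :=
  ∑ m ∈ P.support, Polynomial.monomial (m 0 + t * m 1) (ZMod.castHom (dvd_refl 2) F (P.coeff m))

theorem biv_eval {F : Type*} [Field F] [Tits F] (t : ℕ) (ht : ∀ x : F, th x = x ^ t) (P : A2)
    (x : F) : (bivR F t P).eval x = evA x P := by
  unfold bivR evA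
  rw [Polynomial.eval_finsetSum, coe_eval₂Hom, eval₂_eq']
  apply Finset.sum_congr rfl
  intro m _
  rw [Polynomial.eval_monomial, Fin.prod_univ_two]
  simp only [Matrix.cons_val_zero, Matrix.cons_val_one]
  rw [ht, pow_add, pow_mul]

theorem biv_ne {F : Type*} [Field F] [Tits F] (t : ℕ) (P : A2) (hP : P ≠ 0)
    (hd : P.degreeOf 0 < t) : bivR F t P ≠ 0 := by
  obtain ⟨m0, hm0⟩ := MvPolynomial.ne_zero_iff.1 hP
  intro h0
  have h1 : (bivR F t P).coeff (m0 0 + t * m0 1) = ZMod.castHom (dvd_refl 2) F (P.coeff m0) := by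
    unfold bivR
    rw [Polynomial.finsetSum_coeff, Finset.sum_eq_single m0]
    · rw [Polynomial.coeff_monomial, if_pos rfl]
    · intro m hm hne
      rw [Polynomial.coeff_monomial, if_neg]
      intro he
      apply hne
      have b1 : m 0 < t := (monomial_le_degreeOf 0 hm).trans_lt hd
      have b2 : m0 0 < t := (monomial_le_degreeOf 0 (mem_support_iff.2 hm0)).trans_lt hd
      have e0 : m 0 = m0 0 := by
        have := congrArg (· % t) he
        simpa [Nat.add_mul_mod_self_left, Nat.mod_eq_of_lt b1, Nat.mod_eq_of_lt b2] using this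
      have e1 : m 1 = m0 1 := by
        have h3 : t * m 1 = t * m0 1 := by omega
        exact Nat.eq_of_mul_eq_mul_left (by omega) h3
      ext i
      fin_cases i
      · exact e0
      · exact e1
    · intro hm
      rw [mem_support_iff, not_not] at hm
      exact absurd hm hm0
  rw [h0, Polynomial.coeff_zero] at h1
  have h2 : Function.Injective (ZMod.castHom (dvd_refl 2) F) := RingHom.injective _
  exact hm0 (h2 (by rw [← h1, map_zero]))

theorem biv_deg {F : Type*} [Field F] [Tits F] (t : ℕ) (P : A2) (hd : P.degreeOf 0 < t) :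
    (bivR F t P).natDegree ≤ t * (P.degreeOf 1 + 1) := by
  unfold bivR
  apply Polynomial.natDegree_sum_le_of_forall_le
  intro m hm
  refine (Polynomial.natDegree_monomial_le _).trans ?_
  have b1 : m 0 < t := (monomial_le_degreeOf 0 hm).trans_lt hd
  have b2 : m 1 ≤ P.degreeOf 1 := monomial_le_degreeOf 1 hm
  have b3 : t * m 1 ≤ t * P.degreeOf 1 := Nat.mul_le_mul_left _ b2
  rw [mul_add, mul_one]
  omega

theorem card_roots {F : Type*} [Field F] [Fintype F] [Tits F] (t : ℕ)
    (ht : ∀ x : F, th x = x ^ t) (P : A2) (hP : P ≠ 0) (hd : P.degreeOf 0 < t) :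
    {x : F | evA x P = 0}.ncard ≤ t * (P.degreeOf 1 + 1) := by
  classical
  have h0 := biv_ne (F := F) t P hP hd
  have h1 : {x : F | evA x P = 0} ⊆ ((bivR F t P).roots.toFinset : Set F) := by
    intro x hx
    rw [Set.mem_ofPred_eq] at hx
    rw [Finset.mem_coe, Multiset.mem_toFinset, Polynomial.mem_roots h0, Polynomial.IsRoot.def,
      biv_eval t ht, hx]
  calc {x : F | evA x P = 0}.ncard ≤ ((bivR F t P).roots.toFinset : Set F).ncard :=
        Set.ncard_le_ncard h1 (Finset.finite_toSet _)
    _ = (bivR F t P).roots.toFinset.card := Set.ncard_coe_finset _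
    _ ≤ (bivR F t P).roots.card := Multiset.toFinset_card_le _
    _ ≤ (bivR F t P).natDegree := Polynomial.card_roots' _
    _ ≤ t * (P.degreeOf 1 + 1) := biv_deg t P hd

end Pool.Agent.Helper8.SUZ
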