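import Pool.Agent.Helper8.SUZ.DegM

set_option autoImplicit false

namespace Pool.Agent.Helper8.SUZ

open MvPolynomial

theorem dege_sum {k : Fin 2} {L b : ℕ} {f : ℕ → A2} (h : ∀ l, l < L → (f l).degreeOf k ≤ b) :
    (∑ l ∈ Finset.range L, f l).degreeOf k ≤ b := by
  induction L with
  | zero => rw [Finset.sum_range_zero, degreeOf_zero]; exact Nat.zero_le _
  | succ L ih =>
    rw [Finset.sum_range_succ]
    exact degm_add (ih fun l hl => h l (by omega)) (h L (by omega))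

theorem dege_phi_re {k : Fin 2} (P Q : A2) (D : ℕ) (hP : P.degreeOf k ≤ D) (hQ : Q.degreeOf k ≤ D)
    (hP' : (thA P).degreeOf k ≤ D) (hQ' : (thA Q).degreeOf k ≤ D) (L : ℕ) :
    (Phi P Q L).re.degreeOf k ≤ 3 * 2 ^ L * D := by
  unfold Phi
  simp only
  apply degm_add
  · apply dege_sum
    intro l hl
    have h2 : 2 ^ l ≤ 2 ^ L := Nat.pow_le_pow_right (by omega) (by omega)
    apply degm_add
    · refine (degm_mul (degm_mul (degm_pow hQ' _) (degm_pow hQ _)) (degm_pow hP _)).trans ?_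
      rw [← add_mul, ← add_mul]
      apply Nat.mul_le_mul_right
      omega
    · refine (degm_mul (degm_mul (degm_pow hQ' _) (degm_pow hQ _)) (degm_pow hP' _)).trans ?_
      rw [← add_mul, ← add_mul]
      apply Nat.mul_le_mul_right
      omega
  · refine (degm_mul (degm_mul (degm_pow hQ' _) (degm_pow hQ _)) (degm_pow hP _)).trans ?_
    rw [← add_mul, ← add_mul]
    apply Nat.mul_le_mul_right
    omega

theorem dege_phi_im {k : Fin 2} (P Q : A2) (D : ℕ) (hQ : Q.degreeOf k ≤ D)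
    (hQ' : (thA Q).degreeOf k ≤ D) (L : ℕ) :
    (Phi P Q L).im.degreeOf k + 2 * D ≤ 3 * 2 ^ L * D := by
  unfold Phi
  simp only
  have h1 : 1 ≤ 2 ^ L := Nat.one_le_two_pow
  have h2 := degm_mul (degm_pow hQ' (2 ^ L - 1)) (degm_pow hQ (2 * 2 ^ L - 1))
  rw [← add_mul] at h2
  have h3 : (2 ^ L - 1 + (2 * 2 ^ L - 1)) * D + 2 * D = 3 * 2 ^ L * D := by
    rw [← add_mul]
    congr 1
    omega
  omega

theorem deg_eqn (P Q : A2) (D : ℕ) (hP : ∀ k, P.degreeOf k ≤ D) (hQ : ∀ k, Q.degreeOf k ≤ D)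
    (hP' : ∀ k, (thA P).degreeOf k ≤ D) (hQ' : ∀ k, (thA Q).degreeOf k ≤ D) (L : ℕ)
    {I J A B : ℕ} (c : Ix I J A B) :
    ((eqn P Q L c).re.degreeOf 0 + 2 * 2 ^ L < I + 2 * 2 ^ L * B + 3 * 2 ^ L * D + 4 * D ∧
      (eqn P Q L c).re.degreeOf 1 + 2 ^ L < J + 2 ^ L * A + 3 * 2 ^ L * D + 4 * D) ∧
    ((eqn P Q L c).im.degreeOf 0 + 2 * 2 ^ L < I + 2 * 2 ^ L * B + 3 * 2 ^ L * D + 4 * D ∧
      (eqn P Q L c).im.degreeOf 1 + 2 ^ L < J + 2 ^ L * A + 3 * 2 ^ L * D + 4 * D) := by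
  obtain ⟨⟨i, hi⟩, ⟨j, hj⟩, ⟨a, ha⟩, ⟨b, hb⟩, ⟨η, hη⟩, ⟨ε, hε⟩⟩ := c
  have hw : ∀ k, DG k ((QuadraticAlgebra.omega : QA P Q) ^ η * Phi P Q L ^ ε)
      (3 * 2 ^ L * D + 4 * D) := by
    intro k
    have hU := degm_U (hP k) (hQ k) (hP' k) (hQ' k)
    have hV := degm_V (hQ k) (hQ' k)
    have h1 := dege_phi_re P Q D (hP k) (hQ k) (hP' k) (hQ' k) L
    have h2 := dege_phi_im P Q D (hQ k) (hQ' k) L
    have hη' : η = 0 ∨ η = 1 := by omega
    have hε' : ε = 0 ∨ ε = 1 := by omega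
    rcases hη' with rfl | rfl <;> rcases hε' with rfl | rfl
    · rw [pow_zero, pow_zero, mul_one]
      exact (DG.one k).mono (Nat.zero_le _)
    · rw [pow_zero, pow_one, one_mul]
      exact ⟨by omega, by omega⟩
    · rw [pow_zero, mul_one]
      exact (DG.omega_pow hU hV 1).mono (by omega)
    · rw [pow_one, pow_one, mul_comm]
      have h3 : DG k (Phi P Q L) (3 * 2 ^ L * D) := ⟨h1, by omega⟩
      exact h3.mul_omega hU hV
  unfold eqn
  simp only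
  rw [mul_assoc]
  have h0 := (hw 0).C_mul (degm_mono0 (i + 2 * 2 ^ L * b) (j + 2 ^ L * a))
  have h1 := (hw 1).C_mul (degm_mono1 (i + 2 * 2 ^ L * b) (j + 2 ^ L * a))
  have hB : 2 * 2 ^ L * b + 2 * 2 ^ L ≤ 2 * 2 ^ L * B := by
    have : 2 * 2 ^ L * (b + 1) ≤ 2 * 2 ^ L * B := Nat.mul_le_mul_left _ hb
    linarith
  have hA : 2 ^ L * a + 2 ^ L ≤ 2 ^ L * A := by
    have : 2 ^ L * (a + 1) ≤ 2 ^ L * A := Nat.mul_le_mul_left _ ha
    linarith
  obtain ⟨a1, a2⟩ := h0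
  obtain ⟨b1, b2⟩ := h1
  refine ⟨⟨?_, ?_⟩, ?_, ?_⟩ <;> omega

end Pool.Agent.Helper8.SUZ
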