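import Pool.Agent.Helper8.SUZ.Defs2

set_option autoImplicit false

namespace Pool.Agent.Helper8.SUZ

open MvPolynomial

/-- both components of `f` have degree at most `b` in the variable `k`. -/
def DG {U V : A2} (k : Fin 2) (f : QuadraticAlgebra A2 U V) (b : ℕ) : Prop :=
  f.re.degreeOf k ≤ b ∧ f.im.degreeOf k ≤ b

theorem degm_mul {k : Fin 2} {p q : A2} {a b : ℕ} (hp : p.degreeOf k ≤ a)
    (hq : q.degreeOf k ≤ b) : (p * q).degreeOf k ≤ a + b :=
  (degreeOf_mul_le k p q).trans (add_le_add hp hq)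

theorem degm_add {k : Fin 2} {p q : A2} {a : ℕ} (hp : p.degreeOf k ≤ a)
    (hq : q.degreeOf k ≤ a) : (p + q).degreeOf k ≤ a :=
  (degreeOf_add_le k p q).trans (max_le hp hq)

theorem degm_pow {k : Fin 2} {p : A2} {a : ℕ} (hp : p.degreeOf k ≤ a) (n : ℕ) :
    (p ^ n).degreeOf k ≤ n * a :=
  (degreeOf_pow_le k p n).trans (Nat.mul_le_mul_left n hp)

theorem degm_V {k : Fin 2} {Q : A2} {D : ℕ} (hQ : Q.degreeOf k ≤ D)
    (hQ' : (thA Q).degreeOf k ≤ D) : (Vp Q).degreeOf k ≤ 2 * D := by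
  have := degm_mul hQ hQ'
  unfold Vp
  omega

theorem degm_U {k : Fin 2} {P Q : A2} {D : ℕ} (hP : P.degreeOf k ≤ D) (hQ : Q.degreeOf k ≤ D)
    (hP' : (thA P).degreeOf k ≤ D) (hQ' : (thA Q).degreeOf k ≤ D) :
    (Up P Q).degreeOf k ≤ 4 * D := by
  have h1 := degm_mul (degm_V hQ hQ') (degm_add (degm_mul hP hQ') (degm_mul hQ hP'))
  unfold Up
  omega

theorem DG.mono {U V : A2} {k : Fin 2} {f : QuadraticAlgebra A2 U V} {a b : ℕ} (h : DG k f a)
    (hab : a ≤ b) : DG k f b := ⟨h.1.trans hab, h.2.trans hab⟩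

theorem DG.mul_omega {U V : A2} {k : Fin 2} {f : QuadraticAlgebra A2 U V} {a D : ℕ}
    (h : DG k f a) (hU : U.degreeOf k ≤ 4 * D) (hV : V.degreeOf k ≤ 2 * D) :
    DG k (f * QuadraticAlgebra.omega) (a + 4 * D) := by
  have e1 : (f * QuadraticAlgebra.omega).re = U * f.im := by
    simp [QuadraticAlgebra.omega]
  have e2 : (f * QuadraticAlgebra.omega).im = f.re + V * f.im := by
    simp [QuadraticAlgebra.omega]
  constructor
  · rw [e1]
    exact (degm_mul hU h.2).trans (by omega)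
  · rw [e2]
    exact degm_add (h.1.trans (by omega)) ((degm_mul hV h.2).trans (by omega))

theorem DG.C_mul {U V : A2} {k : Fin 2} {f : QuadraticAlgebra A2 U V} {a m : ℕ} {p : A2}
    (h : DG k f a) (hp : p.degreeOf k ≤ m) : DG k (QuadraticAlgebra.C p * f) (m + a) := by
  constructor
  · have e : (QuadraticAlgebra.C p * f).re = p * f.re := by simp
    rw [e]
    exact degm_mul hp h.1
  · have e : (QuadraticAlgebra.C p * f).im = p * f.im := by simp
    rw [e]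
    exact degm_mul hp h.2

theorem DG.one {U V : A2} (k : Fin 2) : DG k (1 : QuadraticAlgebra A2 U V) 0 := by
  constructor
  · rw [QuadraticAlgebra.re_one, degreeOf_one]
  · rw [QuadraticAlgebra.im_one, degreeOf_zero]

theorem DG.omega_pow {U V : A2} {k : Fin 2} {D : ℕ} (hU : U.degreeOf k ≤ 4 * D)
    (hV : V.degreeOf k ≤ 2 * D) (l : ℕ) :
    DG k ((QuadraticAlgebra.omega : QuadraticAlgebra A2 U V) ^ l) (4 * D * l) := by
  induction l with
  | zero =>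
    rw [pow_zero, mul_zero]
    exact DG.one k
  | succ l ih =>
    rw [pow_succ]
    exact (ih.mul_omega hU hV).mono (by rw [mul_add, mul_one])

theorem degm_mono0 (i j : ℕ) : ((X 0 ^ i * X 1 ^ j : A2)).degreeOf 0 ≤ i := by
  have h1 : ((X 0 : A2)).degreeOf 0 ≤ 1 := by rw [degreeOf_X]; simp
  have h2 : ((X 1 : A2)).degreeOf 0 ≤ 0 := by rw [degreeOf_X]; simp
  have := degm_mul (degm_pow h1 i) (degm_pow h2 j)
  simpa using this

theorem degm_mono1 (i j : ℕ) : ((X 0 ^ i * X 1 ^ j : A2)).degreeOf 1 ≤ j := by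
  have h1 : ((X 0 : A2)).degreeOf 1 ≤ 0 := by rw [degreeOf_X]; simp
  have h2 : ((X 1 : A2)).degreeOf 1 ≤ 1 := by rw [degreeOf_X]; simp
  have := degm_mul (degm_pow h1 i) (degm_pow h2 j)
  simpa using this

theorem degm_form (P Q : A2) (p : ℕ) {I J A B : ℕ} (c : Ix I J A B) :
    mon P Q p c = QuadraticAlgebra.C (X 0 ^ ((c.1 : ℕ) * p + (c.2.2.1 : ℕ)) *
      X 1 ^ ((c.2.1 : ℕ) * p + (c.2.2.2.1 : ℕ))) *
      (QuadraticAlgebra.omega : QA P Q) ^ ((c.2.2.2.2.1 : ℕ) * p + (c.2.2.2.2.2 : ℕ)) := by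
  unfold mon
  rw [mul_pow, ← QuadraticAlgebra.C_pow, mul_pow, ← pow_mul, ← pow_mul, ← pow_mul, pow_add,
    pow_add, pow_add, mul_mul_mul_comm, ← QuadraticAlgebra.C_mul]
  congr 2
  ring

theorem deg_mon (P Q : A2) (D : ℕ) (hP : ∀ k, P.degreeOf k ≤ D) (hQ : ∀ k, Q.degreeOf k ≤ D)
    (hP' : ∀ k, (thA P).degreeOf k ≤ D) (hQ' : ∀ k, (thA Q).degreeOf k ≤ D) (p : ℕ)
    (hp : 0 < p) {I J A B : ℕ} (c : Ix I J A B) :
    ((mon P Q p c).re.degreeOf 0 + p + 1 ≤ p * I + A + 4 * D * (p + 1) ∧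
      (mon P Q p c).re.degreeOf 1 + p + 1 ≤ p * J + B + 4 * D * (p + 1)) ∧
    ((mon P Q p c).im.degreeOf 0 + p + 1 ≤ p * I + A + 4 * D * (p + 1) ∧
      (mon P Q p c).im.degreeOf 1 + p + 1 ≤ p * J + B + 4 * D * (p + 1)) := by
  rw [degm_form]
  obtain ⟨⟨i, hi⟩, ⟨j, hj⟩, ⟨a, ha⟩, ⟨b, hb⟩, ⟨η, hη⟩, ⟨ε, hε⟩⟩ := c
  simp only
  have hw : ∀ k, DG k ((QuadraticAlgebra.omega : QA P Q) ^ (η * p + ε)) (4 * D * (p + 1)) := by
    intro k
    refine (DG.omega_pow (degm_U (hP k) (hQ k) (hP' k) (hQ' k)) (degm_V (hQ k) (hQ' k)) _).mono ?_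
    apply Nat.mul_le_mul_left
    have : η * p ≤ 1 * p := Nat.mul_le_mul_right p (by omega)
    omega
  have h0 := (hw 0).C_mul (degm_mono0 (i * p + a) (j * p + b))
  have h1 := (hw 1).C_mul (degm_mono1 (i * p + a) (j * p + b))
  have hI : i * p + p ≤ p * I := by
    have : (i + 1) * p ≤ I * p := Nat.mul_le_mul_right p hi
    rw [mul_comm p I]
    linarith
  have hJ : j * p + p ≤ p * J := by
    have : (j + 1) * p ≤ J * p := Nat.mul_le_mul_right p hj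
    rw [mul_comm p J]
    linarith
  obtain ⟨a1, a2⟩ := h0
  obtain ⟨b1, b2⟩ := h1
  refine ⟨⟨?_, ?_⟩, ?_, ?_⟩ <;> omega

end Pool.Agent.Helper8.SUZ
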