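import Pool.Agent.Helper8.SUZ.Inj

set_option autoImplicit false

namespace Pool.Agent.Helper8.SUZ

open MvPolynomial

variable {F : Type*} [Field F] [Tits F]

theorem evq_sq {e r : F} (he : th e + e = r) : e ^ 2 = e + (r + th r) := by
  have h1 : th e = e + r := by linear_combination he - e * two_zero (F := F)
  have h2 := th_th e
  rw [h1, map_add, h1] at h2
  linear_combination -h2

/-- the points above `x` -/
theorem lift_pt (P Q : A2) (x e : F) (hQ : evA x Q ≠ 0)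
    (he : th e + e = evA x P / evA x Q) :
    (evA x (Vp Q) * e) * (evA x (Vp Q) * e) =
      evA x (Up P Q) + evA x (Vp Q) * (evA x (Vp Q) * e) := by
  have h1 := evq_sq he
  have hQ2 : th (evA x Q) ≠ 0 := (map_ne_zero th).2 hQ
  simp only [Up, Vp, map_mul, map_add, evA_thA]
  rw [map_div₀] at h1
  field_simp at h1
  linear_combination (evA x Q * th (evA x Q)) * h1

theorem evq_pow {e r : F} (he : th e + e = r) (L : ℕ) :
    e ^ (2 ^ L) = e + ∑ l ∈ Finset.range L, (r ^ (2 ^ l) + (th r) ^ (2 ^ l)) := by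
  induction L with
  | zero => simp
  | succ L ih =>
    have h1 : e ^ (2 ^ (L + 1)) = (e ^ 2) ^ (2 ^ L) := by rw [← pow_mul, pow_succ, mul_comm]
    rw [h1, evq_sq he, add_pow_char_pow, add_pow_char_pow, ih, Finset.sum_range_succ]
    ring

theorem evq_Phi (P Q : A2) (L : ℕ) (x e : F) (hQ : evA x Q ≠ 0)
    (he : th e + e = evA x P / evA x Q) :
    evQ P Q x (evA x (Vp Q) * e) (lift_pt P Q x e hQ he) (Phi P Q L) =
      (th (evA x (Vp Q))) ^ (2 ^ L) * (th e) ^ (2 ^ L) := by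
  have hQ2 : th (evA x Q) ≠ 0 := (map_ne_zero th).2 hQ
  rw [evQ_apply]
  have h1 : th e = e + evA x P / evA x Q := by linear_combination he - e * two_zero (F := F)
  rw [h1, add_pow_char_pow, evq_pow he L]
  simp only [Phi, Vp, map_mul, map_add, map_sum, map_pow, evA_thA, th_th]
  set q := evA x Q with hq
  set p := evA x P with hp
  set tq := th q with htq
  set tp := th p with htp
  have hL : 1 ≤ 2 ^ L := Nat.one_le_two_pow
  have e1 : tq ^ (2 ^ L - 1) * q ^ (2 * 2 ^ L - 1) * (q * tq * e) =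
      (tq * q ^ 2) ^ (2 ^ L) * e := by
    have a1 : tq ^ (2 ^ L) = tq ^ (2 ^ L - 1) * tq := by
      rw [← pow_succ]; congr 1; omega
    have a2 : (q ^ 2) ^ (2 ^ L) = q ^ (2 * 2 ^ L - 1) * q := by
      rw [← pow_mul, ← pow_succ]; congr 1; omega
    rw [mul_pow, a1, a2]; ring
  have e2 : tq ^ (2 ^ L) * q ^ (2 ^ L) * p ^ (2 ^ L) = (tq * q ^ 2) ^ (2 ^ L) * (p / q) ^ (2 ^ L) := by
    rw [← mul_pow, ← mul_pow, ← mul_pow]
    congr 1
    field_simp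
  have e3 : ∀ l ∈ Finset.range L, tq ^ (2 ^ L) * q ^ (2 * 2 ^ L - 2 ^ l) * p ^ (2 ^ l) +
      tq ^ (2 ^ L - 2 ^ l) * q ^ (2 * 2 ^ L) * tp ^ (2 ^ l) =
      (tq * q ^ 2) ^ (2 ^ L) * ((p / q) ^ (2 ^ l) + th (p / q) ^ (2 ^ l)) := by
    intro l hl
    have hl' : 2 ^ l ≤ 2 ^ L := Nat.pow_le_pow_right (by norm_num) (Finset.mem_range.1 hl).le
    have b1 : tq ^ (2 ^ L) = tq ^ (2 ^ L - 2 ^ l) * tq ^ (2 ^ l) := by
      rw [← pow_add]; congr 1; omega
    have b2 : q ^ (2 * 2 ^ L) = q ^ (2 * 2 ^ L - 2 ^ l) * q ^ (2 ^ l) := by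
      rw [← pow_add]; congr 1; omega
    rw [map_div₀, ← htp, ← htq, mul_pow, ← pow_mul, div_pow, div_pow, b2]
    have b3 : tq ^ (2 ^ L) * (tp ^ (2 ^ l) / tq ^ (2 ^ l)) = tq ^ (2 ^ L - 2 ^ l) * tp ^ (2 ^ l) := by
      rw [b1]; field_simp
    rw [mul_add]
    have b4 : tq ^ 2 ^ L * (q ^ (2 * 2 ^ L - 2 ^ l) * q ^ 2 ^ l) * (tp ^ 2 ^ l / tq ^ 2 ^ l) =
      (tq ^ (2 ^ L) * (tp ^ (2 ^ l) / tq ^ (2 ^ l))) * (q ^ (2 * 2 ^ L - 2 ^ l) * q ^ 2 ^ l) := by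
      ring
    rw [b4, b3]
    field_simp
  rw [e1, e2, Finset.sum_congr rfl e3, ← Finset.mul_sum]
  ring

theorem pow_mon [Fintype F] (P Q : A2) (i L : ℕ)
    (hcard : Fintype.card F = 2 ^ (2 * (i + L) + 1))
    (hth : ∀ x : F, th x = x ^ (2 ^ (i + L + 1))) (x e : F) (hQ : evA x Q ≠ 0)
    (he : th e + e = evA x P / evA x Q) {I J A B : ℕ} (c : Ix I J A B) :
    (evQ P Q x (evA x (Vp Q) * e) (lift_pt P Q x e hQ he) (mon P Q (2 ^ i) c)) ^
        (2 ^ (i + 2 * L + 1)) =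
      evQ P Q x (evA x (Vp Q) * e) (lift_pt P Q x e hQ he) (eqn P Q L c) := by
  have hpc : ∀ z : F, z ^ (2 ^ (2 * (i + L) + 1)) = z := fun z => by
    rw [← hcard]; exact FiniteField.pow_card z
  have hM1 : ∀ z : F, (z ^ (2 ^ i)) ^ (2 ^ (i + 2 * L + 1)) = z := fun z => by
    rw [← pow_mul, ← pow_add, show i + (i + 2 * L + 1) = 2 * (i + L) + 1 by ring, hpc]
  have hM2 : ∀ z : F, z ^ (2 ^ (i + 2 * L + 1)) = (th z) ^ (2 ^ L) := fun z => by
    rw [hth z, ← pow_mul, ← pow_add, show i + L + 1 + L = i + 2 * L + 1 by ring]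
  set φ := evQ P Q x (evA x (Vp Q) * e) (lift_pt P Q x e hQ he) with hφ
  have hω : φ QuadraticAlgebra.omega = evA x (Vp Q) * e := by
    rw [hφ, evQ_apply]; simp
  have hC : ∀ R : A2, φ (QuadraticAlgebra.C R) = evA x R := fun R => by
    rw [hφ, evQ_apply]; simp
  have hx0 : evA x (X 0) = x := by simp [evA]
  have hx1 : evA x (X 1) = th x := by simp [evA]
  have hPhi : φ (Phi P Q L) = (evA x (Vp Q) * e) ^ (2 ^ (i + 2 * L + 1)) := by
    rw [hφ, evq_Phi P Q L x e hQ he, hM2, map_mul, mul_pow]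
  simp only [mon, eqn, map_mul, map_pow, hω, hC, hx0, hx1, hPhi]
  rw [mul_pow _ _ (2 ^ (i + 2 * L + 1)), hM1]
  set Y : F := evA x (Vp Q) * e with hY
  have e1 : (x ^ (c.2.2.1 : ℕ) * th x ^ (c.2.2.2.1 : ℕ) * Y ^ (c.2.2.2.2.2 : ℕ)) ^
      (2 ^ (i + 2 * L + 1)) = (th x) ^ (2 ^ L * (c.2.2.1 : ℕ)) *
        x ^ (2 * 2 ^ L * (c.2.2.2.1 : ℕ)) *
        (Y ^ (2 ^ (i + 2 * L + 1))) ^ (c.2.2.2.2.2 : ℕ) := by
    rw [mul_pow, mul_pow]
    congr 1
    · congr 1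
      · rw [← pow_mul, mul_comm, pow_mul, hM2, ← pow_mul]
      · rw [← pow_mul, mul_comm, pow_mul, hM2, th_th, ← pow_mul, ← pow_mul]
        try ring_nf
    · rw [← pow_mul, ← pow_mul, mul_comm]
  rw [e1, pow_add, pow_add]
  ring

end Pool.Agent.Helper8.SUZ
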