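import Pool.Agent.Helper8.SUZ.Defs2

/-! The subgroup `K0` of the elements `th e + e`. -/

set_option autoImplicit false

namespace Pool.Agent.Helper8.SUZ

variable {F : Type*} [Field F] [Tits F]

theorem K0_zero : K0 (0 : F) := ⟨0, by simp⟩

theorem K0_add {x y : F} (hx : K0 x) (hy : K0 y) : K0 (x + y) := by
  obtain ⟨e, rfl⟩ := hx
  obtain ⟨f, rfl⟩ := hy
  exact ⟨e + f, by rw [map_add]; ring⟩

theorem K0_self (x : F) : K0 (th x + x) := ⟨x, rfl⟩

theorem K0_iff_of_add {x y : F} (h : K0 (x + y)) : K0 x ↔ K0 y := by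
  constructor
  · intro hx
    have h1 := K0_add h hx
    have h2 : x + y + x = y := by linear_combination x * two_zero (F := F)
    rwa [h2] at h1
  · intro hy
    have h1 := K0_add h hy
    have h2 : x + y + y = x := by linear_combination y * two_zero (F := F)
    rwa [h2] at h1

theorem K0_th {x : F} : K0 (th x) ↔ K0 x := K0_iff_of_add (K0_self x)

theorem K0_sq {x : F} : K0 (x ^ 2) ↔ K0 x := by rw [← th_th, K0_th, K0_th]

theorem th_fix {x : F} (h : th x = x) : x = 0 ∨ x = 1 := by
  have h1 := th_th x
  rw [h, h] at h1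
  have h2 : x * (x - 1) = 0 := by linear_combination -h1
  rcases mul_eq_zero.1 h2 with h3 | h3
  · exact Or.inl h3
  · exact Or.inr (sub_eq_zero.1 h3)

theorem not_K0_one : ¬ K0 (1 : F) := by
  rintro ⟨e, he⟩
  have h1 : th e = e + 1 := by linear_combination he - e * two_zero (F := F)
  have h2 := th_th e
  rw [h1, map_add, map_one, h1] at h2
  have h3 : e * (e - 1) = 0 := by linear_combination -h2 + two_zero (F := F)
  rcases mul_eq_zero.1 h3 with h4 | h4
  · rw [h4, map_zero, zero_add] at he
    exact zero_ne_one he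
  · rw [sub_eq_zero.1 h4, map_one] at h1
    exact one_ne_zero (add_eq_left.1 h1.symm)

theorem K0_sq_add (a : F) : K0 (a ^ 2 + a) :=
  ⟨th a + a, by rw [map_add, th_th]; linear_combination (th a) * two_zero (F := F)⟩

theorem nN_ne' (a : F) : a ^ 2 + a + 1 ≠ 0 := by
  intro h
  apply not_K0_one (F := F)
  have h1 := K0_sq_add a
  have h2 : a ^ 2 + a = 1 := by linear_combination h - two_zero (F := F)
  rwa [h2] at h1

/-- the additive map `e ↦ th e + e` -/
def asH : F →+ F where
  toFun e := th e + e
  map_zero' := by simp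
  map_add' x y := by rw [map_add]; ring

theorem ker_asH (x : F) : x ∈ (asH : F →+ F).ker ↔ x = 0 ∨ x = 1 := by
  rw [AddMonoidHom.mem_ker]
  change th x + x = 0 ↔ _
  constructor
  · intro h
    exact th_fix (by linear_combination h - x * two_zero (F := F))
  · rintro (rfl | rfl)
    · simp
    · rw [map_one]; linear_combination two_zero (F := F)

theorem K0_iff_range (z : F) : K0 z ↔ z ∈ (asH : F →+ F).range := by
  rw [AddMonoidHom.mem_range]; rfl

theorem card_ker : Nat.card (asH : F →+ F).ker = 2 := by
  have : ((asH : F →+ F).ker : Set F) = {0, 1} := by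
    ext x; exact ker_asH x
  rw [← SetLike.coe_sort_coe, this, Nat.card_coe_set_eq, Set.ncard_pair zero_ne_one]

theorem card_range [Fintype F] : 2 * Nat.card (asH : F →+ F).range = Fintype.card F := by
  rw [← card_ker (F := F), ← Nat.card_eq_fintype_card]
  rw [← (asH : F →+ F).ker.card_mul_index, AddSubgroup.index_ker]

theorem K0_card [Fintype F] : 2 * {x : F | K0 x}.ncard = Fintype.card F := by
  rw [← card_range (F := F)]
  rw [← SetLike.coe_sort_coe, Nat.card_coe_set_eq]
  exact congrArg (2 * Set.ncard ·) (Set.ext fun x => K0_iff_range x)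

theorem K0_index [Fintype F] {x y : F} (hx : ¬ K0 x) (hy : ¬ K0 y) : K0 (x + y) := by
  have hi : (asH : F →+ F).range.index = 2 := by
    have h1 := (asH : F →+ F).range.card_mul_index
    have h2 := card_range (F := F)
    rw [← Nat.card_eq_fintype_card, ← h1] at h2
    have h3 : 0 < Nat.card (asH : F →+ F).range := Nat.card_pos
    nlinarith
  rw [K0_iff_range] at *
  exact (AddSubgroup.add_mem_iff_of_index_two hi).2 (iff_of_false hx hy)

end Pool.Agent.Helper8.SUZ
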