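import Pool.Agent.Helper8.SUZ.Defs2

set_option autoImplicit false

namespace Pool.Agent.Helper8.SUZ

open MvPolynomial

/-- The exponent vector `(a, b)`. -/
noncomputable def linExp (a b : ℕ) : Fin 2 →₀ ℕ := Finsupp.single 0 a + Finsupp.single 1 b

theorem linExp_self (m : Fin 2 →₀ ℕ) : linExp (m 0) (m 1) = m := by
  ext i
  fin_cases i <;> simp [linExp]

theorem lin_coeff_zero {X Y : ℕ} {p : A2} (h : p.degreeOf 0 < X ∧ p.degreeOf 1 < Y)
    {m : Fin 2 →₀ ℕ} (hm : ¬ (m 0 < X ∧ m 1 < Y)) : coeff m p = 0 := by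
  by_contra hne
  have hs : m ∈ p.support := mem_support_iff.2 hne
  have h0 := monomial_le_degreeOf (0 : Fin 2) hs
  have h1 := monomial_le_degreeOf (1 : Fin 2) hs
  omega

theorem lin {ι : Type*} [Fintype ι] (X Y : ℕ) (m0 m1 : ι → A2)
    (h0 : ∀ i, (m0 i).degreeOf 0 < X ∧ (m0 i).degreeOf 1 < Y)
    (h1 : ∀ i, (m1 i).degreeOf 0 < X ∧ (m1 i).degreeOf 1 < Y)
    (hc : 2 * (X * Y) < Fintype.card ι) :
    ∃ c : ι → ZMod 2, c ≠ 0 ∧ ∑ i, c i • m0 i = 0 ∧ ∑ i, c i • m1 i = 0 := by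
  classical
  let L : (ι → ZMod 2) →ₗ[ZMod 2] (Fin 2 × Fin X × Fin Y → ZMod 2) :=
    { toFun := fun c k => ∑ i, c i * coeff (linExp k.2.1 k.2.2) (if k.1 = 0 then m0 i else m1 i)
      map_add' := by
        intro c d; ext k
        simp only [Pi.add_apply, add_mul, Finset.sum_add_distrib]
      map_smul' := by
        intro r c; ext k
        simp only [Pi.smul_apply, smul_eq_mul, RingHom.id_apply, Finset.mul_sum, mul_assoc] }
  have hker : LinearMap.ker L ≠ ⊥ := by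
    apply LinearMap.ker_ne_bot_of_finrank_lt
    rw [Module.finrank_fintype_fun_eq_card, Module.finrank_fintype_fun_eq_card]
    simpa using hc
  obtain ⟨c, hcker, hc0⟩ := (Submodule.ne_bot_iff _).1 hker
  have hL : ∀ k : Fin 2 × Fin X × Fin Y, ∑ i, c i *
      coeff (linExp k.2.1 k.2.2) (if k.1 = 0 then m0 i else m1 i) = 0 := by
    intro k
    exact congrFun (LinearMap.mem_ker.1 hcker) k
  refine ⟨c, hc0, ?_, ?_⟩
  · ext m
    rw [coeff_sum, coeff_zero]
    simp only [coeff_smul, smul_eq_mul]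
    by_cases hm : m 0 < X ∧ m 1 < Y
    · have := hL (0, ⟨m 0, hm.1⟩, ⟨m 1, hm.2⟩)
      simpa [linExp_self] using this
    · apply Finset.sum_eq_zero
      intro i _
      rw [lin_coeff_zero (h0 i) hm, mul_zero]
  · ext m
    rw [coeff_sum, coeff_zero]
    simp only [coeff_smul, smul_eq_mul]
    by_cases hm : m 0 < X ∧ m 1 < Y
    · have := hL (1, ⟨m 0, hm.1⟩, ⟨m 1, hm.2⟩)
      simpa [linExp_self] using this
    · apply Finset.sum_eq_zero
      intro i _
      rw [lin_coeff_zero (h1 i) hm, mul_zero]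

end Pool.Agent.Helper8.SUZ
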