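import Pool.Agent.Helper8.SUZ.Defs2

set_option autoImplicit false

namespace Pool.Agent.Helper8.SUZ

open MvPolynomial

/-- The arithmetic core. -/
private theorem num_core (D N P Lam I J X Y : ℕ) (hN : 0 < N)
    (hP : 2 * N * (2 * (3 * D + 1) + (3 * D + 1) ^ 2) ≤ 2 * P)
    (hP0 : 0 < P)
    (hL : 8 * D * (N + 1) < Lam) (hI : I + 8 * D = 2 * Lam)
    (hJ : J * (2 * N) = (N + 1) * Lam)
    (hX : X + 2 * Lam = I + 2 * Lam * P + 3 * Lam * D + 4 * D)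
    (hY : Y + Lam = J + Lam * (2 * P) + 3 * Lam * D + 4 * D) :
    2 * (X * Y) < I * (J * (2 * P * (P * (2 * 2)))) := by
  set p : ℕ := 2 * P with hp
  set c : ℕ := 3 * D + 1 with hc
  have hLpos : 0 < Lam := by omega
  have h4D : 4 * D ≤ Lam := by nlinarith
  have hX' : X + 4 * D = Lam * p + 3 * Lam * D := by
    have : 2 * Lam * P = Lam * p := by rw [hp]; ring
    omega
  have hXle : X ≤ Lam * (p + c) := by
    have : Lam * (p + c) = Lam * p + 3 * Lam * D + Lam := by rw [hc]; ring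
    omega
  have hJle : J ≤ Lam := by
    have h1 : (N + 1) * Lam ≤ Lam * (2 * N) := by nlinarith
    have h2 : J * (2 * N) ≤ Lam * (2 * N) := by rw [hJ]; exact h1
    exact Nat.le_of_mul_le_mul_right h2 (by omega)
  have hYle : Y ≤ Lam * (p + c) := by
    have : Lam * (p + c) = Lam * p + 3 * Lam * D + Lam := by rw [hc]; ring
    omega
  have hXY : 2 * (X * Y) ≤ 2 * (Lam * (p + c)) ^ 2 := by
    have : X * Y ≤ (Lam * (p + c)) * (Lam * (p + c)) := Nat.mul_le_mul hXle hYle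
    nlinarith
  have hp0 : 0 < p := by omega
  have hpc : 2 * N * (p + c) ^ 2 ≤ (2 * N + 1) * p ^ 2 := by
    have h1 : 2 * N * (2 * c + c ^ 2) * p ≤ p * p := Nat.mul_le_mul_right p hP
    have h2 : 2 * N * (2 * c * p + c ^ 2) ≤ 2 * N * (2 * c + c ^ 2) * p := by
      have : c ^ 2 ≤ c ^ 2 * p := Nat.le_mul_of_pos_right _ hp0
      nlinarith
    nlinarith
  have hkey : (2 * N + 1) * Lam < I * (N + 1) := by
    have : I * (N + 1) + 8 * D * (N + 1) = 2 * Lam * (N + 1) := by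
      rw [← add_mul, hI]
    nlinarith
  -- multiply everything by N
  have hR : N * (I * (J * (p * (P * (2 * 2))))) = I * (N + 1) * (Lam * p ^ 2) := by
    have h1 : p * (P * (2 * 2)) = 2 * p ^ 2 := by rw [hp]; ring
    rw [h1]
    have h2 : N * (I * (J * (2 * p ^ 2))) = I * (J * (2 * N)) * p ^ 2 := by ring
    rw [h2, hJ]; ring
  have hLp : 0 < Lam * p ^ 2 := by positivity
  have h3 : (2 * N + 1) * Lam * (Lam * p ^ 2) < N * (I * (J * (p * (P * (2 * 2))))) := by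
    rw [hR]; exact Nat.mul_lt_mul_of_pos_right hkey hLp
  have h4 : N * (2 * (X * Y)) ≤ (2 * N + 1) * Lam * (Lam * p ^ 2) := by
    calc N * (2 * (X * Y)) ≤ N * (2 * (Lam * (p + c)) ^ 2) := Nat.mul_le_mul_left _ hXY
      _ = Lam ^ 2 * (2 * N * (p + c) ^ 2) := by ring
      _ ≤ Lam ^ 2 * ((2 * N + 1) * p ^ 2) := Nat.mul_le_mul_left _ hpc
      _ = (2 * N + 1) * Lam * (Lam * p ^ 2) := by ring
  exact Nat.lt_of_mul_lt_mul_left (lt_of_le_of_lt h4 h3)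

theorem num (D k : ℕ) : ∃ i : ℕ, 0 < i ∧ ∃ L0 : ℕ, ∀ L ≥ L0, ∃ I J : ℕ,
    I + 8 * D = 2 * 2 ^ L ∧ J * 2 ^ (k + 1) = (2 ^ k + 1) * 2 ^ L ∧
    2 ^ (k + 1) * (2 ^ (i - 1) + 4 * D * (2 ^ i + 1) + D + 1) ≤ 2 ^ (i + L) ∧
    ∀ X Y : ℕ, X + 2 * 2 ^ L = I + 2 * 2 ^ L * 2 ^ (i - 1) + 3 * 2 ^ L * D + 4 * D →
      Y + 2 ^ L = J + 2 ^ L * 2 ^ i + 3 * 2 ^ L * D + 4 * D →
      2 * (X * Y) < I * (J * (2 ^ i * (2 ^ (i - 1) * (2 * 2)))) := by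
  obtain ⟨i0, hi0⟩ : ∃ i0 : ℕ, i0 = 2 * 2 ^ k * (2 * (3 * D + 1) + (3 * D + 1) ^ 2) := ⟨_, rfl⟩
  refine ⟨i0 + 1, Nat.succ_pos _, 8 * D * (2 ^ k + 1) + 1 + (k + 1) +
    2 ^ (k + 1) * (2 ^ i0 + 4 * D * (2 ^ (i0 + 1) + 1) + D + 1), ?_⟩
  intro L hL
  have hLL : L < 2 ^ L := Nat.lt_two_pow_self
  have hbig : 8 * D * (2 ^ k + 1) < 2 ^ L := by omega
  have hkL : k + 1 ≤ L := by omega
  have h8D : 8 * D ≤ 8 * D * (2 ^ k + 1) := Nat.le_mul_of_pos_right _ (by positivity)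
  have hi1 : i0 + 1 - 1 = i0 := by omega
  refine ⟨2 * 2 ^ L - 8 * D, (2 ^ k + 1) * 2 ^ (L - (k + 1)), by omega, ?_, ?_, ?_⟩
  · rw [mul_assoc, ← pow_add, Nat.sub_add_cancel hkL]
  · rw [hi1]
    calc 2 ^ (k + 1) * (2 ^ i0 + 4 * D * (2 ^ (i0 + 1) + 1) + D + 1) ≤ L := by omega
      _ ≤ 2 ^ L := hLL.le
      _ ≤ 2 ^ (i0 + 1 + L) := Nat.pow_le_pow_right (by norm_num) (by omega)
  · intro X Y hX hY
    rw [hi1] at hX ⊢
    have e1 : (2 : ℕ) ^ (i0 + 1) = 2 * 2 ^ i0 := by ring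
    rw [e1] at hY ⊢
    refine num_core D (2 ^ k) (2 ^ i0) (2 ^ L) (2 * 2 ^ L - 8 * D)
      ((2 ^ k + 1) * 2 ^ (L - (k + 1))) X Y (by positivity) ?_ (by positivity) hbig (by omega) ?_
      hX hY
    · rw [← hi0]
      have : i0 < 2 ^ i0 := Nat.lt_two_pow_self
      omega
    · rw [show 2 * 2 ^ k = 2 ^ (k + 1) by ring, mul_assoc, ← pow_add, Nat.sub_add_cancel hkL]

end Pool.Agent.Helper8.SUZ
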