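import Pool.Agent.Helper8.SUZ.Defs2

set_option autoImplicit false

namespace Pool.Agent.Helper8.SUZ

open MvPolynomial

theorem dist_small {p x y : ℤ} (hp : 0 < p) (h : p * x = y) (h1 : -p < y) (h2 : y < p) :
    x = 0 ∧ y = 0 := by
  have hx : x = 0 := by
    by_contra hne
    rcases lt_or_gt_of_ne hne with hlt | hgt
    · nlinarith
    · nlinarith
  exact ⟨hx, by rw [← h, hx, mul_zero]⟩

theorem dist_im {p j j' b b' m η η' ε ε' : ℤ} (hp0 : 0 < p)
    (hη : η = 0 ∨ η = 1) (hη' : η' = 0 ∨ η' = 1) (hε : ε = 0 ∨ ε = 1) (hε' : ε' = 0 ∨ ε' = 1)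
    (hb : 0 ≤ b) (hb2 : b < p) (hb' : 0 ≤ b') (hb2' : b' < p)
    (h : 2 * p * (-2 * j + η * (2 * m + 1)) - 2 * b + ε * (2 * m + 1) =
      2 * p * (-2 * j' + η' * (2 * m + 1)) - 2 * b' + ε' * (2 * m + 1)) :
    ε = ε' ∧ b = b' ∧ η = η' ∧ j = j' := by
  have hee : ε = ε' := by
    have h2 : (ε - ε') * (2 * m + 1) = 2 * (p * (-2 * j' + η' * (2 * m + 1)) - b' -
        (p * (-2 * j + η * (2 * m + 1)) - b)) := by linear_combination h
    generalize p * (-2 * j' + η' * (2 * m + 1)) - b' -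
        (p * (-2 * j + η * (2 * m + 1)) - b) = Y at h2
    rcases hε with rfl | rfl <;> rcases hε' with rfl | rfl <;> first | rfl | (exfalso; omega)
  subst hee
  have h3 : p * ((-2 * j + η * (2 * m + 1)) - (-2 * j' + η' * (2 * m + 1))) = b - b' := by
    linarith
  obtain ⟨h4, h5⟩ := dist_small hp0 h3 (by omega) (by omega)
  refine ⟨rfl, by omega, ?_⟩
  rcases hη with rfl | rfl <;> rcases hη' with rfl | rfl <;> constructor <;> omega

theorem wt_inj (p : ℕ) (hp : Even p) (hp0 : 0 < p) (κ : Z2) (hκ : Odd κ.im) (I J A B : ℕ)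
    (hA : A ≤ p) (hB : 2 * B ≤ p) :
    Function.Injective fun c : Ix I J A B =>
      (p : Z2) * (2 * (-((c.1 : ℕ) : Z2) - ((c.2.1 : ℕ) : Z2) * tau) +
        ((c.2.2.2.2.1 : ℕ) : Z2) * κ) +
        (2 * (-((c.2.2.1 : ℕ) : Z2) - ((c.2.2.2.1 : ℕ) : Z2) * tau) +
          ((c.2.2.2.2.2 : ℕ) : Z2) * κ) := by
  rintro ⟨i, j, a, b, η, ε⟩ ⟨i', j', a', b', η', ε'⟩ h
  simp only at h
  obtain ⟨q, hq⟩ := hp
  obtain ⟨m, hm⟩ := hκ
  have hre := congrArg Zsqrtd.re h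
  have him := congrArg Zsqrtd.im h
  simp [tau, Zsqrtd.re_mul, Zsqrtd.im_mul, Zsqrtd.re_sub, Zsqrtd.im_sub, -mul_eq_mul_left_iff]
    at hre him
  have him' : 2 * (q : ℤ) * (-2 * (j : ℕ) + (η : ℕ) * (2 * m + 1)) - 2 * (b : ℕ) +
      (ε : ℕ) * (2 * m + 1) = 2 * (q : ℤ) * (-2 * (j' : ℕ) + (η' : ℕ) * (2 * m + 1)) -
      2 * (b' : ℕ) + (ε' : ℕ) * (2 * m + 1) := by
    rw [hm, hq] at him
    push_cast at him
    linarith
  have hη := η.isLt
  have hη' := η'.isLt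
  have hε := ε.isLt
  have hε' := ε'.isLt
  obtain ⟨h1, h2, h3, h4⟩ := dist_im (p := (q : ℤ)) (by omega) (by omega) (by omega) (by omega)
    (by omega) (by omega) (by have := b.isLt; omega) (by omega) (by have := b'.isLt; omega) him'
  have hre' : (p : ℤ) * (((i' : ℕ) : ℤ) - (i : ℕ)) = (a : ℕ) - (a' : ℕ) := by
    rw [h1, h3] at hre
    linarith
  obtain ⟨h5, h6⟩ := dist_small (by omega) hre' (by have := a'.isLt; omega)
    (by have := a.isLt; omega)
  have e1 : i = i' := Fin.ext (by omega)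
  have e2 : j = j' := Fin.ext (by omega)
  have e3 : a = a' := Fin.ext (by omega)
  have e4 : b = b' := Fin.ext (by omega)
  have e5 : η = η' := Fin.ext (by omega)
  have e6 : ε = ε' := Fin.ext (by omega)
  rw [e1, e2, e3, e4, e5, e6]

end Pool.Agent.Helper8.SUZ
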