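import Pool.Agent.Helper8.SUZ.Defs2

set_option autoImplicit false

namespace Pool.Agent.Helper8.SUZ

open MvPolynomial

theorem HasOrd.ne_zero {x : HF} {g : Z2} (h : HasOrd x g) : x ≠ 0 := by
  rintro rfl
  unfold HasOrd at h
  rw [HahnSeries.orderTop_zero] at h
  exact WithTop.coe_ne_top h.symm

theorem HasOrd.mul {x y : HF} {g h : Z2} (hx : HasOrd x g) (hy : HasOrd y h) :
    HasOrd (x * y) (g + h) := by
  unfold HasOrd at *
  rw [HahnSeries.orderTop_mul, hx, hy, WithTop.coe_add]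

theorem exists_hasOrd {x : HF} (hx : x ≠ 0) : ∃ g, HasOrd x g := by
  obtain ⟨g, hg⟩ := WithTop.ne_top_iff_exists.1 (HahnSeries.orderTop_ne_top.2 hx)
  exact ⟨g, hg.symm⟩

theorem hasOrd_one : HasOrd 1 0 := by
  unfold HasOrd
  rw [HahnSeries.orderTop_one]
  rfl

theorem HasOrd.inv {x : HF} {g : Z2} (hx : HasOrd x g) : HasOrd x⁻¹ (-g) := by
  have h0 := hx.ne_zero
  obtain ⟨k, hk⟩ := exists_hasOrd (inv_ne_zero h0)
  have h1 := hx.mul hk
  rw [mul_inv_cancel₀ h0] at h1
  have h2 := hasOrd_one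
  unfold HasOrd at h1 h2
  rw [h1] at h2
  have h3 : g + k = 0 := WithTop.coe_injective h2
  have h4 : k = -g := by linear_combination h3
  rw [← h4]; exact hk

theorem HasOrd.pow {x : HF} {g : Z2} (hx : HasOrd x g) (n : ℕ) : HasOrd (x ^ n) (n * g) := by
  induction n with
  | zero => simpa using hasOrd_one
  | succ n ih =>
    rw [pow_succ]
    have h := ih.mul hx
    have e : ((n + 1 : ℕ) : Z2) * g = n * g + g := by push_cast; ring
    rw [e]; exact h

theorem HasOrd.thH {x : HF} {g : Z2} (hx : HasOrd x g) : HasOrd (thH x) (tau * g) := by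
  unfold HasOrd at *
  have h : (Pool.Agent.Helper8.SUZ.thH x).orderTop =
      WithTop.map (⟨⟨AddMonoidHom.mulLeft tau, tau_mul_inj⟩, tau_mul_le _ _⟩ : Z2 ↪o Z2)
        x.orderTop := HahnSeries.orderTop_embDomain
  rw [h, hx]
  rfl

theorem HasOrd.add {x y : HF} {g : Z2} (hx : HasOrd x g) (hy : (g : WithTop Z2) < y.orderTop) :
    HasOrd (x + y) g := by
  unfold HasOrd at *
  rw [HahnSeries.orderTop_add_eq_left (by rw [hx]; exact hy), hx]

theorem hasOrd_E : HasOrd elE (-1) := HahnSeries.orderTop_single one_ne_zero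

theorem hasOrd_G : HasOrd elG (-tau) := HahnSeries.orderTop_single one_ne_zero

theorem thH_E : thH elE = elG := by
  have h : thH elE = HahnSeries.embDomain
      (⟨⟨AddMonoidHom.mulLeft tau, tau_mul_inj⟩, tau_mul_le _ _⟩ : Z2 ↪o Z2)
        (HahnSeries.single (-1) 1) := rfl
  rw [h, HahnSeries.embDomain_single]
  have e : (⟨⟨AddMonoidHom.mulLeft tau, tau_mul_inj⟩, tau_mul_le _ _⟩ : Z2 ↪o Z2) (-1) = -tau := by
    change tau * (-1) = -tau
    ring
  rw [e]
  rfl

theorem thH_G : thH elG = elE ^ 2 := by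
  have h : thH elG = HahnSeries.embDomain
      (⟨⟨AddMonoidHom.mulLeft tau, tau_mul_inj⟩, tau_mul_le _ _⟩ : Z2 ↪o Z2)
        (HahnSeries.single (-tau) 1) := rfl
  rw [h, HahnSeries.embDomain_single, sq]
  have e : (⟨⟨AddMonoidHom.mulLeft tau, tau_mul_inj⟩, tau_mul_le _ _⟩ : Z2 ↪o Z2) (-tau) =
      -1 + -1 := by
    change tau * (-tau) = -1 + -1
    have := tau_mul
    linear_combination -this
  rw [e, elE, HahnSeries.single_mul_single, one_mul]

end Pool.Agent.Helper8.SUZ
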