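import Pool.Agent.Helper8.SUZ.Defs2
import Pool.Agent.Helper8.SUZ.Ord

set_option autoImplicit false

namespace Pool.Agent.Helper8.SUZ

open MvPolynomial

theorem inj_pow_single (g : Z2) (n : ℕ) :
    (HahnSeries.single g (1 : ZMod 2)) ^ n = HahnSeries.single (n * g) 1 := by
  rw [HahnSeries.single_pow]
  simp

/-- The exponent of the image of a monomial. -/
def injExp (m : Fin 2 →₀ ℕ) : Z2 := ⟨-(m 0 : ℤ), -(m 1 : ℤ)⟩

theorem injExp_inj : Function.Injective injExp := by
  intro m m' h
  have h0 := congrArg Zsqrtd.re h
  have h1 := congrArg Zsqrtd.im h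
  simp only [injExp] at h0 h1
  ext i
  fin_cases i
  · simp only [Fin.zero_eta]; omega
  · simp only [Fin.mk_one]; omega

theorem zmod_two_cases (r : ZMod 2) : r = 0 ∨ r = 1 := by
  revert r; decide

theorem iot_monomial (m : Fin 2 →₀ ℕ) (r : ZMod 2) :
    iot (monomial m r) = HahnSeries.single (injExp m) r := by
  rcases zmod_two_cases r with rfl | rfl
  · rw [map_zero, map_zero, map_zero]
  unfold iot
  rw [aeval_monomial, Finsupp.prod_fintype _ _ (by intro i; exact pow_zero _), Fin.prod_univ_two]
  simp only [Matrix.cons_val_zero, Matrix.cons_val_one, elE, elG]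
  rw [inj_pow_single, inj_pow_single, HahnSeries.single_mul_single, map_one, one_mul, one_mul]
  have e : ((m 0 : Z2) * -1 + (m 1 : Z2) * -tau) = injExp m := by
    ext <;> simp [injExp, tau]
  rw [e]

theorem coeff_iot (P : A2) (m : Fin 2 →₀ ℕ) : (iot P).coeff (injExp m) = coeff m P := by
  conv_lhs => rw [P.as_sum]
  rw [map_sum, HahnSeries.coeff_sum]
  simp only [iot_monomial]
  rw [Finset.sum_eq_single m]
  · exact HahnSeries.coeff_single_same _ _
  · intro b _ hb
    exact HahnSeries.coeff_single_of_ne (fun h => hb (injExp_inj h).symm)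
  · intro hm
    rw [HahnSeries.coeff_single_same]
    exact notMem_support_iff.1 hm

theorem iot_inj : Function.Injective iot := by
  intro P Q h
  ext m
  rw [← coeff_iot, ← coeff_iot, h]

theorem iot_thA (P : A2) : iot (thA P) = thH (iot P) := by
  have h : (iot.toRingHom.comp thA.toRingHom : A2 →+* HF) = thH.comp iot.toRingHom := by
    apply MvPolynomial.ringHom_ext
    · intro r
      rcases zmod_two_cases r with rfl | rfl
      · simp
      · simp
    · intro i
      fin_cases i
      · simp [thA, iot, thH_E]
      · simp [thA, iot, thH_G]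
  exact congrArg (fun f : A2 →+* HF => f P) h

theorem evA_thA {F : Type*} [Field F] [Tits F] (x : F) (P : A2) :
    evA x (thA P) = th (evA x P) := by
  have h : ((evA x).comp thA.toRingHom : A2 →+* F) = th.comp (evA x) := by
    apply MvPolynomial.ringHom_ext
    · intro r
      rcases zmod_two_cases r with rfl | rfl
      · simp
      · simp
    · intro i
      fin_cases i
      · simp [thA, evA]
      · simp [thA, evA, th_th]
  exact congrArg (fun f : A2 →+* F => f P) h

end Pool.Agent.Helper8.SUZ
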