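import Pool.Agent.Helper8.SUZ.Nrm
import Pool.Agent.Helper8.SUZ.Dist
import Pool.Agent.Helper8.SUZ.Inj

set_option autoImplicit false

namespace Pool.Agent.Helper8.SUZ

open MvPolynomial

/-- the image of an element of `QA P Q` -/
noncomputable def nvm (P Q : A2) (f : QA P Q) : QuadraticAlgebra HF (iot (Up P Q)) (iot (Vp Q)) :=
  ⟨iot f.re, iot f.im⟩

theorem nvm_norm (P Q : A2) (f : QA P Q) :
    QuadraticAlgebra.norm (nvm P Q f) = iot (QuadraticAlgebra.norm f) := by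
  rw [QuadraticAlgebra.norm_def, QuadraticAlgebra.norm_def]
  simp only [nvm, map_sub, map_add, map_mul]

/-- the order of the norm -/
noncomputable def nvw (P Q : A2) (f : QA P Q) : WithTop Z2 :=
  (iot (QuadraticAlgebra.norm f)).orderTop

theorem nvw_eq (P Q : A2) (κ : Z2) (hU : HasOrd (iot (Up P Q)) κ) (hκ : Odd κ.im)
    (hV : ((κ : Z2) : WithTop Z2) < (iot (Vp Q)).orderTop + (iot (Vp Q)).orderTop) (f : QA P Q) :
    nvw P Q f = min ((iot f.re).orderTop + (iot f.re).orderTop)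
      ((iot f.im).orderTop + (iot f.im).orderTop + κ) := by
  rw [nvw, ← nvm_norm]
  exact ord_norm _ _ κ hU hκ hV (nvm P Q f)

theorem nv_dbl_lt {x y : HF} {t : WithTop Z2} {κ : WithTop Z2}
    (hx : t < x.orderTop + x.orderTop + κ) (hy : t < y.orderTop + y.orderTop + κ) :
    t < (x + y).orderTop + (x + y).orderTop + κ := by
  have h1 : min x.orderTop y.orderTop ≤ (x + y).orderTop := HahnSeries.min_orderTop_le_orderTop_add
  rcases le_total x.orderTop y.orderTop with h | h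
  · rw [min_eq_left h] at h1
    exact hx.trans_le (by gcongr)
  · rw [min_eq_right h] at h1
    exact hy.trans_le (by gcongr)

theorem nvw_add (P Q : A2) (κ : Z2) (hU : HasOrd (iot (Up P Q)) κ) (hκ : Odd κ.im)
    (hV : ((κ : Z2) : WithTop Z2) < (iot (Vp Q)).orderTop + (iot (Vp Q)).orderTop)
    (t : WithTop Z2) {f f' : QA P Q} (hf : t < nvw P Q f) (hf' : t < nvw P Q f') :
    t < nvw P Q (f + f') := by
  rw [nvw_eq P Q κ hU hκ hV] at hf hf' ⊢
  rw [lt_min_iff] at hf hf' ⊢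
  refine ⟨?_, ?_⟩
  · have := nv_dbl_lt (κ := 0) (by rw [add_zero]; exact hf.1) (by rw [add_zero]; exact hf'.1)
    rw [add_zero] at this
    rw [QuadraticAlgebra.re_add, map_add]
    exact this
  · rw [QuadraticAlgebra.im_add, map_add]
    exact nv_dbl_lt hf.2 hf'.2

theorem nvw_zero (P Q : A2) : nvw P Q 0 = ⊤ := by
  rw [nvw, QuadraticAlgebra.norm_zero, map_zero, HahnSeries.orderTop_zero]

theorem nv_E : HasOrd (iot (X 0)) (-1) := by
  have : iot (X 0) = elE := by simp [iot]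
  rw [this]; exact hasOrd_E

theorem nv_G : HasOrd (iot (X 1)) (-tau) := by
  have : iot (X 1) = elG := by simp [iot]
  rw [this]; exact hasOrd_G

theorem nv_XX (i j : ℕ) : HasOrd (iot (X 0 ^ i * X 1 ^ j)) (-((i : ℕ) : Z2) - ((j : ℕ) : Z2) * tau) := by
  rw [map_mul, map_pow, map_pow]
  have h := (nv_E.pow i).mul (nv_G.pow j)
  have e : ((i : ℕ) : Z2) * (-1) + ((j : ℕ) : Z2) * (-tau) =
      -((i : ℕ) : Z2) - ((j : ℕ) : Z2) * tau := by ring
  rwa [e] at h

theorem nv_neg {x : HF} {g : Z2} (h : HasOrd x g) : HasOrd (-x) g := by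
  rw [HasOrd, HahnSeries.orderTop_neg]; exact h

theorem nv_C (P Q : A2) (r : A2) {g : Z2} (h : HasOrd (iot r) g) :
    HasOrd (iot (QuadraticAlgebra.norm (QuadraticAlgebra.C r : QA P Q))) (2 * g) := by
  have : QuadraticAlgebra.norm (QuadraticAlgebra.C r : QA P Q) = r * r := by
    rw [QuadraticAlgebra.norm_def]; simp
  rw [this, map_mul, two_mul]
  exact h.mul h

theorem nv_om (P Q : A2) {κ : Z2} (hU : HasOrd (iot (Up P Q)) κ) :
    HasOrd (iot (QuadraticAlgebra.norm (QuadraticAlgebra.omega : QA P Q))) κ := by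
  have : QuadraticAlgebra.norm (QuadraticAlgebra.omega : QA P Q) = -Up P Q := by
    rw [QuadraticAlgebra.norm_def]; simp
  rw [this, map_neg]
  exact nv_neg hU

theorem nv_mon (P Q : A2) {κ : Z2} (hU : HasOrd (iot (Up P Q)) κ) (p : ℕ) {I J A B : ℕ}
    (c : Ix I J A B) : nvw P Q (mon P Q p c) =
      (((p : Z2) * (2 * (-((c.1 : ℕ) : Z2) - ((c.2.1 : ℕ) : Z2) * tau) +
        ((c.2.2.2.2.1 : ℕ) : Z2) * κ) +
        (2 * (-((c.2.2.1 : ℕ) : Z2) - ((c.2.2.2.1 : ℕ) : Z2) * tau) +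
          ((c.2.2.2.2.2 : ℕ) : Z2) * κ) : Z2) : WithTop Z2) := by
  rw [nvw, mon]
  rw [map_mul, map_pow, map_mul, map_mul, map_pow, map_pow]
  rw [map_mul, map_pow, map_mul, map_mul, map_pow, map_pow]
  exact (((nv_C P Q _ (nv_XX _ _)).mul ((nv_om P Q hU).pow _)).pow p).mul
    ((nv_C P Q _ (nv_XX _ _)).mul ((nv_om P Q hU).pow _))

theorem nv_kappa (P Q : A2) (hQ : iot Q ≠ 0) (g : Z2) (hg : 0 < g) (hodd : Odd g.re)
    (hord : HasOrd (iot P / iot Q) (-g)) : ∃ κ : Z2, HasOrd (iot (Up P Q)) κ ∧ Odd κ.im ∧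
      ((κ : Z2) : WithTop Z2) < (iot (Vp Q)).orderTop + (iot (Vp Q)).orderTop := by
  obtain ⟨q, hq⟩ := exists_hasOrd hQ
  have hV : HasOrd (iot (Vp Q)) (q + tau * q) := by
    rw [Vp, map_mul, iot_thA]
    exact hq.mul hq.thH
  have htg : tau * g > g := by
    have := tau_gt
    nlinarith
  have hR2 : HasOrd (thH (iot P / iot Q) + iot P / iot Q) (tau * (-g)) := by
    apply hord.thH.add
    rw [hord]
    have : tau * (-g) < -g := by
      rw [mul_neg]; exact neg_lt_neg htg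
    exact_mod_cast this
  have hU : iot (Up P Q) = iot (Vp Q) * iot (Vp Q) * (thH (iot P / iot Q) + iot P / iot Q) := by
    have hQ2 : thH (iot Q) ≠ 0 := (map_ne_zero thH).2 hQ
    simp only [Up, Vp, map_mul, map_add, iot_thA, map_div₀]
    field_simp
    ring
  refine ⟨_, by rw [hU]; exact (hV.mul hV).mul hR2, ?_, ?_⟩
  · obtain ⟨k, hk⟩ := hodd
    simp [tau, Zsqrtd.im_mul, Zsqrtd.re_mul, Zsqrtd.im_add]
    rw [hk]
    refine ⟨(q.im + q.re) - k - 1, ?_⟩
    ring
  · rw [hV]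
    have : q + tau * q + (q + tau * q) + tau * (-g) < (q + tau * q) + (q + tau * q) := by
      have h0 : 0 < tau * g := lt_trans hg htg
      rw [mul_neg]
      linarith
    exact_mod_cast this

theorem nv_zmod {a : ZMod 2} (h : a ≠ 0) : a = 1 := by
  revert h; revert a; decide

theorem mon_indep (P Q : A2) (hQ : iot Q ≠ 0) (g : Z2) (hg : 0 < g) (hodd : Odd g.re)
    (hord : HasOrd (iot P / iot Q) (-g)) (p : ℕ) (hp : Even p) (hp0 : 0 < p) (I J A B : ℕ)
    (hA : A ≤ p) (hB : 2 * B ≤ p) (c : Ix I J A B → ZMod 2) (hc : c ≠ 0) :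
    ∑ i, c i • mon P Q p i ≠ 0 := by
  classical
  obtain ⟨κ, hU, hκ, hV⟩ := nv_kappa P Q hQ g hg hodd hord
  set wt : Ix I J A B → Z2 := fun c => (p : Z2) * (2 * (-((c.1 : ℕ) : Z2) - ((c.2.1 : ℕ) : Z2) * tau) +
        ((c.2.2.2.2.1 : ℕ) : Z2) * κ) +
        (2 * (-((c.2.2.1 : ℕ) : Z2) - ((c.2.2.2.1 : ℕ) : Z2) * tau) +
          ((c.2.2.2.2.2 : ℕ) : Z2) * κ) with hwt
  have hinj : Function.Injective wt := wt_inj p hp hp0 κ hκ I J A B hA hB
  have hmon : ∀ i, nvw P Q (mon P Q p i) = ((wt i : Z2) : WithTop Z2) :=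
    fun i => nv_mon P Q hU p i
  set S : Finset (Ix I J A B) := Finset.univ.filter (fun i => c i ≠ 0) with hS
  have hSne : S.Nonempty := by
    obtain ⟨i, hi⟩ := Function.ne_iff.1 hc
    exact ⟨i, by rw [hS, Finset.mem_filter]; exact ⟨Finset.mem_univ _, hi⟩⟩
  obtain ⟨i0, hi0, hmin⟩ := S.exists_min_image wt hSne
  have hc0 : c i0 = 1 := nv_zmod (Finset.mem_filter.1 hi0).2
  have hrest : ∀ T : Finset (Ix I J A B), i0 ∉ T →
      ((wt i0 : Z2) : WithTop Z2) < nvw P Q (∑ i ∈ T, c i • mon P Q p i) := by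
    intro T
    induction T using Finset.induction_on with
    | empty => intro _; rw [Finset.sum_empty, nvw_zero]; exact WithTop.coe_lt_top _
    | insert a T ha ih =>
      intro h0
      rw [Finset.sum_insert ha]
      have h1 : i0 ≠ a := fun h => h0 (by rw [h]; exact Finset.mem_insert_self _ _)
      have h2 : i0 ∉ T := fun h => h0 (Finset.mem_insert_of_mem h)
      apply nvw_add P Q κ hU hκ hV _ _ (ih h2)
      by_cases hca : c a = 0
      · rw [hca, zero_smul, nvw_zero]; exact WithTop.coe_lt_top _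
      · rw [nv_zmod hca, one_smul, hmon]
        have h3 : wt i0 ≤ wt a := hmin a (by rw [hS, Finset.mem_filter]; exact ⟨Finset.mem_univ _, hca⟩)
        have h4 : wt i0 ≠ wt a := fun h => h1 (hinj h)
        exact_mod_cast lt_of_le_of_ne h3 h4
  intro hsum
  rw [← Finset.add_sum_erase _ _ (Finset.mem_univ i0), hc0, one_smul] at hsum
  have h1 := hrest (Finset.univ.erase i0) (Finset.notMem_erase _ _)
  have h2 : ∑ i ∈ Finset.univ.erase i0, c i • mon P Q p i = -mon P Q p i0 :=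
    eq_neg_of_add_eq_zero_right hsum
  rw [h2, nvw, QuadraticAlgebra.norm_neg, ← nvw, hmon] at h1
  exact lt_irrefl _ h1

end Pool.Agent.Helper8.SUZ
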