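import Pool.Agent.Helper8.SUZ.Inj

set_option autoImplicit false

universe u

namespace Pool.Agent.Helper8.SUZ

open MvPolynomial

theorem rep (e : Ex) : ∃ P Q : A2, iot Q ≠ 0 ∧ ev thH elE e = iot P / iot Q ∧
    ∀ (F : Type u) [Field F] [Tits F] (x : F), evA x Q ≠ 0 →
      ev th x e = evA x P / evA x Q := by
  induction e with
  | var =>
    refine ⟨X 0, 1, by simp, ?_, ?_⟩
    · simp [ev, iot]
    · intro F _ _ x _
      simp [ev, evA]
  | zero =>
    refine ⟨0, 1, by simp, ?_, ?_⟩
    · simp [ev]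
    · intro F _ _ x _
      simp [ev]
  | one =>
    refine ⟨1, 1, by simp, ?_, ?_⟩
    · simp [ev]
    · intro F _ _ x _
      simp [ev]
  | add a b iha ihb =>
    obtain ⟨P1, Q1, h1, e1, f1⟩ := iha
    obtain ⟨P2, Q2, h2, e2, f2⟩ := ihb
    refine ⟨P1 * Q2 + P2 * Q1, Q1 * Q2, ?_, ?_, ?_⟩
    · rw [map_mul]; exact mul_ne_zero h1 h2
    · change ev thH elE a + ev thH elE b = _
      rw [e1, e2]
      simp only [map_add, map_mul]
      field_simp
    · intro F _ _ x hx
      rw [map_mul] at hx
      have h3 := left_ne_zero_of_mul hx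
      have h4 := right_ne_zero_of_mul hx
      change ev th x a + ev th x b = _
      rw [f1 F x h3, f2 F x h4]
      simp only [map_add, map_mul]
      field_simp
  | mul a b iha ihb =>
    obtain ⟨P1, Q1, h1, e1, f1⟩ := iha
    obtain ⟨P2, Q2, h2, e2, f2⟩ := ihb
    refine ⟨P1 * P2, Q1 * Q2, ?_, ?_, ?_⟩
    · rw [map_mul]; exact mul_ne_zero h1 h2
    · change ev thH elE a * ev thH elE b = _
      rw [e1, e2, map_mul, map_mul, div_mul_div_comm]
    · intro F _ _ x hx
      rw [map_mul] at hx
      have h3 := left_ne_zero_of_mul hx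
      have h4 := right_ne_zero_of_mul hx
      change ev th x a * ev th x b = _
      rw [f1 F x h3, f2 F x h4, map_mul, map_mul, div_mul_div_comm]
  | inv a iha =>
    obtain ⟨P1, Q1, h1, e1, f1⟩ := iha
    by_cases hP : P1 = 0
    · subst hP
      refine ⟨0, Q1, h1, ?_, ?_⟩
      · change (ev thH elE a)⁻¹ = _
        rw [e1]; simp
      · intro F _ _ x hx
        change (ev th x a)⁻¹ = _
        rw [f1 F x hx]; simp
    · have h5 : iot P1 ≠ 0 := fun h => hP (iot_inj (by rw [h, map_zero]))
      refine ⟨Q1 * Q1, P1 * Q1, ?_, ?_, ?_⟩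
      · rw [map_mul]; exact mul_ne_zero h5 h1
      · change (ev thH elE a)⁻¹ = _
        rw [e1, map_mul, map_mul, inv_div]
        field_simp
      · intro F _ _ x hx
        rw [map_mul] at hx
        have h3 := left_ne_zero_of_mul hx
        have h4 := right_ne_zero_of_mul hx
        change (ev th x a)⁻¹ = _
        rw [f1 F x h4, map_mul, map_mul, inv_div]
        field_simp
  | th a iha =>
    obtain ⟨P1, Q1, h1, e1, f1⟩ := iha
    refine ⟨thA P1, thA Q1, ?_, ?_, ?_⟩
    · rw [iot_thA]
      exact (map_ne_zero thH).2 h1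
    · change thH (ev thH elE a) = _
      rw [e1, map_div₀, iot_thA, iot_thA]
    · intro F _ _ x hx
      rw [evA_thA] at hx
      have h3 : evA x Q1 ≠ 0 := fun h => hx (by rw [h, map_zero])
      change Pool.Agent.Helper8.SUZ.th (ev Pool.Agent.Helper8.SUZ.th x a) = _
      rw [f1 F x h3, map_div₀, evA_thA, evA_thA]

end Pool.Agent.Helper8.SUZ
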