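import Pool.Agent.Helper8.SUZ.Biv
import Pool.Agent.Helper8.SUZ.Lin
import Pool.Agent.Helper8.SUZ.Nv
import Pool.Agent.Helper8.SUZ.Evq
import Pool.Agent.Helper8.SUZ.DegM
import Pool.Agent.Helper8.SUZ.DegE
import Pool.Agent.Helper8.SUZ.Num
import Pool.Agent.Helper8.SUZ.K0
import Pool.Agent.Helper8.SUZ.RepM

/-! The bound for the number of points with `P / Q` in `K0`. -/

set_option autoImplicit false

universe u

namespace Pool.Agent.Helper8.SUZ

open MvPolynomial

theorem zmod2_smul_eq {M : Type*} [AddCommGroup M] [Module (ZMod 2) M] (c : ZMod 2) (f : M) :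
    c • f = if c = 0 then 0 else f := by
  obtain rfl | rfl : c = 0 ∨ c = 1 := by revert c; decide
  · rw [zero_smul, if_pos rfl]
  · rw [one_smul, if_neg one_ne_zero]

theorem sum_smul_eq {ι M : Type*} [Fintype ι] [AddCommGroup M] [Module (ZMod 2) M]
    (c : ι → ZMod 2) (f : ι → M) :
    ∑ i, c i • f i = ∑ i ∈ Finset.univ.filter (fun i => c i ≠ 0), f i := by
  rw [Finset.sum_filter]
  refine Finset.sum_congr rfl fun i _ => ?_
  rw [zmod2_smul_eq]
  by_cases h : c i = 0 <;> simp [h]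

theorem bound_PQ (P Q : A2) (hQ : iot Q ≠ 0) (g : Z2) (hg : 0 < g) (hodd : Odd g.re)
    (hord : HasOrd (iot P / iot Q) (-g)) (k : ℕ) :
    ∃ n0 : ℕ, ∀ n ≥ n0, ∀ (F : Type u) [Field F] [Fintype F] [Tits F],
      Fintype.card F = 2 ^ (2 * n + 1) → (∀ x : F, th x = x ^ (2 ^ (n + 1))) →
      2 * 2 ^ k * {x : F | K0 (evA x P / evA x Q)}.ncard ≤ (2 ^ k + 2) * Fintype.card F := by
  classical
  obtain ⟨D, hP, hQd, hP', hQ'⟩ : ∃ D : ℕ, (∀ k, P.degreeOf k ≤ D) ∧ (∀ k, Q.degreeOf k ≤ D) ∧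
      (∀ k, (thA P).degreeOf k ≤ D) ∧ (∀ k, (thA Q).degreeOf k ≤ D) := by
    refine ⟨∑ k : Fin 2, (P.degreeOf k + Q.degreeOf k + (thA P).degreeOf k + (thA Q).degreeOf k),
      ?_, ?_, ?_, ?_⟩ <;>
    · intro k
      rw [Fin.sum_univ_two]
      fin_cases k <;> simp <;> omega
  obtain ⟨i, hi, L0, H⟩ := num D k
  refine ⟨i + L0 + D, fun n hn F _ _ _ hcard hth => ?_⟩
  obtain ⟨L, rfl⟩ : ∃ L, n = i + L := ⟨n - i, by omega⟩
  obtain ⟨I, J, hI, hJ, hcount, hXY⟩ := H L (by omega)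
  have hi2 : 2 * 2 ^ (i - 1) = 2 ^ i := by
    rw [← pow_succ']; congr 1; omega
  set p := 2 ^ i with hp
  set B := 2 ^ (i - 1) with hB
  have hp0 : 0 < p := by positivity
  have hB0 : 0 < B := by positivity
  have hpe : Even p := ⟨B, by omega⟩
  -- the coefficients
  have hL0 : 0 < 2 ^ L := by positivity
  have hdE := fun c : Ix I J p B => deg_eqn P Q D hP hQd hP' hQ' L c
  obtain ⟨c, hc, hre, him⟩ : ∃ c : Ix I J p B → ZMod 2, c ≠ 0 ∧
      ∑ j, c j • (eqn P Q L j).re = 0 ∧ ∑ j, c j • (eqn P Q L j).im = 0 := by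
    refine lin (I + 2 * 2 ^ L * B + 3 * 2 ^ L * D + 4 * D - 2 * 2 ^ L)
      (J + 2 ^ L * p + 3 * 2 ^ L * D + 4 * D - 2 ^ L) _ _ (fun j => ?_) (fun j => ?_) ?_
    · have := (hdE j).1
      omega
    · have := (hdE j).2
      omega
    · have h1 : 2 * 2 ^ L ≤ 2 * 2 ^ L * B := Nat.le_mul_of_pos_right _ hB0
      have h2 : 2 ^ L ≤ 2 ^ L * p := Nat.le_mul_of_pos_right _ hp0
      have h3 := hXY (I + 2 * 2 ^ L * B + 3 * 2 ^ L * D + 4 * D - 2 * 2 ^ L)
        (J + 2 ^ L * p + 3 * 2 ^ L * D + 4 * D - 2 ^ L) (by omega) (by omega)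
      simpa [Fintype.card_prod, Fintype.card_fin] using h3
  have hE : ∑ j, c j • eqn P Q L j = 0 := by
    rw [sum_smul_eq] at hre him ⊢
    refine QuadraticAlgebra.ext ?_ ?_
    · rw [QuadraticAlgebra.re_zero, ← hre]
      exact map_sum (QuadraticAlgebra.reₗ (Up P Q) (Vp Q)) _ _
    · rw [QuadraticAlgebra.im_zero, ← him]
      exact map_sum (QuadraticAlgebra.imₗ (Up P Q) (Vp Q)) _ _
  set S := Finset.univ.filter (fun j => c j ≠ 0) with hS
  set β : QA P Q := ∑ j ∈ S, mon P Q p j with hβ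
  have hβ0 : β ≠ 0 := by
    have h1 := mon_indep P Q hQ g hg hodd hord p hpe hp0 I J p B le_rfl (by omega) c hc
    rwa [sum_smul_eq] at h1
  rw [sum_smul_eq] at hE
  -- vanishing
  have hvan : ∀ x : F, evA x Q ≠ 0 → K0 (evA x P / evA x Q) →
      evA x β.re = 0 ∧ evA x β.im = 0 := by
    intro x hx hK
    have key : ∀ e : F, th e + e = evA x P / evA x Q →
        evA x β.re + evA x β.im * (evA x (Vp Q) * e) = 0 := by
      intro e he
      have h1 : ∀ j, (evQ P Q x (evA x (Vp Q) * e) (lift_pt P Q x e hx he) (mon P Q (2 ^ i) j)) ^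
          (2 ^ (i + 2 * L + 1)) = evQ P Q x (evA x (Vp Q) * e) (lift_pt P Q x e hx he)
            (eqn P Q L j) := fun j =>
        pow_mon P Q i L hcard hth x e hx he (j : Ix I J p B)
      have h2 : (evQ P Q x (evA x (Vp Q) * e) (lift_pt P Q x e hx he) β) ^
          (2 ^ (i + 2 * L + 1)) = 0 := by
        rw [hβ, map_sum, sum_pow_char_pow 2]
        rw [Finset.sum_congr rfl fun j _ => h1 j, ← map_sum, hE, map_zero]
      have h3 := pow_eq_zero_iff (pow_ne_zero _ two_ne_zero) |>.1 h2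
      rwa [evQ_apply] at h3
    obtain ⟨e, he⟩ := hK
    have h1 := key e he
    have h2 := key (e + 1) (by
      rw [map_add, map_one]; linear_combination he + two_zero (F := F))
    have hV : evA x (Vp Q) ≠ 0 := by
      rw [Vp, map_mul, evA_thA]
      exact mul_ne_zero hx (by simpa using hx)
    have h3 : evA x β.im * evA x (Vp Q) = 0 := by linear_combination h2 - h1
    have h4 : evA x β.im = 0 := (mul_eq_zero.1 h3).resolve_right hV
    rw [h4, zero_mul, add_zero] at h1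
    exact ⟨h1, h4⟩
  -- degrees
  have hdM := fun j : Ix I J p B => deg_mon P Q D hP hQd hP' hQ' p hp0 j
  have hreS : β.re = ∑ j ∈ S, (mon P Q p j).re :=
    map_sum (QuadraticAlgebra.reₗ (Up P Q) (Vp Q)) _ _
  have himS : β.im = ∑ j ∈ S, (mon P Q p j).im :=
    map_sum (QuadraticAlgebra.imₗ (Up P Q) (Vp Q)) _ _
  have hSne : S.Nonempty := by
    rw [Finset.nonempty_iff_ne_empty]
    intro h
    rw [hβ, h, Finset.sum_empty] at hβ0
    exact hβ0 rfl
  obtain ⟨j0, hj0⟩ := hSne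
  have hb0 : p + 1 ≤ p * I + p + 4 * D * (p + 1) := by have := (hdM j0).1.1; omega
  have hb1 : p + 1 ≤ p * J + B + 4 * D * (p + 1) := by have := (hdM j0).1.2; omega
  obtain ⟨b, hb, hbd0, hbd1, hbv⟩ : ∃ b : A2, b ≠ 0 ∧
      b.degreeOf 0 ≤ p * I + p + 4 * D * (p + 1) - (p + 1) ∧
      b.degreeOf 1 ≤ p * J + B + 4 * D * (p + 1) - (p + 1) ∧
      ∀ x : F, evA x Q ≠ 0 → K0 (evA x P / evA x Q) → evA x b = 0 := by
    by_cases h : β.re = 0
    · refine ⟨β.im, ?_, ?_, ?_, fun x hx hK => (hvan x hx hK).2⟩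
      · intro h2
        exact hβ0 (QuadraticAlgebra.ext h h2)
      · rw [himS]
        refine (degreeOf_sum_le _ _ _).trans (Finset.sup_le fun j _ => ?_)
        have := (hdM j).2.1; omega
      · rw [himS]
        refine (degreeOf_sum_le _ _ _).trans (Finset.sup_le fun j _ => ?_)
        have := (hdM j).2.2; omega
    · refine ⟨β.re, h, ?_, ?_, fun x hx hK => (hvan x hx hK).1⟩
      · rw [hreS]
        refine (degreeOf_sum_le _ _ _).trans (Finset.sup_le fun j _ => ?_)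
        have := (hdM j).1.1; omega
      · rw [hreS]
        refine (degreeOf_sum_le _ _ _).trans (Finset.sup_le fun j _ => ?_)
        have := (hdM j).1.2; omega
  -- counting
  set t := 2 ^ (i + L + 1) with ht
  have htp : t = 2 * (p * 2 ^ L) := by rw [ht, hp, pow_succ, pow_add]; ring
  have hb0t : b.degreeOf 0 < t := by
    have h1 : p * I + p * (8 * D) = 2 * (p * 2 ^ L) := by
      rw [← mul_add, hI]; ring
    have h2 : 4 * D * (p + 1) ≤ p * (8 * D) := by nlinarith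
    omega
  have hQ0t : Q.degreeOf 0 < t := by
    have h1 : Q.degreeOf 0 ≤ D := hQd 0
    have h2 : D < 2 ^ D := Nat.lt_two_pow_self
    have h3 : 2 ^ D ≤ t := Nat.pow_le_pow_right (by norm_num) (by omega)
    omega
  have hQ0 : Q ≠ 0 := by
    rintro rfl
    exact hQ (map_zero _)
  have hr1 := card_roots t hth b hb hb0t
  have hr2 := card_roots t hth Q hQ0 hQ0t
  have hsub : {x : F | K0 (evA x P / evA x Q)} ⊆ {x : F | evA x b = 0} ∪ {x : F | evA x Q = 0} := by
    intro x hx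
    by_cases h : evA x Q = 0
    · exact Or.inr h
    · exact Or.inl (hbv x h hx)
  have hcnt : {x : F | K0 (evA x P / evA x Q)}.ncard ≤
      t * (b.degreeOf 1 + 1) + t * (Q.degreeOf 1 + 1) :=
    (Set.ncard_le_ncard hsub (Set.toFinite _)).trans ((Set.ncard_union_le _ _).trans
      (add_le_add hr1 hr2))
  have hd1 : b.degreeOf 1 + 1 ≤ p * J + B + 4 * D * (p + 1) := by omega
  have hd2 : Q.degreeOf 1 + 1 ≤ D + 1 := by have := hQd 1; omega
  have hq : Fintype.card F = t * 2 ^ (i + L) := by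
    rw [hcard, ht, ← pow_add]; congr 1; ring
  rw [hq]
  have hJ' : 2 * 2 ^ k * (t * (p * J)) = t * 2 ^ (i + L) * (2 ^ k + 1) := by
    calc 2 * 2 ^ k * (t * (p * J)) = t * p * (J * 2 ^ (k + 1)) := by rw [pow_succ]; ring
      _ = t * 2 ^ (i + L) * (2 ^ k + 1) := by rw [hJ, hp, pow_add]; ring
  calc 2 * 2 ^ k * {x : F | K0 (evA x P / evA x Q)}.ncard
      ≤ 2 * 2 ^ k * (t * (p * J + B + 4 * D * (p + 1)) + t * (D + 1)) :=
        Nat.mul_le_mul_left _ (hcnt.trans (add_le_add (Nat.mul_le_mul_left _ hd1)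
          (Nat.mul_le_mul_left _ hd2)))
    _ = 2 * 2 ^ k * (t * (p * J)) + t * (2 ^ (k + 1) * (B + 4 * D * (p + 1) + D + 1)) := by
        rw [pow_succ]; ring
    _ ≤ t * 2 ^ (i + L) * (2 ^ k + 1) + t * 2 ^ (i + L) := by
        rw [hJ']
        exact Nat.add_le_add_left (Nat.mul_le_mul_left _ hcount) _
    _ = (2 ^ k + 2) * (t * 2 ^ (i + L)) := by ring

/-- the same for expressions -/
theorem bound_ex (e : Ex) (g : Z2) (hg : 0 < g) (hodd : Odd g.re)
    (hord : HasOrd (ev thH elE e) (-g)) (k : ℕ) :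
    ∃ n0 : ℕ, ∀ n ≥ n0, ∀ (F : Type u) [Field F] [Fintype F] [Tits F],
      Fintype.card F = 2 ^ (2 * n + 1) → (∀ x : F, th x = x ^ (2 ^ (n + 1))) →
      2 * 2 ^ k * {x : F | K0 (ev th x e)}.ncard ≤ (2 ^ k + 2) * Fintype.card F := by
  obtain ⟨P, Q, hQ, hev, H⟩ := rep.{u} e
  rw [hev] at hord
  obtain ⟨n0, h0⟩ := bound_PQ.{u} P Q hQ g hg hodd hord k
  refine ⟨n0, fun n hn F _ _ _ hcard hth => (Nat.mul_le_mul_left _ ?_).trans
    (h0 n hn F hcard hth)⟩
  refine Set.ncard_le_ncard (fun x hx => ?_) (Set.toFinite _)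
  by_cases h : evA x Q = 0
  · change K0 _
    rw [h, div_zero]
    exact K0_zero
  · change K0 _
    rw [← H F x h]
    exact hx

end Pool.Agent.Helper8.SUZ
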