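import Pool.Agent.Helper8.SUZ.Rel

set_option autoImplicit false

namespace Pool.Agent.Helper8.SUZ

open MvPolynomial

variable {F : Type*} [Field F] [Tits F]

private theorem Uniq.m_of_k {m m' : Fˣ} (h : th (m : F) * (m : F) = th (m' : F) * (m' : F)) :
    m = m' := by
  have h2 : th (th (m : F) * (m : F)) = th (th (m' : F) * (m' : F)) := by rw [h]
  rw [map_mul, map_mul, th_th, th_th] at h2
  have hm : (m : F) ≠ 0 := m.ne_zero
  have hm' : (m' : F) ≠ 0 := m'.ne_zero
  have ht : th (m : F) ≠ 0 := th_ne hm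
  have ht' : th (m' : F) ≠ 0 := th_ne hm'
  have hk : th (m : F) * (m : F) ≠ 0 := mul_ne_zero ht hm
  apply Units.ext
  apply mul_left_cancel₀ hk
  calc th (m : F) * (m : F) * (m : F) = (m : F) ^ 2 * th (m : F) := by ring
    _ = (m' : F) ^ 2 * th (m' : F) := h2
    _ = th (m' : F) * (m' : F) * (m' : F) := by ring
    _ = th (m : F) * (m : F) * (m' : F) := by rw [h]

theorem big_inj {a b c d a' b' c' d' : F} {m m' : Fˣ} (h : big a b m c d = big a' b' m' c' d') :
    a = a' ∧ b = b' ∧ m = m' ∧ c = c' ∧ d = d' := by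
  have e03 := congrArg (fun g : GG F => g.val 0 3) h
  have e02 := congrArg (fun g : GG F => g.val 0 2) h
  have e01 := congrArg (fun g : GG F => g.val 0 1) h
  have e13 := congrArg (fun g : GG F => g.val 1 3) h
  have e23 := congrArg (fun g : GG F => g.val 2 3) h
  simp [big, gS, gM, gW, mS, mM, mW, Matrix.mul_apply, Fin.sum_univ_four] at e03 e02 e01 e13 e23
  have hmm : m = m' := Uniq.m_of_k e03
  subst hmm
  have hm : (m : F) ≠ 0 := m.ne_zero
  have ht : th (m : F) ≠ 0 := th_ne hm
  have hk : th (m : F) * (m : F) ≠ 0 := mul_ne_zero ht hm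
  have hc : c = c' := by simpa [hm, ht] using e02
  subst hc
  have hd : d = d' := by simpa [hm, ht] using e01
  have ha : a = a' := by simpa [hm, ht] using e13
  have hb : b = b' := by simpa [hm, ht] using e23
  exact ⟨ha, hb, rfl, rfl, hd⟩

theorem small_inj {a b a' b' : F} {m m' : Fˣ} (h : gS a b * gM m = gS a' b' * gM m') :
    a = a' ∧ b = b' ∧ m = m' := by
  have e00 := congrArg (fun g : GG F => g.val 0 0) h
  have e10 := congrArg (fun g : GG F => g.val 1 0) h
  have e20 := congrArg (fun g : GG F => g.val 2 0) h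
  simp [gS, gM, mS, mM, Matrix.mul_apply, Fin.sum_univ_four] at e00 e10 e20
  have hmm : m = m' := Uniq.m_of_k e00
  subst hmm
  have hm : (m : F) ≠ 0 := m.ne_zero
  have ht : th (m : F) ≠ 0 := th_ne hm
  have ha : a = a' := by simpa [hm, ht] using e10
  have hb : b = b' := by simpa [hm, ht] using e20
  exact ⟨ha, hb, rfl⟩

end Pool.Agent.Helper8.SUZ
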