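import Pool.Agent.Helper8.SUZ.Form
import Pool.Agent.Helper8.SUZ.Uniq

set_option autoImplicit false

namespace Pool.Agent.Helper8.SUZ

open MvPolynomial

variable {F : Type*} [Field F] [Tits F]

theorem cent_gM (m : Fˣ) (x y : F) : gM m * gS x y =
    gS (x / th (m : F)) (y / (th (m : F) * (m : F) ^ 2)) * gM m := by
  have hm : (m : F) ≠ 0 := m.ne_zero
  have hm2 : th (m : F) ≠ 0 := th_ne hm
  rw [gS_gM]
  congr 2 <;> field_simp

theorem cent_one {m : Fˣ} (h : 1 / th (m : F) = 1) : m = 1 := by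
  have hm2 : th (m : F) ≠ 0 := th_ne m.ne_zero
  have h1 : th (m : F) = th (1 : F) := by
    rw [map_one]
    rw [div_eq_iff hm2, one_mul] at h
    exact h.symm
  exact Units.ext (th_inj h1)

theorem cent_big (a b c d x y : F) (m : Fˣ) (h : big a b m c d * gS x y = gS 1 0 * big a b m c d) :
    False := by
  have h1 : big a b m c d * gS x y = big a b m (c + x) (d + y + th c * x) := by
    unfold big
    rw [mul_assoc _ (gS c d), gS_mul]
  have h2 : gS 1 0 * big a b m c d = big (1 + a) (0 + b + th 1 * a) m c d := by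
    unfold big
    rw [← gS_mul]
    simp only [mul_assoc]
  rw [h1, h2] at h
  have h3 := (big_inj h).1
  have h4 : (1 : F) = 0 := by linear_combination -h3
  exact one_ne_zero h4

theorem cent (g : GG F) (hg : g ∈ Sz (th : F →+* F)) (h : g * gS 1 0 = gS 1 0 * g) :
    ∃ e b, (e = 0 ∨ e = 1) ∧ g = gS e b := by
  rcases sz_form g hg with ⟨a, b, m, rfl⟩ | ⟨a, b, m, c, d, rfl⟩
  · rw [mul_assoc, cent_gM, ← mul_assoc, ← mul_assoc, gS_mul, gS_mul] at h
    obtain ⟨h1, h2, -⟩ := small_inj h
    have h3 : 1 / th (m : F) = 1 := by linear_combination h1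
    have hm := cent_one h3
    subst hm
    refine ⟨a, b, th_fix ?_, by rw [gM_one, mul_one]⟩
    rw [map_one, Units.val_one, map_one] at h2
    linear_combination h2
  · exact (cent_big _ _ _ _ _ _ _ h).elim

theorem not_real (g : GG F) (hg : g ∈ Sz (th : F →+* F)) :
    g⁻¹ * gS 1 0 * g ≠ (gS 1 0)⁻¹ := by
  intro h
  have h0 : g * gS 1 (0 + th 1 * 1) = gS 1 0 * g := by
    rw [← gS_inv, ← h]
    group
  rcases sz_form g hg with ⟨a, b, m, rfl⟩ | ⟨a, b, m, c, d, rfl⟩
  · rw [mul_assoc, cent_gM, ← mul_assoc, ← mul_assoc, gS_mul, gS_mul] at h0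
    obtain ⟨h1, h2, -⟩ := small_inj h0
    have h3 : 1 / th (m : F) = 1 := by linear_combination h1
    have hm := cent_one h3
    subst hm
    apply not_K0_one (F := F)
    refine ⟨a, ?_⟩
    rw [map_one, Units.val_one, map_one] at h2
    linear_combination h2 + (a - 1) * two_zero (F := F)
  · exact cent_big _ _ _ _ _ _ _ h0

end Pool.Agent.Helper8.SUZ
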