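import Pool.Agent.Helper8.SUZ.K0

set_option autoImplicit false

namespace Pool.Agent.Helper8.SUZ

open MvPolynomial

open Classical in
/-- The quadratic character of `F / K0`. -/
private noncomputable def Chars.chi {F : Type*} [Field F] [Tits F] (z : F) : ℤ :=
  if K0 z then 1 else -1

private theorem Chars.chi_add {F : Type*} [Field F] [Fintype F] [Tits F] (x y : F) :
    Chars.chi (x + y) = Chars.chi x * Chars.chi y := by
  unfold Chars.chi
  have h2 : ∀ z : F, z + z = 0 := fun z => by
    have := two_zero (F := F)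
    linear_combination z * this
  by_cases hx : K0 x
  · by_cases hy : K0 y
    · rw [if_pos hx, if_pos hy, if_pos (K0_add hx hy)]; norm_num
    · have : ¬ K0 (x + y) := by
        intro h
        apply hy
        have h3 := K0_add h hx
        have : x + y + x = y := by linear_combination h2 x
        rwa [this] at h3
      rw [if_pos hx, if_neg hy, if_neg this]; norm_num
  · by_cases hy : K0 y
    · have : ¬ K0 (x + y) := by
        intro h
        apply hx
        have h3 := K0_add h hy
        have : x + y + y = x := by linear_combination h2 y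
        rwa [this] at h3
      rw [if_neg hx, if_pos hy, if_neg this]; norm_num
    · rw [if_neg hx, if_neg hy, if_pos (K0_index hx hy)]; norm_num

private theorem Chars.chi_zero {F : Type*} [Field F] [Tits F] : Chars.chi (0 : F) = 1 := by
  unfold Chars.chi
  rw [if_pos K0_zero]

private theorem Chars.chi_sum {F : Type*} [Field F] [Fintype F] [Tits F] {ι : Type*}
    [DecidableEq ι] (T : Finset ι) (f : ι → F) :
    Chars.chi (∑ j ∈ T, f j) = ∏ j ∈ T, Chars.chi (f j) := by
  induction T using Finset.induction_on with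
  | empty => simp [Chars.chi_zero]
  | insert a s ha ih => rw [Finset.sum_insert ha, Finset.prod_insert ha, Chars.chi_add, ih]

private theorem Chars.sum_chi {F : Type*} [Field F] [Fintype F] [Tits F] (ψ : F → F) :
    ∑ x : F, Chars.chi (ψ x) = 2 * ({x : F | K0 (ψ x)}.ncard : ℤ) - Fintype.card F := by
  classical
  unfold Chars.chi
  rw [Finset.sum_ite]
  simp only [Finset.sum_const, nsmul_eq_mul, mul_one, mul_neg]
  have h1 : ({x : F | K0 (ψ x)}.ncard : ℤ) = ((Finset.univ.filter fun x : F => K0 (ψ x)).card : ℤ) := by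
    congr 1
    rw [← Set.ncard_coe_finset]
    congr 1
    ext x
    simp
  have h2 : (Finset.univ.filter fun x : F => K0 (ψ x)).card +
      (Finset.univ.filter fun x : F => ¬ K0 (ψ x)).card = Fintype.card F := by
    rw [Finset.card_filter_add_card_filter_not]
    rfl
  rw [h1]
  have h3 : ((Finset.univ.filter fun x : F => K0 (ψ x)).card : ℤ) +
      ((Finset.univ.filter fun x : F => ¬ K0 (ψ x)).card : ℤ) = Fintype.card F := by
    exact_mod_cast h2
  linarith

theorem chars {F : Type*} [Field F] [Fintype F] [Tits F] {ι : Type*} [Fintype ι] [DecidableEq ι]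
    (h : ι → F → F) (δ : ℤ) (hδ : 0 ≤ δ) (hT : ∀ T : Finset ι, T.Nonempty →
      |2 * ({x : F | K0 (∑ j ∈ T, h j x)}.ncard : ℤ) - Fintype.card F| ≤ δ) :
    (Fintype.card F : ℤ) ≤ 2 ^ Fintype.card ι * ({x : F | ∀ j, ¬ K0 (h j x)}.ncard : ℤ) +
      2 ^ Fintype.card ι * δ := by
  classical
  -- the product
  have hprod : ∀ x : F, ∏ j : ι, (1 + -Chars.chi (h j x)) =
      if (∀ j, ¬ K0 (h j x)) then (2 : ℤ) ^ Fintype.card ι else 0 := by
    intro x
    split_ifs with hx
    · have : ∀ j ∈ (Finset.univ : Finset ι), (1 + -Chars.chi (h j x)) = (2 : ℤ) := by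
        intro j _
        unfold Chars.chi
        rw [if_neg (hx j)]; norm_num
      rw [Finset.prod_congr rfl this, Finset.prod_const, Finset.card_univ]
    · push Not at hx
      obtain ⟨j, hj⟩ := hx
      apply Finset.prod_eq_zero (Finset.mem_univ j)
      unfold Chars.chi
      rw [if_pos hj]; norm_num
  have hsum1 : ∑ x : F, ∏ j : ι, (1 + -Chars.chi (h j x)) =
      2 ^ Fintype.card ι * ({x : F | ∀ j, ¬ K0 (h j x)}.ncard : ℤ) := by
    rw [Finset.sum_congr rfl (fun x _ => hprod x), Finset.sum_ite, Finset.sum_const_zero, add_zero,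
      Finset.sum_const, nsmul_eq_mul, mul_comm]
    congr 2
    rw [← Set.ncard_coe_finset]
    congr 1
    ext x
    simp
  have hexp : ∀ x : F, ∏ j : ι, (1 + -Chars.chi (h j x)) =
      ∑ T : Finset ι, (-1 : ℤ) ^ T.card * Chars.chi (∑ j ∈ T, h j x) := by
    intro x
    rw [Finset.prod_one_add]
    apply Finset.sum_congr
    · simp
    · intro T _
      rw [Finset.prod_neg, Chars.chi_sum]
  have hsum2 : ∑ x : F, ∏ j : ι, (1 + -Chars.chi (h j x)) =
      ∑ T : Finset ι, (-1 : ℤ) ^ T.card *
        (2 * ({x : F | K0 (∑ j ∈ T, h j x)}.ncard : ℤ) - Fintype.card F) := by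
    rw [Finset.sum_congr rfl (fun x _ => hexp x), Finset.sum_comm]
    apply Finset.sum_congr rfl
    intro T _
    rw [← Finset.mul_sum, Chars.sum_chi (fun x => ∑ j ∈ T, h j x)]
  have hempty : (2 * ({x : F | K0 (∑ j ∈ (∅ : Finset ι), h j x)}.ncard : ℤ) - Fintype.card F)
      = Fintype.card F := by
    have : {x : F | K0 (∑ j ∈ (∅ : Finset ι), h j x)} = Set.univ := by
      ext x
      simp [K0_zero]
    rw [this, Set.ncard_univ, Nat.card_eq_fintype_card]
    ring
  rw [hsum1, ← Finset.add_sum_erase Finset.univ _ (Finset.mem_univ (∅ : Finset ι)), hempty] at hsum2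
  have hbound : -(2 ^ Fintype.card ι * δ) ≤ ∑ T ∈ Finset.univ.erase (∅ : Finset ι),
      (-1 : ℤ) ^ T.card * (2 * ({x : F | K0 (∑ j ∈ T, h j x)}.ncard : ℤ) - Fintype.card F) := by
    have h1 : ∀ T ∈ Finset.univ.erase (∅ : Finset ι), -δ ≤
        (-1 : ℤ) ^ T.card * (2 * ({x : F | K0 (∑ j ∈ T, h j x)}.ncard : ℤ) - Fintype.card F) := by
      intro T hT'
      have hne : T.Nonempty := by
        rw [Finset.mem_erase] at hT'
        exact Finset.nonempty_iff_ne_empty.2 hT'.1
      have h2 := hT T hne
      have h3 : |(-1 : ℤ) ^ T.card * (2 * ({x : F | K0 (∑ j ∈ T, h j x)}.ncard : ℤ) -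
          Fintype.card F)| ≤ δ := by
        rw [abs_mul, abs_pow, abs_neg, abs_one, one_pow, one_mul]
        exact h2
      exact (abs_le.1 h3).1
    have h2 := Finset.sum_le_sum h1
    rw [Finset.sum_const, nsmul_eq_mul] at h2
    have h3 : ((Finset.univ.erase (∅ : Finset ι)).card : ℤ) ≤ 2 ^ Fintype.card ι := by
      have : (Finset.univ.erase (∅ : Finset ι)).card ≤ (Finset.univ : Finset (Finset ι)).card :=
        Finset.card_le_card (Finset.erase_subset _ _)
      rw [Finset.card_univ, Fintype.card_finset] at this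
      exact_mod_cast this
    have h4 := mul_le_mul_of_nonneg_right h3 hδ
    linarith
  have hc : (-1 : ℤ) ^ (∅ : Finset ι).card = 1 := by simp
  rw [hc, one_mul] at hsum2
  linarith

end Pool.Agent.Helper8.SUZ
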