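import Mathlib

/-! Definitions for the Suzuki groups (MP_0cb9ae_al). -/

set_option autoImplicit false

namespace Pool.Agent.Helper8.SUZ

section Mat
variable {F : Type*} [Field F]

/-- Suzuki's lower unitriangular matrix `S(a, b)`; here `th` is `x ↦ x ^ (2 ^ (n + 1))`. -/
def mS (th : F → F) (a b : F) : Matrix (Fin 4) (Fin 4) F :=
  !![1, 0, 0, 0;
     a, 1, 0, 0;
     b, th a, 1, 0;
     th a * a ^ 2 + a * b + th b, th a * a + b, a, 1]

/-- Suzuki's diagonal matrix. -/
def mM (th : F → F) (m : F) : Matrix (Fin 4) (Fin 4) F :=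
  !![th m * m, 0, 0, 0; 0, m, 0, 0; 0, 0, m⁻¹, 0; 0, 0, 0, (th m * m)⁻¹]

/-- The antidiagonal permutation matrix. -/
def mW : Matrix (Fin 4) (Fin 4) F := !![0, 0, 0, 1; 0, 0, 1, 0; 0, 1, 0, 0; 1, 0, 0, 0]

/-- The group generated by the matrices `S(a, b)`, the diagonal matrices and the antidiagonal
permutation matrix. For `F` of order `2 ^ (2 * n + 1)` and `th x = x ^ (2 ^ (n + 1))` it is the
Suzuki group `Sz(2 ^ (2 * n + 1))`. -/
def Sz (th : F → F) : Subgroup (Matrix (Fin 4) (Fin 4) F)ˣ :=
  Subgroup.closure {g | (∃ a b, g.val = mS th a b) ∨ (∃ m, m ≠ 0 ∧ g.val = mM th m) ∨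
    g.val = mW}

end Mat

/-- A Tits endomorphism: its square is the Frobenius map. -/
class Tits (F : Type*) [Field F] where
  th : F →+* F
  sq : ∀ x, th (th x) = x ^ 2

section
variable {F : Type*} [Field F] [Tits F]

abbrev th : F →+* F := Tits.th

theorem th_th (x : F) : th (th x) = x ^ 2 := Tits.sq x

theorem two_zero : (2 : F) = 0 := by
  have h := th_th (F := F) (1 + 1)
  rw [map_add, map_add, map_one, map_one] at h
  linear_combination (-1 : F) * h

instance : CharP F 2 := CharTwo.of_one_ne_zero_of_two_eq_zero one_ne_zero two_zero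

theorem mS_mul (a b c d : F) :
    mS th a b * mS th c d = mS th (a + c) (b + d + th a * c) := by
  ext i j
  fin_cases i <;> fin_cases j <;>
    simp [mS, Matrix.mul_apply, Fin.sum_univ_four, th_th]
  all_goals (rw [← sub_eq_zero]; ring_nf; try simp [two_zero (F := F)])

theorem mS_zero : mS (th : F →+* F) 0 0 = 1 := by
  ext i j
  fin_cases i <;> fin_cases j <;> simp [mS]

/-- `S(a, b)` as a unit. -/
def gS (a b : F) : (Matrix (Fin 4) (Fin 4) F)ˣ where
  val := mS th a b
  inv := mS th a (b + th a * a)
  val_inv := by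
    rw [mS_mul, ← mS_zero]
    congr 1
    · linear_combination a * two_zero (F := F)
    · linear_combination (b + th a * a) * two_zero (F := F)
  inv_val := by
    rw [mS_mul, ← mS_zero]
    congr 1
    · linear_combination a * two_zero (F := F)
    · linear_combination (b + th a * a) * two_zero (F := F)

/-- The diagonal matrix as a unit. -/
def gM (m : Fˣ) : (Matrix (Fin 4) (Fin 4) F)ˣ where
  val := mM th (m : F)
  inv := mM th ((m⁻¹ : Fˣ) : F)
  val_inv := by
    ext i j
    fin_cases i <;> fin_cases j <;>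
      simp [mM, Matrix.mul_apply, Fin.sum_univ_four] <;> field_simp
  inv_val := by
    ext i j
    fin_cases i <;> fin_cases j <;>
      simp [mM, Matrix.mul_apply, Fin.sum_univ_four] <;> field_simp

/-- The antidiagonal matrix as a unit. -/
def gW : (Matrix (Fin 4) (Fin 4) F)ˣ where
  val := mW
  inv := mW
  val_inv := by
    ext i j
    fin_cases i <;> fin_cases j <;> simp [mW, Matrix.mul_apply, Fin.sum_univ_four]
  inv_val := by
    ext i j
    fin_cases i <;> fin_cases j <;> simp [mW, Matrix.mul_apply, Fin.sum_univ_four]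

end

end Pool.Agent.Helper8.SUZ
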