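import Pool.Agent.Helper8.SUZ.Defs

/-! Definitions for the counting part: expressions, polynomials in `E, G`, Hahn series with
exponents in `ℤ√2`. -/

set_option autoImplicit false

namespace Pool.Agent.Helper8.SUZ

open MvPolynomial

/-! ## The Artin-Schreier subgroup -/

/-- `z` is of the form `th e + e`. -/
def K0 {F : Type*} [Field F] [Tits F] (z : F) : Prop := ∃ e : F, th e + e = z

/-! ## Expressions -/

/-- Expressions in one variable built with the field operations and the endomorphism. -/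
inductive Ex : Type
  | var | zero | one
  | add (a b : Ex) | mul (a b : Ex) | inv (a : Ex) | th (a : Ex)

/-- Value of an expression. -/
def ev {K : Type*} [Field K] (t : K → K) (x : K) : Ex → K
  | .var => x
  | .zero => 0
  | .one => 1
  | .add a b => ev t x a + ev t x b
  | .mul a b => ev t x a * ev t x b
  | .inv a => (ev t x a)⁻¹
  | .th a => t (ev t x a)

/-- `N(a) = a ^ 2 + a + 1`. -/
def nE (a : Ex) : Ex := .add (.add (.mul a a) a) .one

/-- The sequences `(a_n, d_n, d_(n-1))`. -/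
def sE : ℕ → Ex × Ex × Ex
  | 0 => (.var, .inv .var, .zero)
  | n + 1 =>
    let a := (sE n).1
    let d := (sE n).2.1
    let e := (sE n).2.2
    let a' : Ex := .add (.add (.th a) e) (.mul (.add a (.th a)) d)
    (a', .mul (.add (.add (.add (.mul (.add (.add (.mul a a) (.th a)) .one) (.mul d d))
      (.mul (.add a (.th a)) d)) (.mul e e)) e) (.inv (nE a')), d)

/-- `a_n`. -/
def aE (n : ℕ) : Ex := (sE n).1

/-- `d_n`. -/
def dE (n : ℕ) : Ex := (sE n).2.1

/-- `d_(n-1)`. -/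
def eE (n : ℕ) : Ex := (sE n).2.2

/-- `F_n = th (N (a_n)) / d_n ^ 2`. -/
def fE (n : ℕ) : Ex := .mul (.th (nE (aE n))) (.inv (.mul (dE n) (dE n)))

/-- The equivalent functions: `f_0 = x` and
`f_(n+1) = (th a_(n+1) + 1 + a_n) / d_(n+1) + (a_(n+1) + th a_n) / th d_(n+1)`. -/
def gE : ℕ → Ex
  | 0 => .var
  | n + 1 => .add (.mul (.add (.add (.th (aE (n + 1))) .one) (aE n)) (.inv (dE (n + 1))))
      (.mul (.add (aE (n + 1)) (.th (aE n))) (.inv (.th (dE (n + 1)))))

section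
variable {K : Type*} [Field K] (t : K → K) (x : K)

theorem ev_a_zero : ev t x (aE 0) = x := rfl
theorem ev_d_zero : ev t x (dE 0) = x⁻¹ := rfl
theorem ev_e_zero : ev t x (eE 0) = 0 := rfl
theorem ev_e_succ (n : ℕ) : ev t x (eE (n + 1)) = ev t x (dE n) := rfl
theorem ev_a_succ (n : ℕ) : ev t x (aE (n + 1)) = t (ev t x (aE n)) + ev t x (eE n) +
    (ev t x (aE n) + t (ev t x (aE n))) * ev t x (dE n) := rfl
theorem ev_d_succ (n : ℕ) : ev t x (dE (n + 1)) =
    ((ev t x (aE n) ^ 2 + t (ev t x (aE n)) + 1) * ev t x (dE n) ^ 2 +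
      (ev t x (aE n) + t (ev t x (aE n))) * ev t x (dE n) + ev t x (eE n) ^ 2 +
      ev t x (eE n)) * (ev t x (aE (n + 1)) ^ 2 + ev t x (aE (n + 1)) + 1)⁻¹ := by
  simp only [sq]; rfl
theorem ev_f (n : ℕ) : ev t x (fE n) =
    t (ev t x (aE n) ^ 2 + ev t x (aE n) + 1) * (ev t x (dE n) ^ 2)⁻¹ := by
  simp only [sq]; rfl
theorem ev_g_zero : ev t x (gE 0) = x := rfl
theorem ev_g_succ (n : ℕ) : ev t x (gE (n + 1)) =
    (t (ev t x (aE (n + 1))) + 1 + ev t x (aE n)) * (ev t x (dE (n + 1)))⁻¹ +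
      (ev t x (aE (n + 1)) + t (ev t x (aE n))) * (t (ev t x (dE (n + 1))))⁻¹ := rfl
end

/-! ## Polynomials in two variables over the field with two elements -/

/-- `F_2[E, G]`. -/
abbrev A2 : Type := MvPolynomial (Fin 2) (ZMod 2)

/-- The endomorphism `E ↦ G ↦ E ^ 2`. -/
noncomputable def thA : A2 →ₐ[ZMod 2] A2 := aeval ![X 1, X 0 ^ 2]

/-- Evaluation at `E = x`, `G = th x`. -/
noncomputable def evA {F : Type*} [Field F] [Tits F] (x : F) : A2 →+* F :=
  eval₂Hom (ZMod.castHom (dvd_refl 2) F) ![x, th x]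

/-! ## Hahn series with exponents in `ℤ√2` -/

instance nonsq2 : Zsqrtd.Nonsquare 2 :=
  ⟨by intro n h; rcases Nat.lt_or_ge n 2 with h1 | h1 <;> [interval_cases n <;> omega; nlinarith]⟩

/-- The ordered ring `ℤ[√2]`. -/
abbrev Z2 : Type := ℤ√((2 : ℕ) : ℤ)

/-- `√2`. -/
def tau : Z2 := ⟨0, 1⟩

theorem tau_gt : (1 : Z2) < tau := by decide
theorem tau_lt : tau < (2 : Z2) := by decide
theorem tau_mul : tau * tau = (2 : Z2) := by decide
theorem tau_pos : (0 : Z2) < tau := by decide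

theorem tau_mul_le (g h : Z2) : tau * g ≤ tau * h ↔ g ≤ h := mul_le_mul_iff_right₀ tau_pos

theorem tau_mul_inj : Function.Injective (AddMonoidHom.mulLeft tau) := by
  intro g h hh
  exact le_antisymm ((tau_mul_le g h).1 hh.le) ((tau_mul_le h g).1 hh.ge)

/-- The field of Hahn series. -/
abbrev HF : Type := HahnSeries Z2 (ZMod 2)

/-- The endomorphism of `HF` multiplying all exponents by `√2`. -/
noncomputable def thH : HF →+* HF :=
  HahnSeries.embDomainRingHom (AddMonoidHom.mulLeft tau) tau_mul_inj tau_mul_le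

/-- The element `E`, of order `-1`. -/
noncomputable def elE : HF := HahnSeries.single (-1) 1

/-- The element `G = thH E`, of order `-√2`. -/
noncomputable def elG : HF := HahnSeries.single (-tau) 1

/-- The embedding of the polynomials. -/
noncomputable def iot : A2 →ₐ[ZMod 2] HF := aeval ![elE, elG]

/-- The (nonzero) series `x` has order `g`. -/
def HasOrd (x : HF) (g : Z2) : Prop := x.orderTop = (g : WithTop Z2)

/-! ## The double cover `y ^ 2 = V y + U` -/

/-- `V = Q th(Q)`. -/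
noncomputable def Vp (Q : A2) : A2 := Q * thA Q

/-- `U = V (P th(Q) + Q th(P))`. -/
noncomputable def Up (P Q : A2) : A2 := Vp Q * (P * thA Q + Q * thA P)

/-- The algebra `F_2[E, G][ω]`, `ω ^ 2 = U + V ω`. -/
abbrev QA (P Q : A2) : Type := QuadraticAlgebra A2 (Up P Q) (Vp Q)

/-- The index set of the unknowns: `(i, j, a, b, η, ε)`. -/
abbrev Ix (I J A B : ℕ) : Type := Fin I × Fin J × Fin A × Fin B × Fin 2 × Fin 2

section
variable {I J A B : ℕ}

/-- The monomial `(E ^ i G ^ j ω ^ η) ^ p E ^ a G ^ b ω ^ ε`. -/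
noncomputable def mon (P Q : A2) (p : ℕ) (c : Ix I J A B) : QA P Q :=
  (QuadraticAlgebra.C (X 0 ^ (c.1 : ℕ) * X 1 ^ (c.2.1 : ℕ)) *
    (QuadraticAlgebra.omega : QA P Q) ^ (c.2.2.2.2.1 : ℕ)) ^ p *
  (QuadraticAlgebra.C (X 0 ^ (c.2.2.1 : ℕ) * X 1 ^ (c.2.2.2.1 : ℕ)) *
    (QuadraticAlgebra.omega : QA P Q) ^ (c.2.2.2.2.2 : ℕ))

/-- `Φ = Φ0 + Φ1 ω`, where `y ^ (t Λ) = Φ0 + Φ1 y` at the points of the double cover,
`Λ = 2 ^ L`. -/
noncomputable def Phi (P Q : A2) (L : ℕ) : QA P Q :=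
  ⟨∑ l ∈ Finset.range L,
      (thA Q ^ (2 ^ L) * Q ^ (2 * 2 ^ L - 2 ^ l) * P ^ (2 ^ l) +
        thA Q ^ (2 ^ L - 2 ^ l) * Q ^ (2 * 2 ^ L) * thA P ^ (2 ^ l)) +
      thA Q ^ (2 ^ L) * Q ^ (2 ^ L) * P ^ (2 ^ L),
    thA Q ^ (2 ^ L - 1) * Q ^ (2 * 2 ^ L - 1)⟩

/-- The equation attached to a monomial:
`E ^ (i + 2 Λ b) G ^ (j + Λ a) ω ^ η Φ ^ ε`, `Λ = 2 ^ L`. -/
noncomputable def eqn (P Q : A2) (L : ℕ) (c : Ix I J A B) : QA P Q :=
  QuadraticAlgebra.C (X 0 ^ ((c.1 : ℕ) + 2 * 2 ^ L * (c.2.2.2.1 : ℕ)) *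
    X 1 ^ ((c.2.1 : ℕ) + 2 ^ L * (c.2.2.1 : ℕ))) *
  (QuadraticAlgebra.omega : QA P Q) ^ (c.2.2.2.2.1 : ℕ) *
  Phi P Q L ^ (c.2.2.2.2.2 : ℕ)

end

section
variable {F : Type*} [Field F] [Tits F]

/-- Evaluation at a point of the double cover. -/
noncomputable def evQ (P Q : A2) (x y : F) (h : y * y = evA x (Up P Q) + evA x (Vp Q) * y) :
    QA P Q →+* F where
  toFun f := evA x f.re + evA x f.im * y
  map_zero' := by simp
  map_one' := by simp [QuadraticAlgebra.re_one, QuadraticAlgebra.im_one]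
  map_add' f g := by simp only [QuadraticAlgebra.re_add, QuadraticAlgebra.im_add, map_add]; ring
  map_mul' f g := by
    simp only [QuadraticAlgebra.re_mul, QuadraticAlgebra.im_mul, map_add, map_mul]
    linear_combination (-(evA x f.im * evA x g.im)) * h

theorem evQ_apply (P Q : A2) (x y : F) (h) (f : QA P Q) :
    evQ P Q x y h f = evA x f.re + evA x f.im * y := rfl

end

/-- `1 + √2 + ... + √2 ^ n`. -/
def sg : ℕ → Z2
  | 0 => 1
  | n + 1 => sg n + tau ^ (n + 1)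

end Pool.Agent.Helper8.SUZ
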