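import Pool.Agent.Helper8.SUZ.Val

set_option autoImplicit false

namespace Pool.Agent.Helper8.SUZ

open MvPolynomial

theorem valT_tau_re (n : ℕ) : Even (tau ^ (n + 1)).re := by
  rw [pow_succ']
  simp [tau, Zsqrtd.re_mul]

theorem sg_odd (n : ℕ) : Odd (sg n).re := by
  induction n with
  | zero => exact ⟨0, by simp [sg]⟩
  | succ n ih =>
    have h : (sg (n + 1)).re = (sg n).re + (tau ^ (n + 1)).re := by
      simp only [sg, Zsqrtd.re_add]
    rw [h]
    exact ih.add_even (valT_tau_re n)

theorem sg_mono : StrictMono sg := by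
  refine strictMono_nat_of_lt_succ fun n => ?_
  have h : (0 : Z2) < tau ^ (n + 1) := pow_pos tau_pos _
  simp only [sg]
  linarith

/-- minus the order of `gE j`. -/
def valTs (j : ℕ) : Z2 := if j = 0 then sg 0 else sg (j + 1)

theorem valTs_ord (j : ℕ) : HasOrd (ev thH elE (gE j)) (-valTs j) := by
  cases j with
  | zero => simpa [valTs] using hasOrd_g_zero
  | succ n => simpa [valTs] using hasOrd_g_succ n

theorem valTs_mono {i j : ℕ} (h : i < j) : valTs i < valTs j := by
  unfold valTs
  rw [if_neg (by omega : ¬ j = 0)]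
  split_ifs with hi
  · exact sg_mono (by omega)
  · exact sg_mono (by omega)

theorem valTs_pos (j : ℕ) : 0 < valTs j := by
  have h0 : (0 : Z2) < sg 0 := by simp only [sg]; exact zero_lt_one
  unfold valTs
  split_ifs with hi
  · exact h0
  · exact h0.trans (sg_mono (by omega))

theorem valTs_odd (j : ℕ) : Odd (valTs j).re := by
  unfold valTs
  split_ifs <;> exact sg_odd _

theorem valT_sum (T : Finset ℕ) : ∀ m, (∀ x ∈ T, x < m) →
    ((-valTs m : Z2) : WithTop Z2) < (∑ j ∈ T, ev thH elE (gE j)).orderTop := by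
  induction T using Finset.induction_on_max with
  | empty =>
    intro m _
    rw [Finset.sum_empty, HahnSeries.orderTop_zero]
    exact WithTop.coe_lt_top _
  | insert a s hs ih =>
    intro m hm
    have ha : a ∉ s := fun h => lt_irrefl _ (hs a h)
    rw [Finset.sum_insert ha]
    have h1 : HasOrd (ev thH elE (gE a) + ∑ j ∈ s, ev thH elE (gE j)) (-valTs a) :=
      (valTs_ord a).add (ih a hs)
    unfold HasOrd at h1
    rw [h1, WithTop.coe_lt_coe]
    have h2 := valTs_mono (hm a (Finset.mem_insert_self a s))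
    exact neg_lt_neg h2

theorem val_main (T : Finset ℕ) (hT : T.Nonempty) (δ : HF)
    (hδ : (0 : WithTop Z2) ≤ δ.orderTop) :
    ∃ g : Z2, 0 < g ∧ Odd g.re ∧ HasOrd (∑ j ∈ T, ev thH elE (gE j) + δ) (-g) := by
  set a := T.max' hT with ha
  refine ⟨valTs a, valTs_pos a, valTs_odd a, ?_⟩
  have hmem : a ∈ T := T.max'_mem hT
  have hlt : ∀ x ∈ T.erase a, x < a := fun x hx => by
    rw [Finset.mem_erase] at hx
    exact lt_of_le_of_ne (T.le_max' x hx.2) hx.1
  have h1 : HasOrd (∑ j ∈ T, ev thH elE (gE j)) (-valTs a) := by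
    rw [← Finset.add_sum_erase T _ hmem]
    exact (valTs_ord a).add (valT_sum _ a hlt)
  refine h1.add (lt_of_lt_of_le ?_ hδ)
  have h2 : (-valTs a : Z2) < 0 := neg_neg_of_pos (valTs_pos a)
  exact_mod_cast h2

end Pool.Agent.Helper8.SUZ
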