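import Pool.Agent.Helper8.SUZ.Bound
import Pool.Agent.Helper8.SUZ.Chars
import Pool.Agent.Helper8.SUZ.ValT

/-! Existence of a point outside of `K0` for finitely many functions. -/

set_option autoImplicit false

universe u

namespace Pool.Agent.Helper8.SUZ

/-- the functions `1/x, g_0, g_1, ...` -/
def hE : ℕ → Ex
  | 0 => .inv .var
  | j + 1 => gE j

theorem exists_sumE (T : Finset ℕ) : ∃ e : Ex, ev thH elE e = ∑ j ∈ T, ev thH elE (hE j) ∧
    ∀ (F : Type u) [Field F] (t : F → F) (x : F), ev t x e = ∑ j ∈ T, ev t x (hE j) := by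
  classical
  induction T using Finset.induction_on with
  | empty => exact ⟨.zero, by simp [ev], fun F _ t x => by simp [ev]⟩
  | insert a s ha ih =>
    obtain ⟨e, h1, h2⟩ := ih
    refine ⟨.add (hE a) e, ?_, fun F _ t x => ?_⟩
    · rw [Finset.sum_insert ha, ← h1]; rfl
    · rw [Finset.sum_insert ha, ← h2]; rfl

theorem split_sum {M : Type*} [AddCommMonoid M] (T : Finset ℕ) (f : ℕ → M) :
    ∑ j ∈ T, f j = ∑ j ∈ (T.erase 0).image Nat.pred, f (j + 1) + if 0 ∈ T then f 0 else 0 := by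
  have h1 : ∑ j ∈ (T.erase 0).image Nat.pred, f (j + 1) = ∑ j ∈ T.erase 0, f j := by
    rw [Finset.sum_image]
    · refine Finset.sum_congr rfl fun j hj => ?_
      have := Finset.ne_of_mem_erase hj
      congr 1
      exact Nat.succ_pred this
    · intro a ha b hb hab
      have h1 := Finset.ne_of_mem_erase ha
      have h2 := Finset.ne_of_mem_erase hb
      exact Nat.pred_inj (Nat.pos_of_ne_zero h1) (Nat.pos_of_ne_zero h2) hab
  rw [h1]
  by_cases h : 0 ∈ T
  · rw [if_pos h, Finset.sum_erase_add _ _ h]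
  · rw [if_neg h, add_zero, Finset.erase_eq_of_notMem h]

theorem ord_ge_zero {x : HF} {g : Z2} (h : HasOrd x g) (hg : 0 ≤ g) :
    (0 : WithTop Z2) ≤ x.orderTop := by
  rw [h]; exact_mod_cast hg

theorem hasOrd_Einv : HasOrd elE⁻¹ 1 := by
  have := hasOrd_E.inv
  rwa [neg_neg] at this

/-- the two-sided bound for one character sum -/
theorem one_sum (T : Finset ℕ) (hT : T.Nonempty) (k : ℕ) :
    ∃ n0 : ℕ, ∀ n ≥ n0, ∀ (F : Type u) [Field F] [Fintype F] [Tits F],
      Fintype.card F = 2 ^ (2 * n + 1) → (∀ x : F, th x = x ^ (2 ^ (n + 1))) →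
      2 ^ k * |2 * ({x : F | K0 (∑ j ∈ T, ev th x (hE j))}.ncard : ℤ) - Fintype.card F| ≤
        2 * Fintype.card F := by
  by_cases h0 : (T.erase 0).Nonempty
  · obtain ⟨e, he1, he2⟩ := exists_sumE.{u} T
    have hT1 : ((T.erase 0).image Nat.pred).Nonempty := h0.image _
    set δ : HF := if 0 ∈ T then elE⁻¹ else 0 with hδ
    have hδ0 : (0 : WithTop Z2) ≤ δ.orderTop := by
      rw [hδ]
      split_ifs
      · exact ord_ge_zero hasOrd_Einv (by decide)
      · simp
    have hδ1 : (0 : WithTop Z2) ≤ (δ + 1).orderTop :=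
      le_trans (le_min hδ0 (ord_ge_zero hasOrd_one le_rfl)) HahnSeries.min_orderTop_le_orderTop_add
    have hs : ev thH elE e = ∑ j ∈ (T.erase 0).image Nat.pred, ev thH elE (gE j) + δ := by
      rw [he1, split_sum]; rfl
    obtain ⟨g, hg, hodd, hord⟩ := val_main _ hT1 δ hδ0
    obtain ⟨g', hg', hodd', hord'⟩ := val_main _ hT1 (δ + 1) hδ1
    rw [← hs] at hord
    rw [← add_assoc, ← hs] at hord'
    obtain ⟨n1, h1⟩ := bound_ex.{u} e g hg hodd hord k
    obtain ⟨n2, h2⟩ := bound_ex.{u} (.add e .one) g' hg' hodd' hord' k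
    refine ⟨max n1 n2, fun n hn F _ _ _ hcard hth => ?_⟩
    have h3 := h1 n (le_trans (le_max_left _ _) hn) F hcard hth
    have h4 := h2 n (le_trans (le_max_right _ _) hn) F hcard hth
    have h5 : {x : F | K0 (ev th x (.add e .one))} = {x : F | K0 (ev th x e)}ᶜ := by
      ext x
      change K0 (ev th x e + 1) ↔ ¬ K0 (ev th x e)
      constructor
      · intro h h'
        have h6 := K0_add h h'
        have h7 : ev th x e + 1 + ev th x e = 1 := by
          linear_combination (ev th x e) * two_zero (F := F)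
        rw [h7] at h6
        exact not_K0_one h6
      · intro h
        exact K0_index h not_K0_one
    have h6 : ({x : F | K0 (ev th x e)}ᶜ).ncard + {x : F | K0 (ev th x e)}.ncard =
        Fintype.card F := by
      rw [add_comm, Set.ncard_add_ncard_compl, Nat.card_eq_fintype_card]
    rw [h5] at h4
    have h7 : {x : F | K0 (∑ j ∈ T, ev th x (hE j))} = {x : F | K0 (ev th x e)} := by
      ext x
      change K0 _ ↔ K0 _
      rw [he2 F th x]
    rw [h7]
    zify at h3 h4 h6
    set c : ℤ := ({x : F | K0 (ev th x e)}.ncard : ℤ)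
    set c' : ℤ := (({x : F | K0 (ev th x e)}ᶜ).ncard : ℤ)
    set q : ℤ := (Fintype.card F : ℤ)
    have hp : (0 : ℤ) < 2 ^ k := by positivity
    rw [← abs_of_pos hp, ← abs_mul, abs_le]
    constructor
    · have : c' = q - c := by linarith
      rw [this] at h4
      nlinarith
    · nlinarith
  · refine ⟨0, fun n _ F _ _ _ _ _ => ?_⟩
    have h1 : T = {0} := by
      rw [Finset.not_nonempty_iff_eq_empty] at h0
      rcases Finset.erase_eq_empty_iff _ _ |>.1 h0 with h | h
      · exact absurd hT (by simp [h])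
      · exact h
    have h2 : {x : F | K0 (∑ j ∈ T, ev th x (hE j))} = (fun x => x⁻¹) '' {x : F | K0 x} := by
      ext x
      rw [h1]
      simp only [Finset.sum_singleton, Set.mem_ofPred_eq, Set.mem_image]
      constructor
      · intro h
        exact ⟨x⁻¹, h, inv_inv x⟩
      · rintro ⟨y, hy, rfl⟩
        change K0 (y⁻¹)⁻¹
        rwa [inv_inv]
    rw [h2, Set.ncard_image_of_injective _ inv_injective]
    have h3 := K0_card (F := F)
    zify at h3
    rw [h3, sub_self, abs_zero, mul_zero]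
    positivity

theorem exists_pt (m : ℕ) :
    ∃ n0 : ℕ, ∀ n ≥ n0, ∀ (F : Type u) [Field F] [Fintype F] [Tits F],
      Fintype.card F = 2 ^ (2 * n + 1) → (∀ x : F, th x = x ^ (2 ^ (n + 1))) →
      ∃ v : F, v ≠ 1 ∧ ¬ K0 v⁻¹ ∧ ∀ j < m, ¬ K0 (ev th v (gE j)) := by
  classical
  choose n0 hn0 using fun T : {T : Finset ℕ // T.Nonempty} => one_sum.{u} T.1 T.2 (m + 4)
  set emb : Fin (m + 1) ↪ ℕ := Fin.valEmbedding with hemb
  refine ⟨max (m + 2) (Finset.univ.sup fun T : Finset (Fin (m + 1)) =>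
    if h : (T.map emb).Nonempty then n0 ⟨T.map emb, h⟩ else 0), fun n hn F _ _ _ hcard hth => ?_⟩
  have hq : (2 : ℤ) ^ (m + 4) ≤ Fintype.card F := by
    rw [hcard]
    push_cast
    exact pow_le_pow_right₀ (by norm_num) (by have := le_trans (le_max_left _ _) hn; omega)
  have hkey := chars (F := F) (ι := Fin (m + 1)) (fun j x => ev th x (hE j))
    ((Fintype.card F : ℤ) / 2 ^ (m + 3)) (by positivity) (fun T hT => by
      have hT' : (T.map emb).Nonempty := hT.map
      have h1 : n0 ⟨T.map emb, hT'⟩ ≤ n := by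
        have h2 := Finset.le_sup (f := fun T : Finset (Fin (m + 1)) =>
          if h : (T.map emb).Nonempty then n0 ⟨T.map emb, h⟩ else 0) (Finset.mem_univ T)
        simp only [dif_pos hT'] at h2
        exact h2.trans (le_trans (le_max_right _ _) hn)
      have h2 := hn0 ⟨T.map emb, hT'⟩ n h1 F hcard hth
      simp only [Finset.sum_map] at h2
      rw [Int.le_ediv_iff_mul_le (by positivity)]
      have h3 : (2 : ℤ) ^ (m + 4) = 2 * 2 ^ (m + 3) := by rw [← pow_succ']
      rw [h3] at h2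
      have h4 : ∀ x : F, (∑ j ∈ T, ev th x (hE (emb j))) = ∑ j ∈ T, ev th x (hE (j : ℕ)) :=
        fun x => rfl
      simp only [h4] at h2
      nlinarith [h2])
  rw [Fintype.card_fin] at hkey
  have h1 : (2 : ℤ) ^ (m + 3) * ((Fintype.card F : ℤ) / 2 ^ (m + 3)) ≤ Fintype.card F :=
    Int.mul_ediv_self_le (by positivity)
  have h2 : (2 : ℤ) ^ (m + 3) = 4 * 2 ^ (m + 1) := by rw [pow_add, pow_add]; ring
  have h5 : (2 : ℤ) ^ (m + 4) = 8 * 2 ^ (m + 1) := by rw [pow_add, pow_add]; ring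
  have h3 : 1 < {x : F | ∀ j : Fin (m + 1), ¬ K0 (ev th x (hE j))}.ncard := by
    by_contra hlt
    push Not at hlt
    have h4 : ({x : F | ∀ j : Fin (m + 1), ¬ K0 (ev th x (hE j))}.ncard : ℤ) ≤ 1 := by
      exact_mod_cast hlt
    have h6 : (0 : ℤ) < 2 ^ (m + 1) := by positivity
    generalize (Fintype.card F : ℤ) / 2 ^ (m + 3) = D at h1 hkey
    rw [h2] at h1
    rw [h5] at hq
    have h7 : (2 : ℤ) ^ (m + 1) *
        ({x : F | ∀ j : Fin (m + 1), ¬ K0 (ev th x (hE j))}.ncard : ℤ) ≤ 2 ^ (m + 1) := by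
      nlinarith
    nlinarith
  obtain ⟨v, hv, hv1⟩ := Set.exists_ne_of_one_lt_ncard h3 1
  refine ⟨v, hv1, hv 0, fun j hj => ?_⟩
  exact hv ⟨j + 1, by omega⟩

end Pool.Agent.Helper8.SUZ
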