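import Pool.Agent.Helper8.SUZ.K0

set_option autoImplicit false

namespace Pool.Agent.Helper8.SUZ

open MvPolynomial

variable {F : Type*} [Field F] [Tits F]

/-- the difference lies in `K0` -/
theorem feq_of_diff {x y : F} (h : K0 (x + y)) : K0 x ↔ K0 y := by
  have h2 : ∀ z : F, z + z = 0 := fun z => by linear_combination z * two_zero (F := F)
  constructor
  · intro hx
    have := K0_add h hx
    rwa [show x + y + x = y by linear_combination h2 x] at this
  · intro hy
    have := K0_add h hy
    rwa [show x + y + y = x by linear_combination h2 y] at this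

/-- `x` and `th x` are equivalent -/
theorem feq_th (x : F) : K0 (x + th x) := ⟨x, by ring⟩

/-- `x ^ 2` and `x` are equivalent -/
theorem feq_sq (x : F) : K0 (x ^ 2 + x) := by
  rw [← th_th x]
  have := K0_add (feq_th (th x)) (feq_th x)
  rwa [show th x + th (th x) + (x + th x) = th (th x) + x by
    linear_combination th x * two_zero (F := F)] at this

/-- `F_n` is equivalent to `(th a + 1) δ + a th δ`. -/
theorem feq_main (a δ : F) : K0 ((th (a ^ 2 + a + 1) * δ ^ 2) + ((th a + 1) * δ + a * th δ)) := by
  have h1 := feq_sq (th a * δ)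
  have h2 := feq_sq δ
  have h3 := feq_th (a * th δ)
  have h4 := K0_add (K0_add h1 h2) h3
  have e : (th a * δ) ^ 2 + th a * δ + (δ ^ 2 + δ) + (a * th δ + th (a * th δ)) =
      (th (a ^ 2 + a + 1) * δ ^ 2) + ((th a + 1) * δ + a * th δ) := by
    rw [map_mul, th_th, map_add, map_add, map_pow, map_one]
    ring
  rwa [e] at h4

/-- `f_n` and `g_n` are equivalent modulo `K0`. -/
theorem f_iff_g (n : ℕ) (x : F) : K0 (ev th x (fE n)) ↔ K0 (ev th x (gE n)) := by
  apply feq_of_diff
  rw [ev_f, ← inv_pow]
  have h := feq_main (ev th x (aE n)) (ev th x (dE n))⁻¹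
  cases n with
  | zero =>
    rw [ev_a_zero, ev_d_zero] at h
    rw [ev_a_zero, ev_d_zero, ev_g_zero]
    rw [inv_inv] at h ⊢
    have e : (th x + 1) * x + x * th x = x := by
      linear_combination (x * th x) * two_zero (F := F)
    rwa [e] at h
  | succ n =>
    rw [ev_g_succ]
    have h5 := feq_th (ev th x (aE n) * (ev th x (dE (n + 1)))⁻¹)
    have h6 := K0_add h h5
    rw [← map_inv₀]
    rw [map_mul] at h6
    have e : ∀ p q a' ta' δ tδ : F,
        p + ((q + 1) * δ + ev th x (aE (n + 1)) * tδ) + (a' * δ + ta' * tδ) =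
        p + ((q + 1 + a') * δ + (ev th x (aE (n + 1)) + ta') * tδ) := by
      intro p q a' ta' δ tδ
      ring
    rwa [e] at h6

end Pool.Agent.Helper8.SUZ
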