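import Pool.Agent.Helper8.SUZ.GMain
import Pool.Agent.Helper8.SUZ.Expt
import Pool.Agent.Helper96.Eng.Grp

/-! The law fails in all large Suzuki groups, and in all groups with such a section. -/

set_option autoImplicit false

universe u

namespace Pool.Agent.Helper8.SUZ

open Pool.Agent.Helper96.Eng

theorem exists_tits (F : Type u) [Field F] [Fintype F] (n : ℕ)
    (hcard : Fintype.card F = 2 ^ (2 * n + 1)) :
    ∃ T : Tits F, ∀ x : F, T.th x = x ^ (2 ^ (n + 1)) := by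
  have h2 : (2 : F) = 0 := by
    have h := FiniteField.cast_card_eq_zero F
    rw [hcard] at h
    push_cast at h
    exact (pow_eq_zero_iff (Nat.succ_ne_zero _)).1 h
  have hchar : CharP F 2 := CharTwo.of_one_ne_zero_of_two_eq_zero one_ne_zero h2
  refine ⟨⟨iterateFrobenius F 2 (n + 1), fun x => ?_⟩, fun x => iterateFrobenius_def 2 _ x⟩
  rw [iterateFrobenius_def, iterateFrobenius_def, ← pow_mul]
  have e : 2 ^ (n + 1) * 2 ^ (n + 1) = Fintype.card F * 2 := by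
    rw [hcard, ← pow_add, ← pow_succ]; congr 1; ring
  rw [e, pow_mul, FiniteField.pow_card]

theorem sz_main (r : ℕ) : ∃ Q : ℕ, ∀ (F : Type u) [Field F] [Fintype F] (n : ℕ),
    Fintype.card F = 2 ^ (2 * n + 1) → Q < Fintype.card F →
    ∃ x y : Sz (fun z : F => z ^ (2 ^ (n + 1))), ∀ s, r < s →
      (cm y)^[r] x ≠ (cm y)^[s] x := by
  obtain ⟨n0, h0⟩ := exists_pt.{u} (r + 1)
  refine ⟨2 ^ (2 * n0 + 1), fun F _ _ n hcard hlt => ?_⟩
  have hn : n0 ≤ n := by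
    rw [hcard] at hlt
    have := (Nat.pow_lt_pow_iff_right (by norm_num)).1 hlt
    omega
  obtain ⟨T, hT⟩ := exists_tits F n hcard
  obtain ⟨v, hv1, hv, hf⟩ := h0 n hn F hcard hT
  obtain ⟨x0, hx0, H⟩ := group_main r v hv1 hv (fun j hj => hf j (by omega))
  have hS : Sz (th : F →+* F) = Sz (fun z : F => z ^ (2 ^ (n + 1))) := by
    congr 1
    funext z
    exact hT z
  rw [hS] at hx0
  have hy : (gS 1 0 : GG F)⁻¹ ∈ Sz (fun z : F => z ^ (2 ^ (n + 1))) := by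
    rw [← hS]; exact inv_mem (gS_mem _ _)
  refine ⟨⟨x0, hx0⟩, ⟨_, hy⟩, fun s hs h => H s hs ?_⟩
  have e : ∀ m, phi^[m] x0 = (((cm (⟨_, hy⟩ : Sz (fun z : F => z ^ (2 ^ (n + 1)))))^[m]
      ⟨x0, hx0⟩ : Sz (fun z : F => z ^ (2 ^ (n + 1)))) : GG F) := by
    intro m
    have h1 := cm_iter_map (Sz (fun z : F => z ^ (2 ^ (n + 1)))).subtype m ⟨x0, hx0⟩ ⟨_, hy⟩
    rw [Subgroup.subtype_apply] at h1
    rw [h1]
    have h2 : phi = cm ((gS 1 0 : GG F)⁻¹) := by
      funext z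
      rw [phi, cm, inv_inv]
    rw [h2]
    rfl
  rw [e, e, h]

theorem transfer2 {Γ : Type*} [Group Γ] (r s : ℕ) (x y : Γ)
    (hxy : (cm y)^[r] x ≠ (cm y)^[s] x)
    (G : Type*) [Group G] (hG : ∀ x y : G, (cm y)^[r] x = (cm y)^[s] x)
    (H : Subgroup G) (π : H →* Γ) (hπ : Function.Surjective π) : False := by
  obtain ⟨x', rfl⟩ := hπ x
  obtain ⟨y', rfl⟩ := hπ y
  apply hxy
  rw [← cm_iter_map, ← cm_iter_map]
  congr 1
  apply Subtype.ext
  have e : ∀ n, (((cm y')^[n] x' : H) : G) = (cm (y' : G))^[n] (x' : G) :=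
    fun n => cm_iter_map H.subtype n x' y'
  rw [e, e]
  exact hG _ _

end Pool.Agent.Helper8.SUZ
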