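import Pool.Agent.Helper8.SUZ.Rel
import Pool.Agent.Helper8.SUZ.K0

set_option autoImplicit false

namespace Pool.Agent.Helper8.SUZ

open MvPolynomial

variable {F : Type*} [Field F] [Tits F]

theorem fS_ne {a b : F} (h : a ≠ 0 ∨ b ≠ 0) : fS a b ≠ 0 := by
  by_cases ha : a = 0
  · subst ha
    have hb : b ≠ 0 := by
      rcases h with h | h
      · exact absurd rfl h
      · exact h
    unfold fS
    rw [map_zero]
    simpa using th_ne hb
  · have hta : th a ≠ 0 := th_ne ha
    intro h0
    set τ : F := b / (th a * a) with hτ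
    have hb : b = th a * a * τ := by rw [hτ]; field_simp
    have h1 : th a * a ^ 2 * (1 + τ + th τ) = 0 := by
      unfold fS at h0
      rw [hb, map_mul, map_mul, th_th] at h0
      linear_combination h0
    rcases mul_eq_zero.1 h1 with h2 | h2
    · exact (mul_ne_zero hta (pow_ne_zero 2 ha)) h2
    · apply not_K0_one (F := F)
      refine ⟨τ, ?_⟩
      linear_combination h2 - two_zero (F := F)

/-- the two normal forms -/
def Good (g : GG F) : Prop :=
  (∃ a b m, g = gS a b * gM m) ∨ ∃ a b m c d, g = big a b m c d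

theorem form_MS (c d : F) (m : Fˣ) : gM m * gS c d =
    gS (c / th (m : F)) (d / (th (m : F) * (m : F) ^ 2)) * gM m := by
  have hm : (m : F) ≠ 0 := m.ne_zero
  have hm2 : th (m : F) ≠ 0 := th_ne hm
  rw [gS_gM]
  congr 2 <;> field_simp

theorem form_S {g : GG F} (h : Good g) (c d : F) : Good (g * gS c d) := by
  rcases h with ⟨a, b, m, rfl⟩ | ⟨a, b, m, x, y, rfl⟩
  · left
    rw [mul_assoc, form_MS, ← mul_assoc, gS_mul]
    exact ⟨_, _, _, rfl⟩
  · right
    unfold big
    rw [mul_assoc, gS_mul]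
    exact ⟨_, _, _, _, _, rfl⟩

theorem form_M {g : GG F} (h : Good g) (k : Fˣ) : Good (g * gM k) := by
  rcases h with ⟨a, b, m, rfl⟩ | ⟨a, b, m, x, y, rfl⟩
  · left
    rw [mul_assoc, gM_mul]
    exact ⟨_, _, _, rfl⟩
  · right
    unfold big
    rw [mul_assoc, gS_gM x y, ← mul_assoc, mul_assoc (gS a b * gM m) gW (gM k), gW_gM,
      ← mul_assoc (gS a b * gM m), mul_assoc (gS a b), gM_mul]
    exact ⟨_, _, _, _, _, rfl⟩

theorem form_W {g : GG F} (h : Good g) : Good (g * gW) := by
  rcases h with ⟨a, b, m, rfl⟩ | ⟨a, b, m, x, y, rfl⟩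
  · right
    refine ⟨a, b, m, 0, 0, ?_⟩
    unfold big
    rw [gS_zero, mul_one]
  · by_cases h0 : x = 0 ∧ y = 0
    · left
      refine ⟨a, b, m, ?_⟩
      unfold big
      rw [h0.1, h0.2, gS_zero, mul_one, mul_assoc, gW_sq, mul_one]
    · right
      have hf : fS x y ≠ 0 := fS_ne (by tauto)
      have hm : th (fS x y) / fS x y ≠ 0 := div_ne_zero (th_ne hf) hf
      have hb := bruhat x y (Units.mk0 _ hf) rfl (Units.mk0 _ hm) rfl
      unfold big
      rw [mul_assoc (gS a b * gM m) gW, mul_assoc (gS a b * gM m), hb]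
      simp only [Units.val_mk0]
      have e : ∀ (p q r s t : GG F) (a' b' x' y' : F) (m1 : Fˣ), p = gS a' b' → q = gM m1 →
          p * q * (gS x' y' * r * s * t) = gS a' b' * (gM m1 * gS x' y') * r * s * t := by
        intro p q r s t a' b' x' y' m1 hp hq
        subst hp hq
        group
      rw [e _ _ _ _ _ a b _ _ m rfl rfl, form_MS, ← mul_assoc (gS a b), gS_mul,
        mul_assoc (gS _ _) (gM m), gM_mul]
      exact ⟨_, _, _, _, _, rfl⟩

theorem sz_form (g : GG F) (hg : g ∈ Sz (th : F →+* F)) :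
    (∃ a b m, g = gS a b * gM m) ∨ ∃ a b m c d, g = big a b m c d := by
  change Good g
  unfold Sz at hg
  induction hg using Subgroup.closure_induction_right with
  | one => exact Or.inl ⟨0, 0, 1, by rw [gS_zero, gM_one, mul_one]⟩
  | mul_right x hx y hy ih =>
    rcases hy with ⟨a, b, h⟩ | ⟨m, hm, h⟩ | h
    · rw [show y = gS a b from Units.ext h]
      exact form_S ih a b
    · rw [show y = gM (Units.mk0 m hm) from Units.ext h]
      exact form_M ih _
    · rw [show y = gW from Units.ext h]
      exact form_W ih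
  | mul_inv_cancel x hx y hy ih =>
    rcases hy with ⟨a, b, h⟩ | ⟨m, hm, h⟩ | h
    · rw [show y = gS a b from Units.ext h, gS_inv]
      exact form_S ih _ _
    · rw [show y = gM (Units.mk0 m hm) from Units.ext h, gM_inv]
      exact form_M ih _
    · rw [show y = gW from Units.ext h, show (gW : GG F)⁻¹ = gW from
        inv_eq_of_mul_eq_one_right gW_sq]
      exact form_W ih

end Pool.Agent.Helper8.SUZ
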