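import Pool.Agent.Helper8.SUZ.Phi

set_option autoImplicit false

namespace Pool.Agent.Helper8.SUZ

open MvPolynomial

variable {F : Type*} [Field F] [Tits F]

private theorem th_surj [Fintype F] (y : F) : ∃ x : F, th x = y :=
  (Finite.injective_iff_surjective.1 (th : F →+* F).injective) y

/-- first half of a step: from the state `n` of the first kind to the second kind -/
private theorem step1 (a e d : F) (b : F) (m : Fˣ) (d' : F)
    (hm : th (m : F) * nN a * (1 + d) = 1) :
    ∃ (b₁ : F) (m₁ : Fˣ) (d₁ : F), phi (big a b m (a + e) d') =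
      big (th a + e + (a + th a) * d) b₁ m₁ ((th a + e + (a + th a) * d) + d) d₁ ∧
        th (m₁ : F) * ((1 + d) ^ 2 * th (nN a)) = 1 := by
  obtain ⟨b', m', d'', h1, h2⟩ := phi_big a b m (a + e) d' (1 + d)
    (by linear_combination hm)
  refine ⟨b', m', d'', ?_, h2⟩
  rw [h1]
  congr 1
  · linear_combination a * two_zero (F := F)
  · linear_combination (a + 1) * two_zero (F := F)

theorem seq [Fintype F] (v : F) (hv0 : v ≠ 0) (hv1 : v ≠ 1) : ∃ m0 : Fˣ,
    th (m0 : F) * nN v * (1 + v⁻¹) = 1 ∧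
    ∀ n : ℕ, (∃ (b : F) (m : Fˣ) (d : F), phi^[n] (big v 0 m0 v 0) =
        big (ev th v (aE n)) b m (ev th v (aE n) + ev th v (eE n)) d ∧
        th (m : F) * nN (ev th v (aE n)) * (1 + ev th v (dE n)) = 1) ∧
      (∃ (b : F) (m : Fˣ) (d : F), phi^[n + 1] (big v 0 m0 v 0) =
        big (ev th v (aE (n + 1))) b m (ev th v (aE (n + 1)) + ev th v (dE n)) d ∧
        th (m : F) * ((1 + ev th v (dE n)) ^ 2 * th (nN (ev th v (aE n)))) = 1) := by
  have hN : nN v ≠ 0 := nN_ne' v
  have h1v : (1 : F) + v⁻¹ ≠ 0 := by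
    intro h
    apply hv1
    have : v + 1 = 0 := by
      have := congrArg (v * ·) h
      simp only [mul_add, mul_one, mul_inv_cancel₀ hv0, mul_zero] at this
      exact this
    linear_combination this - two_zero (F := F)
  obtain ⟨μ, hμ⟩ := th_surj (F := F) ((nN v * (1 + v⁻¹))⁻¹)
  have hμ0 : μ ≠ 0 := by
    rintro rfl
    rw [map_zero] at hμ
    exact inv_ne_zero (mul_ne_zero hN h1v) hμ.symm
  have h0 : th ((Units.mk0 μ hμ0 : Fˣ) : F) * nN v * (1 + v⁻¹) = 1 := by
    rw [Units.val_mk0, hμ, mul_assoc, inv_mul_cancel₀ (mul_ne_zero hN h1v)]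
  refine ⟨Units.mk0 μ hμ0, h0, ?_⟩
  generalize Units.mk0 μ hμ0 = m0 at h0 ⊢
  have second : ∀ n, (∃ (b : F) (m : Fˣ) (d : F), phi^[n] (big v 0 m0 v 0) =
        big (ev th v (aE n)) b m (ev th v (aE n) + ev th v (eE n)) d ∧
        th (m : F) * nN (ev th v (aE n)) * (1 + ev th v (dE n)) = 1) →
      (∃ (b : F) (m : Fˣ) (d : F), phi^[n + 1] (big v 0 m0 v 0) =
        big (ev th v (aE (n + 1))) b m (ev th v (aE (n + 1)) + ev th v (dE n)) d ∧
        th (m : F) * ((1 + ev th v (dE n)) ^ 2 * th (nN (ev th v (aE n)))) = 1) := by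
    rintro n ⟨b, m, d, h1, h2⟩
    rw [Function.iterate_succ_apply', h1, ev_a_succ]
    exact step1 _ _ _ _ _ _ h2
  intro n
  induction n with
  | zero =>
    have first : (∃ (b : F) (m : Fˣ) (d : F), phi^[0] (big v 0 m0 v 0) =
        big (ev th v (aE 0)) b m (ev th v (aE 0) + ev th v (eE 0)) d ∧
        th (m : F) * nN (ev th v (aE 0)) * (1 + ev th v (dE 0)) = 1) := by
      refine ⟨0, m0, 0, ?_, h0⟩
      rw [ev_a_zero, ev_e_zero, add_zero]
      rfl
    exact ⟨first, second 0 first⟩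
  | succ n ih =>
    obtain ⟨b, m, d, h1, h2⟩ := ih.2
    have first : (∃ (b : F) (m : Fˣ) (d : F), phi^[n + 1] (big v 0 m0 v 0) =
        big (ev th v (aE (n + 1))) b m (ev th v (aE (n + 1)) + ev th v (eE (n + 1))) d ∧
        th (m : F) * nN (ev th v (aE (n + 1))) * (1 + ev th v (dE (n + 1))) = 1) := by
      refine ⟨b, m, d, ?_, ?_⟩
      · rw [h1, ev_e_succ]
      · have hN' : nN (ev th v (aE (n + 1))) ≠ 0 := nN_ne' _
        have key : nN (ev th v (aE (n + 1))) * (1 + ev th v (dE (n + 1))) =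
            (1 + ev th v (dE n)) ^ 2 * th (nN (ev th v (aE n))) := by
          rw [ev_d_succ, mul_add, mul_one, ← div_eq_mul_inv, ← nN, mul_div_cancel₀ _ hN']
          rw [ev_a_succ]
          generalize ev th v (aE n) = a
          generalize ev th v (dE n) = d
          generalize ev th v (eE n) = e
          simp only [nN, map_add, map_pow, map_one]
          generalize th a = t
          linear_combination (e ^ 2 + a ^ 2 * d ^ 2 + a * t * d ^ 2 + t * e + t * (a + t) * d +
            e * (a + t) * d + e + (a + t) * d - d * (t ^ 2 + t + 1)) * two_zero (F := F)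
        rw [mul_assoc, key, h2]
    exact ⟨first, second (n + 1) first⟩

end Pool.Agent.Helper8.SUZ
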