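import Pool.Agent.Helper8.SUZ.Slot
import Pool.Agent.Helper8.SUZ.Seq
import Pool.Agent.Helper8.SUZ.Feq
import Pool.Agent.Helper8.SUZ.Form
import Pool.Agent.Helper8.SUZ.K0

/-! The group part: pulling back along the map `z ↦ [z, y]`. -/

set_option autoImplicit false

namespace Pool.Agent.Helper8.SUZ

theorem pull {Γ : Type*} (φ : Γ → Γ) (P : Γ → Prop) (hP : ∀ x, P x → P (φ x)) (x0 : Γ)
    (hx0 : P x0) (r : ℕ) (h0 : ∀ z, P z → φ (φ z) ≠ φ x0)
    (hi : ∀ i, 1 ≤ i → i < r → ∀ z, P z → φ (φ z) = φ (φ^[i] x0) → φ z = φ^[i] x0)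
    (s : ℕ) (hs : r < s) : φ^[r] x0 ≠ φ^[s] x0 := by
  have hPi : ∀ n, P (φ^[n] x0) := fun n => by
    induction n with
    | zero => exact hx0
    | succ n ih => rw [Function.iterate_succ_apply']; exact hP _ ih
  have hz : ∀ j, ∃ z, P z ∧ φ^[s - r + j] x0 = φ z := fun j =>
    ⟨φ^[s - r + j - 1] x0, hPi _, by
      rw [← Function.iterate_succ_apply' φ]; congr 2; omega⟩
  have key : ∀ j, j ≤ r → φ^[s - r + j] x0 = φ^[j] x0 → False := by
    intro j
    induction j with
    | zero =>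
      intro _ h
      obtain ⟨z, hz1, hz2⟩ := hz 0
      rw [hz2, Function.iterate_zero, id] at h
      exact h0 z hz1 (congrArg φ h)
    | succ j ih =>
      intro hj h
      obtain ⟨z, hz1, hz2⟩ := hz j
      have h1 : φ (φ z) = φ (φ^[j] x0) := by
        rw [← hz2, ← Function.iterate_succ_apply' φ, ← Function.iterate_succ_apply' φ]
        exact h
      rcases Nat.eq_zero_or_pos j with hj0 | hj0
      · subst hj0
        exact h0 z hz1 h1
      · exact ih (by omega) (hz2.trans (hi j hj0 (by omega) z hz1 h1))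
  intro h
  refine key r le_rfl ?_
  rw [Nat.sub_add_cancel hs.le]
  exact h.symm

variable {F : Type*} [Field F] [Tits F]

theorem phi_mem {z : GG F} (hz : z ∈ Sz (th : F →+* F)) : phi z ∈ Sz (th : F →+* F) :=
  mul_mem (mul_mem (mul_mem (inv_mem hz) (gS_mem _ _)) hz) (inv_mem (gS_mem _ _))

theorem phi_eq {z x : GG F} (hz : z ∈ Sz (th : F →+* F)) (hx : x ∈ Sz (th : F →+* F))
    (h : phi z = phi x) : ∃ e b, (e = 0 ∨ e = 1) ∧ z = gS e b * x := by
  have h1 : z⁻¹ * gS 1 0 * z = x⁻¹ * gS 1 0 * x := mul_right_cancel h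
  obtain ⟨e, b, he, hb⟩ := cent (z * x⁻¹) (mul_mem hz (inv_mem hx)) (by
    calc z * x⁻¹ * gS 1 0 = z * (x⁻¹ * gS 1 0 * x) * x⁻¹ := by group
      _ = z * (z⁻¹ * gS 1 0 * z) * x⁻¹ := by rw [h1]
      _ = gS 1 0 * (z * x⁻¹) := by group)
  exact ⟨e, b, he, by rw [← hb]; group⟩

theorem N_not_K0 (a : F) : ¬ K0 (th (nN a)) := by
  rw [K0_th, nN]
  intro h
  have h1 := K0_add h (K0_sq_add a)
  have h2 : a ^ 2 + a + 1 + (a ^ 2 + a) = 1 := by
    linear_combination (a ^ 2 + a) * two_zero (F := F)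
  rw [h2] at h1
  exact not_K0_one h1

theorem group_main [Fintype F] (r : ℕ) (v : F) (hv1 : v ≠ 1) (hv : ¬ K0 v⁻¹)
    (hf : ∀ j ≤ r, ¬ K0 (ev th v (gE j))) :
    ∃ x0 ∈ Sz (th : F →+* F), ∀ s > r, phi^[r] x0 ≠ phi^[s] x0 := by
  have hv0 : v ≠ 0 := by
    rintro rfl
    exact hv (by rw [inv_zero]; exact K0_zero)
  have hvK : ¬ K0 v := hf 0 (Nat.zero_le _)
  obtain ⟨m0, hm0, hseq⟩ := seq v hv0 hv1
  have hx0 : big v 0 m0 v 0 ∈ Sz (th : F →+* F) :=
    mul_mem (mul_mem (mul_mem (gS_mem _ _) (gM_mem _)) gW_mem) (gS_mem _ _)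
  have hxn : ∀ n, phi^[n] (big v 0 m0 v 0) ∈ Sz (th : F →+* F) := fun n => by
    induction n with
    | zero => exact hx0
    | succ n ih => rw [Function.iterate_succ_apply']; exact phi_mem ih
  refine ⟨big v 0 m0 v 0, hx0, fun s hs => pull phi (· ∈ Sz (th : F →+* F))
    (fun x hx => phi_mem hx) _ hx0 r ?_ ?_ s hs⟩
  · intro z hz h
    obtain ⟨e, b, he, hzb⟩ := phi_eq (phi_mem hz) hx0 h
    have h1 : gS e b * big v 0 m0 v 0 * gS 1 0 = z⁻¹ * gS 1 0 * z := by
      rw [← hzb, phi]; group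
    obtain ⟨h2, h3⟩ := slot v 0 m0 v 0 e b z hz h1
    have hc : v + v + 1 + e = 1 + e := by linear_combination v * two_zero (F := F)
    rw [hc] at h2 h3
    rcases he with rfl | rfl
    · apply h3
      have h4 : (th (m0 : F) * (1 + 0) ^ 2)⁻¹ = v ^ 2 + v⁻¹ := by
        have h5 : th (m0 : F) * (v ^ 2 + v⁻¹) = 1 := by
          rw [← hm0, nN]
          linear_combination (-(v + 1) * th (m0 : F)) * mul_inv_cancel₀ hv0 -
            ((v + 1) * th (m0 : F)) * two_zero (F := F)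
        rw [add_zero, one_pow, mul_one]
        exact inv_eq_of_mul_eq_one_right h5
      rw [h4]
      exact K0_index (by rwa [K0_sq]) hv
    · exact h2 (by linear_combination two_zero (F := F))
  · intro i hi1 hir z hz h
    obtain ⟨n, rfl⟩ : ∃ n, i = n + 1 := ⟨i - 1, by omega⟩
    obtain ⟨e, b1, he, hzb⟩ := phi_eq (phi_mem hz) (hxn _) h
    obtain ⟨b, m, d, hx, hm⟩ := (hseq n).2
    have h1 : gS e b1 * phi^[n + 1] (big v 0 m0 v 0) * gS 1 0 = z⁻¹ * gS 1 0 * z := by
      rw [← hzb, phi]; group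
    rcases he with rfl | rfl
    · have h2 : gS 0 0 * phi^[n + 1] (big v 0 m0 v 0) * gS 1 0 =
          (phi^[n] (big v 0 m0 v 0))⁻¹ * gS 1 0 * phi^[n] (big v 0 m0 v 0) := by
        rw [gS_zero, one_mul, Function.iterate_succ_apply', phi]; group
      rw [hx] at h1 h2
      have h3 := slot_unique _ _ _ _ _ _ _ _ _ _ hz (hxn n) h1 h2
      rw [hzb, h3, gS_zero, one_mul]
    · exfalso
      rw [hx] at h1
      obtain ⟨h2, h3⟩ := slot _ _ _ _ _ _ _ _ hz h1
      set A := ev th v (aE (n + 1))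
      set D := ev th v (dE n) with hD
      have hc : A + (A + D) + 1 + 1 = D := by
        linear_combination (A + 1) * two_zero (F := F)
      rw [hc] at h2 h3
      apply h3
      have h4 : (th (m : F) * D ^ 2)⁻¹ =
          th (nN (ev th v (aE n))) * (D ^ 2)⁻¹ + th (nN (ev th v (aE n))) := by
        have h5 : th (m : F) * D ^ 2 *
            (th (nN (ev th v (aE n))) * (D ^ 2)⁻¹ + th (nN (ev th v (aE n)))) = 1 := by
          rw [← hm]
          linear_combination (th (m : F) * th (nN (ev th v (aE n)))) *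
            mul_inv_cancel₀ (pow_ne_zero 2 h2) -
            (th (m : F) * th (nN (ev th v (aE n))) * D) * two_zero (F := F)
        exact inv_eq_of_mul_eq_one_right h5
      rw [h4]
      refine K0_index ?_ (N_not_K0 _)
      have h6 := hf n (by omega)
      rw [← f_iff_g, ev_f] at h6
      exact h6

end Pool.Agent.Helper8.SUZ
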