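import Pool.Agent.Helper8.SUZ.Ord

set_option autoImplicit false

namespace Pool.Agent.Helper8.SUZ

open MvPolynomial

private theorem ot_mul (x y : HF) : (x * y).orderTop = x.orderTop + y.orderTop :=
  HahnSeries.orderTop_mul x y

private theorem ord_neg {x : HF} {g : Z2} (h : HasOrd x g) : HasOrd (-x) g := by
  rw [HasOrd, HahnSeries.orderTop_neg]; exact h

private theorem parity {a b κ : Z2} (hκ : Odd κ.im) : a + a ≠ b + b + κ := by
  intro h
  have h1 := congrArg Zsqrtd.im h
  simp only [Zsqrtd.im_add] at h1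
  obtain ⟨k, hk⟩ := hκ
  omega

theorem ord_norm (U V : HF) (κ : Z2) (hU : HasOrd U κ) (hκ : Odd κ.im)
    (hV : ((κ : Z2) : WithTop Z2) < V.orderTop + V.orderTop)
    (f : QuadraticAlgebra HF U V) :
    (QuadraticAlgebra.norm f).orderTop =
      min (f.re.orderTop + f.re.orderTop) (f.im.orderTop + f.im.orderTop + κ) := by
  rw [QuadraticAlgebra.norm_def]
  by_cases hr : f.re = 0
  · rw [hr]
    have : (0 : HF) * 0 + V * 0 * f.im - U * f.im * f.im = -(U * f.im * f.im) := by ring
    rw [this, HahnSeries.orderTop_neg, ot_mul, ot_mul, hU, HahnSeries.orderTop_zero]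
    rw [top_add, min_eq_right le_top]
    rw [add_assoc, add_comm]
  by_cases hi : f.im = 0
  · rw [hi]
    have : f.re * f.re + V * f.re * 0 - U * 0 * 0 = f.re * f.re := by ring
    rw [this, ot_mul, HahnSeries.orderTop_zero, top_add, top_add, min_eq_left le_top]
  obtain ⟨a, ha⟩ := exists_hasOrd hr
  obtain ⟨b, hb⟩ := exists_hasOrd hi
  have h1 : HasOrd (f.re * f.re) (a + a) := ha.mul ha
  have h2 : HasOrd (-(U * f.im * f.im)) (b + b + κ) := by
    have := ord_neg ((hU.mul hb).mul hb)
    rwa [show κ + b + b = b + b + κ by ring] at this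
  have h3 : ((min (a + a) (b + b + κ) : Z2) : WithTop Z2) < (V * f.re * f.im).orderTop := by
    rw [ot_mul, ot_mul, ha, hb]
    by_cases hV0 : V = 0
    · rw [hV0, HahnSeries.orderTop_zero, top_add, top_add]
      exact WithTop.coe_lt_top _
    · obtain ⟨v, hv⟩ := exists_hasOrd hV0
      rw [hv] at hV ⊢
      have hV' : κ < v + v := by exact_mod_cast hV
      have : min (a + a) (b + b + κ) < v + a + b := by
        rw [min_lt_iff]
        by_contra hcon
        push Not at hcon
        obtain ⟨c1, c2⟩ := hcon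
        linarith
      exact_mod_cast this
  rw [ha, hb]
  have hgoal : ((a : Z2) : WithTop Z2) + (a : WithTop Z2) = ((a + a : Z2) : WithTop Z2) := by
    norm_cast
  have hgoal2 : ((b : Z2) : WithTop Z2) + (b : WithTop Z2) + (κ : WithTop Z2) =
      ((b + b + κ : Z2) : WithTop Z2) := by
    norm_cast
  rw [hgoal, hgoal2, ← WithTop.coe_min]
  rcases lt_trichotomy (a + a) (b + b + κ) with hlt | heq | hgt
  · rw [min_eq_left hlt.le] at h3 ⊢
    have e : f.re * f.re + V * f.re * f.im - U * f.im * f.im =
        (f.re * f.re + V * f.re * f.im) + -(U * f.im * f.im) := by ring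
    rw [e]
    exact (h1.add h3).add (by rw [h2]; exact_mod_cast hlt)
  · exact absurd heq (parity hκ)
  · rw [min_eq_right hgt.le] at h3 ⊢
    have e : f.re * f.re + V * f.re * f.im - U * f.im * f.im =
        (-(U * f.im * f.im) + V * f.re * f.im) + f.re * f.re := by ring
    rw [e]
    exact (h2.add h3).add (by rw [h1]; exact_mod_cast hgt)

end Pool.Agent.Helper8.SUZ
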