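import Pool.Agent.Helper8.SUZ.Rel
import Pool.Agent.Helper8.SUZ.K0

set_option autoImplicit false

namespace Pool.Agent.Helper8.SUZ

open MvPolynomial

variable {F : Type*} [Field F] [Tits F]

private theorem phi_conj (a b : F) (m : Fˣ) :
    (gM m)⁻¹ * ((gS a b)⁻¹ * gS 1 0 * gS a b) * gM m =
      gS (th (m : F)) (th (m : F) * (m : F) ^ 2 * (a + th a)) := by
  rw [gS_inv, gS_mul, gS_mul, mul_assoc, gS_gM, ← mul_assoc, inv_mul_cancel, one_mul]
  congr 1
  · have : a + 1 + a = 1 := by linear_combination a * two_zero (F := F)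
    rw [this, mul_one]
  · congr 1
    simp only [map_add, map_one]
    linear_combination (b + th a * a) * two_zero (F := F)

theorem phi_big (a b : F) (m : Fˣ) (c d s : F) (hs : s * (th (m : F) * nN a) = 1) :
    ∃ b' m' d', phi (big a b m c d) =
      big (c + (a + th a) * s) b' m' (c + 1 + (1 + a + th a) * s) d' ∧
      th (m' : F) * (s ^ 2 * th (nN a)) = 1 := by
  have hm0 : (m : F) ≠ 0 := m.ne_zero
  have hl0 : th (m : F) ≠ 0 := th_ne hm0
  have hN0 : nN a ≠ 0 := by
    rintro h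
    rw [h] at hs
    simp at hs
  have hN1 : th (nN a) ≠ 0 := th_ne hN0
  have hs0 : s ≠ 0 := by
    rintro rfl
    simp at hs
  obtain ⟨l, hl⟩ : ∃ l : F, l = th (m : F) := ⟨_, rfl⟩
  rw [← hl] at hs hl0
  have hthl : th l = (m : F) ^ 2 := by rw [hl, th_th]
  obtain ⟨B, hB⟩ : ∃ B : F, B = l * (m : F) ^ 2 * (a + th a) := ⟨_, rfl⟩
  have hfS : fS l B = l ^ 2 * (m : F) ^ 2 * nN a := by
    rw [fS, hB, map_mul, map_mul, map_pow, map_add, th_th, hthl, ← hl, nN]
    linear_combination (l ^ 2 * (m : F) ^ 2 * th a) * two_zero (F := F)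
  have hf0 : fS l B ≠ 0 := by
    rw [hfS]
    exact mul_ne_zero (mul_ne_zero (pow_ne_zero 2 hl0) (pow_ne_zero 2 hm0)) hN0
  have hthf : th (fS l B) = (m : F) ^ 4 * l ^ 2 * th (nN a) := by
    rw [hfS, map_mul, map_mul, map_pow, map_pow, hthl, ← hl]
    ring
  obtain ⟨m', hm'⟩ : ∃ m' : Fˣ, (m' : F) = th (fS l B) / fS l B :=
    ⟨Units.mk0 _ (div_ne_zero (th_ne hf0) hf0), rfl⟩
  have key := bruhat l B (Units.mk0 _ hf0) rfl m' hm'
  have e1 : B / fS l B = (a + th a) * s := by
    rw [div_eq_iff hf0, hfS, hB]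
    linear_combination (-(l * (m : F) ^ 2 * (a + th a))) * hs
  have e2 : (th l * l + B) / fS l B = (1 + a + th a) * s := by
    rw [div_eq_iff hf0, hfS, hB, hthl]
    linear_combination (-(l * (m : F) ^ 2 * (1 + a + th a))) * hs
  refine ⟨d + th c * c + l / fS l B + th c * ((a + th a) * s), m',
    l / fS l B + th ((1 + a + th a) * s) * ((1 + a + th a) * s) + d +
      th ((1 + a + th a) * s) * c + th 1 + th (((1 + a + th a) * s) + c) * 1, ?_, ?_⟩
  · have hphi : phi (big a b m c d) =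
        (gS c d)⁻¹ * (gW * ((gM m)⁻¹ * ((gS a b)⁻¹ * gS 1 0 * gS a b) * gM m) * gW) *
          gS c d * (gS 1 0)⁻¹ := by
      have hW : (gW : GG F)⁻¹ = gW := by
        rw [inv_eq_iff_mul_eq_one, gW_sq]
      rw [phi, big, mul_inv_rev, mul_inv_rev, mul_inv_rev, hW]
      group
    rw [hphi, phi_conj, ← hl, ← hB, key]
    simp only [Units.val_mk0]
    rw [e1, e2, gS_inv, gS_inv]
    simp only [big]
    have : gS c (d + th c * c) * (gS ((a + th a) * s) (l / fS l B) * gM m' * gW *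
        gS ((1 + a + th a) * s)
          (l / fS l B + th ((1 + a + th a) * s) * ((1 + a + th a) * s))) *
        gS c d * gS 1 (0 + th 1 * 1) =
        (gS c (d + th c * c) * gS ((a + th a) * s) (l / fS l B)) * gM m' * gW *
        (gS ((1 + a + th a) * s)
          (l / fS l B + th ((1 + a + th a) * s) * ((1 + a + th a) * s)) *
        gS c d * gS 1 (0 + th 1 * 1)) := by
      simp only [mul_assoc]
    rw [this, gS_mul, gS_mul, gS_mul]
    congr 2
    · ring
    · ring
  · rw [hm', map_div₀, th_th, hthf]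
    have e3 : fS l B * s = l * (m : F) ^ 2 := by
      rw [hfS]; linear_combination (l * (m : F) ^ 2) * hs
    have hd0 : (m : F) ^ 4 * l ^ 2 * th (nN a) ≠ 0 :=
      mul_ne_zero (mul_ne_zero (pow_ne_zero 4 hm0) (pow_ne_zero 2 hl0)) hN1
    rw [div_mul_eq_mul_div, div_eq_one_iff_eq hd0]
    linear_combination ((fS l B * s + l * (m : F) ^ 2) * th (nN a)) * e3

end Pool.Agent.Helper8.SUZ
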