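import Pool.Agent.Helper96.Eng.Lower
import Pool.Agent.Helper96.Eng.Grp
import Pool.Agent.Helper96.Eng.Chn
import Pool.Agent.Helper50.EngelB

/-! The theorem on the sections `PSL_2(F)` (author: helper96, helper50). -/

set_option autoImplicit false

universe u v

namespace Pool.Agent.Helper8.SUZ

open Pool.Agent.Helper96.Eng

/-- For every `n` and every large enough finite field of odd characteristic the tower
`Z_1 = S^4-1`, `Z_{i+1}^2 = (S^2-1)^2 (S^4+1) + 2 S^2 Z_i` has a point of height `n + 1`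
with `S ≠ 0`, `S^4 ≠ 1`. -/
theorem exists_chain (n : ℕ) : ∃ q0 : ℕ, ∀ (F : Type u) [Field F] [Fintype F], (2 : F) ≠ 0 →
    q0 ≤ Fintype.card F → ∃ S Z : F, S ≠ 0 ∧ S ^ 4 ≠ 1 ∧ Chain n S Z := by
  obtain ⟨D, c, κ, C, q0, -, H⟩ := lower.{u} n 1
  refine ⟨max q0 (C + 1), fun F _ _ h2 hq => ?_⟩
  obtain ⟨st, s, hs, hc⟩ := H F h2 (le_trans (le_max_left _ _) hq)
  have h1 : C + 1 ≤ Fintype.card F := le_trans (le_max_right _ _) hq
  have h3 : 0 < s.card := by
    rcases Nat.eq_zero_or_pos s.card with h | h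
    · rw [h] at hc; omega
    · exact h
  obtain ⟨Q, hQ⟩ := Finset.card_pos.1 h3
  obtain ⟨h4, h5, h6⟩ := st.pts Q (hs Q hQ)
  exact ⟨_, _, h5, h6, h4⟩

/-- For every `r` there is a bound `Q` such that, if a group `G` satisfies the law
`[x,_r y] = [x,_s y]` for some `s > r`, then every finite field `F` such that `PSL_2(F)` is
isomorphic to a section (quotient of a subgroup) of `G` has at most `Q` elements. -/
theorem psl_two (r : ℕ) : ∃ Q : ℕ, ∀ (G : Type v) [Group G],
    (∃ s : ℕ, r < s ∧ ∀ x y : G,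
      (fun z => z⁻¹ * y⁻¹ * z * y)^[r] x = (fun z => z⁻¹ * y⁻¹ * z * y)^[s] x) →
    ∀ (F : Type u) [Field F] [Fintype F]
      (H : Subgroup G) (π : H →* Matrix.ProjectiveSpecialLinearGroup (Fin 2) F),
      Function.Surjective π → Fintype.card F ≤ Q := by
  obtain ⟨q0, H0⟩ := exists_chain.{u} r
  refine ⟨max q0 (2 ^ (r * (r - 1) / 2)), fun G _ hG F _ _ H π hπ => ?_⟩
  obtain ⟨s, hrs, hG⟩ := hG
  by_contra hlt
  push Not at hlt
  by_cases h2 : (2 : F) = 0
  · have hchar : CharP F 2 := CharTwo.of_one_ne_zero_of_two_eq_zero one_ne_zero h2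
    obtain ⟨k, hp, hk⟩ := FiniteField.card F 2
    have hk' : Fintype.card F = 2 ^ (k : ℕ) := hk
    have hlt' : r * (r - 1) / 2 < (k : ℕ) := by
      have h3 := (le_max_right _ _).trans_lt hlt
      rw [hk'] at h3
      exact (Nat.pow_lt_pow_iff_right (by norm_num)).1 h3
    have hc1 : ∀ c : F, c ^ 2 = 1 → c = 1 := by
      intro c hc
      have h4 : (c - 1) ^ 2 = 0 := by
        have : (c - 1) ^ 2 = c ^ 2 - 1 - 2 * (c - 1) := by ring
        rw [this, hc, h2]; ring
      exact sub_eq_zero.1 (pow_eq_zero_iff two_ne_zero |>.1 h4)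
    rcases Nat.eq_zero_or_pos r with h0 | h0
    · subst h0
      obtain ⟨x, y, hxy⟩ := Pool.Agent.Helper50.Engel.not_law (F := F) (k := k) (r := 1) hk'
        one_pos (by simp)
      refine transfer 1 (s + 1) ⟨x, y, fun c hc heq => ?_⟩ G ?_ H π hπ
      · rw [hc1 c hc, one_smul] at heq
        exact hxy (s + 1) (by omega) (Subtype.ext heq.symm)
      · intro x y
        have h5 := hG x y
        have h6 : (cm y)^[s] x = x := h5.symm
        rw [Function.iterate_succ_apply', Function.iterate_succ_apply', h6,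
          Function.iterate_zero]
        rfl
    · obtain ⟨x, y, hxy⟩ := Pool.Agent.Helper50.Engel.not_law (F := F) hk' h0 hlt'
      refine transfer r s ⟨x, y, fun c hc heq => ?_⟩ G hG H π hπ
      rw [hc1 c hc, one_smul] at heq
      exact hxy s hrs (Subtype.ext heq.symm)
  · obtain ⟨S, Z, hS, hS4, hc⟩ := H0 F h2 ((le_max_left _ _).trans hlt.le)
    obtain ⟨b, hb0, hb⟩ := chain_b h2 r S Z hS hS4 hc
    obtain ⟨x, y, hxy⟩ := grp r S hS b hb0 (fun i hi => hb i (by omega))
    exact transfer r s ⟨x, y, fun c hc => hxy s hrs c hc⟩ G hG H π hπ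

end Pool.Agent.Helper8.SUZ
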