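import Pool.Agent.Helper8.SUZ.Defs

/-! Relations between the generators. -/

set_option autoImplicit false

namespace Pool.Agent.Helper8.SUZ

section aux
variable {F : Type*} [Field F]

theorem bru_aux (h2 : (2 : F) = 0) (a A b B f g x X y Y z Z t T : F) (hf0 : f ≠ 0) (hg0 : g ≠ 0)
    (hf : f = A * a ^ 2 + a * b + B) (hg : g = a ^ 2 * A ^ 2 + A * B + b ^ 2)
    (hx : x * f = b) (hX : X * g = B) (hy : y * f = a) (hY : Y * g = A)
    (hz : z * f = A * a + b) (hZ : Z * g = a ^ 2 * A + B) (ht : t = y + Z * z)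
    (hT : T = Y + z ^ 2 * Z) :
    (!![0, 0, 0, 1; 0, 0, 1, 0; 0, 1, 0, 0; 1, 0, 0, 0] *
    !![1, 0, 0, 0; a, 1, 0, 0; b, A, 1, 0; A * a ^ 2 + a * b + B, A * a + b, a, 1] *
    !![0, 0, 0, 1; 0, 0, 1, 0; 0, 1, 0, 0; 1, 0, 0, 0] : Matrix (Fin 4) (Fin 4) F) =
    !![1, 0, 0, 0; x, 1, 0, 0; y, X, 1, 0; X * x ^ 2 + x * y + Y, X * x + y, x, 1] *
    !![f, 0, 0, 0; 0, g / f, 0, 0; 0, 0, f / g, 0; 0, 0, 0, f⁻¹] *
    !![0, 0, 0, 1; 0, 0, 1, 0; 0, 1, 0, 0; 1, 0, 0, 0] *
    !![1, 0, 0, 0; z, 1, 0, 0; t, Z, 1, 0; Z * z ^ 2 + z * t + T, Z * z + t, z, 1] := by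
  have ex : x = b / f := by field_simp; exact hx
  have eX : X = B / g := by field_simp; exact hX
  have ey : y = a / f := by field_simp; exact hy
  have eY : Y = A / g := by field_simp; exact hY
  have ez : z = (A * a + b) / f := by field_simp; exact hz
  have eZ : Z = (a ^ 2 * A + B) / g := by field_simp; exact hZ
  clear hx hX hy hY hz hZ
  subst ht hT ex eX ey eY ez eZ
  have h4 : (4 : F) = 0 := by linear_combination 2 * h2
  have h6 : (6 : F) = 0 := by linear_combination 3 * h2
  have h8 : (8 : F) = 0 := by linear_combination 4 * h2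
  have h10 : (10 : F) = 0 := by linear_combination 5 * h2
  have h12 : (12 : F) = 0 := by linear_combination 6 * h2
  have h14 : (14 : F) = 0 := by linear_combination 7 * h2
  have h18 : (18 : F) = 0 := by linear_combination 9 * h2
  have h20 : (20 : F) = 0 := by linear_combination 10 * h2
  have h24 : (24 : F) = 0 := by linear_combination 12 * h2
  have h26 : (26 : F) = 0 := by linear_combination 13 * h2
  have h28 : (28 : F) = 0 := by linear_combination 14 * h2
  have h30 : (30 : F) = 0 := by linear_combination 15 * h2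
  have h32 : (32 : F) = 0 := by linear_combination 16 * h2
  have h34 : (34 : F) = 0 := by linear_combination 17 * h2
  have h40 : (40 : F) = 0 := by linear_combination 20 * h2
  have h48 : (48 : F) = 0 := by linear_combination 24 * h2
  have h64 : (64 : F) = 0 := by linear_combination 32 * h2
  have h72 : (72 : F) = 0 := by linear_combination 36 * h2
  have h74 : (74 : F) = 0 := by linear_combination 37 * h2
  have h104 : (104 : F) = 0 := by linear_combination 52 * h2
  ext i j
  fin_cases i <;> fin_cases j <;>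
    simp [Matrix.mul_apply, Fin.sum_univ_four]
  all_goals try (field_simp)
  all_goals rw [← sub_eq_zero]
  all_goals try rw [hf]
  all_goals try rw [hg]
  all_goals
    (ring_nf
     try simp [h2, h4, h6, h8, h10, h12, h14, h18, h20, h24, h26, h28,
      h30, h32, h34, h40, h48, h64, h72, h74, h104])

end aux

variable {F : Type*} [Field F] [Tits F]

theorem th_ne {x : F} (h : x ≠ 0) : th x ≠ 0 := (map_ne_zero th).2 h

theorem th_inj {x y : F} (h : th x = th y) : x = y := th.injective h

theorem gS_mul (a b c d : F) : gS a b * gS c d = gS (a + c) (b + d + th a * c) :=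
  Units.ext (mS_mul a b c d)

theorem gS_zero : gS (0 : F) 0 = 1 := Units.ext mS_zero

theorem gM_mul (m k : Fˣ) : gM m * gM k = gM (m * k) := by
  ext i j
  fin_cases i <;> fin_cases j <;>
    simp [gM, mM, Matrix.mul_apply, Fin.sum_univ_four] <;> ring

theorem gM_one : gM (1 : Fˣ) = 1 := by
  ext i j
  fin_cases i <;> fin_cases j <;> simp [gM, mM]

theorem gM_inv (m : Fˣ) : (gM m)⁻¹ = gM m⁻¹ := by
  rw [inv_eq_iff_mul_eq_one, gM_mul, mul_inv_cancel, gM_one]

theorem gS_inv (a b : F) : (gS a b)⁻¹ = gS a (b + th a * a) := by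
  rw [inv_eq_iff_mul_eq_one, gS_mul, ← gS_zero]
  congr 1
  · linear_combination a * two_zero (F := F)
  · linear_combination (b + th a * a) * two_zero (F := F)

theorem gS_gM (a b : F) (m : Fˣ) :
    gS a b * gM m = gM m * gS (th (m : F) * a) (th (m : F) * (m : F) ^ 2 * b) := by
  have hm : (m : F) ≠ 0 := m.ne_zero
  have hm2 : th (m : F) ≠ 0 := th_ne hm
  ext i j
  fin_cases i <;> fin_cases j <;>
    simp [gM, mM, gS, mS, Matrix.mul_apply, Fin.sum_univ_four, th_th]
  all_goals field_simp

omit [Tits F] in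
theorem gW_sq : (gW : (Matrix (Fin 4) (Fin 4) F)ˣ) * gW = 1 :=
  Units.ext gW.val_inv

theorem gW_gM (m : Fˣ) : gW * gM m = gM m⁻¹ * gW := by
  ext i j
  fin_cases i <;> fin_cases j <;>
    simp [gM, mM, gW, mW, Matrix.mul_apply, Fin.sum_univ_four, mul_comm]

/-- the entry `(3,0)` of `S(a,b)` -/
def fS (a b : F) : F := th a * a ^ 2 + a * b + th b

theorem bruhat (a b : F) (f : Fˣ) (hf : (f : F) = fS a b) (m : Fˣ)
    (hm : (m : F) = th (f : F) / f) :
    gW * gS a b * gW = gS (b / f) (a / f) * gM m * gW *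
      gS ((th a * a + b) / f)
        (a / f + th ((th a * a + b) / (f : F)) * ((th a * a + b) / f)) := by
  have hf0 : (f : F) ≠ 0 := f.ne_zero
  have hg0 : th (f : F) ≠ 0 := th_ne hf0
  have hg : th (f : F) = a ^ 2 * (th a) ^ 2 + th a * th b + b ^ 2 := by
    rw [hf, fS]; simp only [map_add, map_mul, map_pow, th_th]
  have hmm : th (m : F) = (f : F) ^ 2 / th (f : F) := by
    rw [hm, map_div₀, th_th]
  apply Units.ext
  have key := bru_aux (two_zero (F := F)) a (th a) b (th b) f (th (f : F)) (b / f)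
    (th (b / (f : F))) (a / f) (th (a / (f : F))) ((th a * a + b) / f)
    (th ((th a * a + b) / (f : F)))
    (a / f + th ((th a * a + b) / (f : F)) * ((th a * a + b) / f))
    (th (a / f + th ((th a * a + b) / (f : F)) * ((th a * a + b) / f))) hf0 hg0
    (by rw [hf, fS]) hg (by field_simp)
    (by rw [map_div₀]; field_simp) (by field_simp) (by rw [map_div₀]; field_simp)
    (by field_simp) (by rw [map_div₀, map_add, map_mul, th_th]; field_simp) rfl
    (by simp only [map_add, map_mul, th_th])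
  have hD : (gM m).val = !![(f : F), 0, 0, 0; 0, th (f : F) / f, 0, 0; 0, 0, f / th (f : F), 0;
      0, 0, 0, (f : F)⁻¹] := by
    change mM th (m : F) = _
    rw [mM, hmm, hm]
    ext i j
    fin_cases i <;> fin_cases j <;> simp <;> field_simp
  simp only [Units.val_mul]
  rw [hD]
  exact key

/-- the group of units of the matrix ring -/
abbrev GG (F : Type*) [Field F] : Type _ := (Matrix (Fin 4) (Fin 4) F)ˣ

/-- an element of the big cell -/
def big (a b : F) (m : Fˣ) (c d : F) : GG F := gS a b * gM m * gW * gS c d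

/-- the map `z ↦ [z, y]`, `y⁻¹ = S(1,0)` -/
def phi (z : GG F) : GG F := z⁻¹ * gS 1 0 * z * (gS 1 0)⁻¹

/-- `N(a)` -/
def nN (a : F) : F := a ^ 2 + a + 1

theorem gS_mem (a b : F) : gS a b ∈ Sz (th : F →+* F) :=
  Subgroup.subset_closure (Or.inl ⟨a, b, rfl⟩)

theorem gM_mem (m : Fˣ) : gM m ∈ Sz (th : F →+* F) :=
  Subgroup.subset_closure (Or.inr (Or.inl ⟨m, m.ne_zero, rfl⟩))

theorem gW_mem : gW ∈ Sz (th : F →+* F) :=
  Subgroup.subset_closure (Or.inr (Or.inr rfl))

end Pool.Agent.Helper8.SUZ
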