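import Pool.Agent.Helper8.SUZ.Cent

set_option autoImplicit false

namespace Pool.Agent.Helper8.SUZ

open MvPolynomial

variable {F : Type*} [Field F] [Tits F]

/-- the second coordinate after conjugation -/
def slB (a b c d e1 b1 : F) : F := (d + th c) + (b1 + b + th e1 * a) + th (c + 1) * (e1 + a)

theorem slot_conj (a b : F) (m : Fˣ) (c d e1 b1 : F) :
    gS (c + 1) (d + th c) * (gS e1 b1 * big a b m c d * gS 1 0) * (gS (c + 1) (d + th c))⁻¹ =
      gS (a + c + 1 + e1) (slB a b c d e1 b1) * gM m * gW := by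
  have h1 : gS c d * gS 1 0 = gS (c + 1) (d + th c) := by
    rw [gS_mul]; congr 1; ring
  have h2 : gS (c + 1) (d + th c) * (gS e1 b1 * gS a b) =
      gS (a + c + 1 + e1) (slB a b c d e1 b1) := by
    rw [gS_mul, gS_mul, slB]; congr 1; ring
  have h3 : gS (c + 1) (d + th c) * (gS e1 b1 * big a b m c d * gS 1 0) *
      (gS (c + 1) (d + th c))⁻¹ = gS (c + 1) (d + th c) * (gS e1 b1 * gS a b) * gM m * gW *
        (gS c d * gS 1 0) * (gS (c + 1) (d + th c))⁻¹ := by
    unfold big; simp only [mul_assoc]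
  rw [h3, h1, h2, mul_inv_cancel_right]

theorem slot_trace (e B : F) (m : Fˣ) (g : GG F)
    (h : gS e B * gM m * gW = g⁻¹ * gS 1 0 * g) : fS e B * th (m : F) = th e := by
  have h1 : Matrix.trace (gS e B * gM m * gW : GG F).val = Matrix.trace (gS (1 : F) 0).val := by
    rw [h, Units.val_mul, Matrix.trace_mul_comm, ← Units.val_mul, ← mul_assoc,
      mul_inv_cancel, one_mul]
  have hm : (m : F) ≠ 0 := m.ne_zero
  simp [gS, gM, gW, mS, mM, mW, Matrix.trace, Matrix.mul_apply, Fin.sum_univ_four] at h1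
  have h2 : (m : F) * (fS e B * th (m : F)) = (m : F) * th e := by
    unfold fS
    linear_combination h1 + (2 - th e * m) * two_zero (F := F)
  exact mul_left_cancel₀ hm h2

theorem slot_tau (e τ : F) : fS e (th e * e * τ) = th e * e ^ 2 * (1 + τ + th τ) := by
  unfold fS
  rw [map_mul, map_mul, th_th]
  ring

theorem slot_ne (e B : F) (m : Fˣ) (g : GG F) (h : gS e B * gM m * gW = g⁻¹ * gS 1 0 * g) :
    e ≠ 0 := by
  rintro rfl
  have h1 := slot_trace 0 B m g h
  have hm : th (m : F) ≠ 0 := th_ne m.ne_zero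
  have hB : B = 0 := by
    unfold fS at h1
    simp only [map_zero, zero_mul, zero_add] at h1
    rcases mul_eq_zero.1 h1 with h2 | h2
    · exact (map_eq_zero th).1 h2
    · exact absurd h2 hm
  subst hB
  rw [gS_zero, one_mul] at h
  have h2 : (gM m * gW) * (gM m * gW) = (1 : GG F) := by
    have h3 : (gM m * gW) * (gM m * gW) = gM m * (gW * gM m) * (gW : GG F) := by
      simp only [mul_assoc]
    rw [h3, gW_gM, ← mul_assoc, gM_mul, mul_inv_cancel, gM_one, one_mul, gW_sq]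
  rw [h] at h2
  have h4 : gS (1 : F) 0 * gS 1 0 = 1 := by
    have h5 : g⁻¹ * gS 1 0 * g * (g⁻¹ * gS 1 0 * g) = g⁻¹ * (gS 1 0 * gS 1 0) * g := by
      group
    rw [h5] at h2
    have h6 : g⁻¹ * (gS 1 0 * gS 1 0) = g⁻¹ := mul_eq_one_iff_eq_inv.1 h2
    exact mul_eq_left.1 h6
  rw [gS_mul, ← gS_zero] at h4
  have h7 : gS ((1 : F) + 1) (0 + 0 + th 1 * 1) * gM 1 = gS 0 0 * gM 1 := by rw [h4]
  have h8 := (small_inj h7).2.1
  rw [map_one] at h8
  have h9 : (1 : F) = 0 := by linear_combination h8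
  exact one_ne_zero h9

theorem slot_K0 (e B : F) (m : Fˣ) (g : GG F) (h : gS e B * gM m * gW = g⁻¹ * gS 1 0 * g) :
    ¬ K0 (th (m : F) * e ^ 2)⁻¹ := by
  have he := slot_ne e B m g h
  have hte := th_ne he
  have hm : th (m : F) ≠ 0 := th_ne m.ne_zero
  have h1 := slot_trace e B m g h
  set τ : F := B / (th e * e) with hτ
  have hB : B = th e * e * τ := by rw [hτ]; field_simp
  rw [hB, slot_tau] at h1
  have h2 : (1 + τ + th τ) * (th (m : F) * e ^ 2) = 1 := by
    apply mul_left_cancel₀ hte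
    linear_combination h1
  have h3 : (th (m : F) * e ^ 2)⁻¹ = 1 + τ + th τ := (eq_inv_of_mul_eq_one_left h2).symm
  rw [h3]
  intro h4
  apply not_K0_one (F := F)
  have h5 := K0_add h4 (K0_self τ)
  have h6 : 1 + τ + th τ + (th τ + τ) = 1 := by linear_combination (τ + th τ) * two_zero (F := F)
  rwa [h6] at h5

theorem slot (a b : F) (m : Fˣ) (c d e1 b1 : F) (g : GG F) (hg : g ∈ Sz (th : F →+* F))
    (h : gS e1 b1 * big a b m c d * gS 1 0 = g⁻¹ * gS 1 0 * g) :
    a + c + 1 + e1 ≠ 0 ∧ ¬ K0 (th (m : F) * (a + c + 1 + e1) ^ 2)⁻¹ := by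
  have h1 := slot_conj a b m c d e1 b1
  rw [h] at h1
  have h2 : gS (a + c + 1 + e1) (slB a b c d e1 b1) * gM m * gW =
      (g * (gS (c + 1) (d + th c))⁻¹)⁻¹ * gS 1 0 * (g * (gS (c + 1) (d + th c))⁻¹) := by
    rw [← h1]; group
  exact ⟨slot_ne _ _ _ _ h2, slot_K0 _ _ _ _ h2⟩

theorem slot_unique (a b : F) (m : Fˣ) (c d e1 b1 b2 : F) (g g' : GG F)
    (hg : g ∈ Sz (th : F →+* F)) (hg' : g' ∈ Sz (th : F →+* F))
    (h : gS e1 b1 * big a b m c d * gS 1 0 = g⁻¹ * gS 1 0 * g)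
    (h' : gS e1 b2 * big a b m c d * gS 1 0 = g'⁻¹ * gS 1 0 * g') : b1 = b2 := by
  have h1 := slot_conj a b m c d e1 b1
  rw [h] at h1
  have h1' := slot_conj a b m c d e1 b2
  rw [h'] at h1'
  set k : GG F := gS (c + 1) (d + th c) with hk
  have hkm : k⁻¹ ∈ Sz (th : F →+* F) := inv_mem (gS_mem _ _)
  set e : F := a + c + 1 + e1 with hedef
  set B : F := slB a b c d e1 b1 with hB
  set B' : F := slB a b c d e1 b2 with hB'
  have hBB : B' + B = b2 + b1 := by
    rw [hB, hB']; unfold slB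
    linear_combination (d + th c + b + th e1 * a + th (c + 1) * (e1 + a)) * two_zero (F := F)
  have h2 : gS e B * gM m * gW = (g * k⁻¹)⁻¹ * gS 1 0 * (g * k⁻¹) := by
    rw [← h1]; group
  have h2' : gS e B' * gM m * gW = (g' * k⁻¹)⁻¹ * gS 1 0 * (g' * k⁻¹) := by
    rw [← h1']; group
  have he := slot_ne _ _ _ _ h2
  have hte := th_ne he
  have hm : th (m : F) ≠ 0 := th_ne m.ne_zero
  have t1 := slot_trace _ _ _ _ h2
  have t1' := slot_trace _ _ _ _ h2'
  have t2 : fS e B = fS e B' := mul_right_cancel₀ hm (t1.trans t1'.symm)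
  set τ : F := B / (th e * e) with hτ
  have hBt : B = th e * e * τ := by rw [hτ]; field_simp
  set τ' : F := B' / (th e * e) with hτ'
  have hBt' : B' = th e * e * τ' := by rw [hτ']; field_simp
  rw [hBt, hBt', slot_tau, slot_tau] at t2
  have t3 : 1 + τ + th τ = 1 + τ' + th τ' :=
    mul_left_cancel₀ (mul_ne_zero hte (pow_ne_zero 2 he)) t2
  have t4 : th (τ + τ') = τ + τ' := by
    rw [map_add]
    linear_combination t3 + (th τ' - τ) * two_zero (F := F)
  rcases th_fix t4 with t5 | t5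
  · have t6 : b2 + b1 = 0 := by
      rw [← hBB, hBt, hBt']
      linear_combination (th e * e) * t5
    linear_combination t6 - b2 * two_zero (F := F)
  · exfalso
    have t6 : B' = B + th e * e := by
      rw [hBt, hBt']
      linear_combination (th e * e) * t5 - (th e * e * τ) * two_zero (F := F)
    have h3 : (gS e B * gM m * gW)⁻¹ = (gS e B')⁻¹ * (gS e B' * gM m * gW) * gS e B' := by
      rw [mul_inv_rev, mul_inv_rev, gS_inv, ← t6, gM_inv,
        show (gW : GG F)⁻¹ = gW from inv_eq_of_mul_eq_one_right gW_sq, ← mul_assoc, gW_gM,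
        inv_inv]
      group
    rw [h2, h2'] at h3
    refine not_real ((g' * k⁻¹) * gS e B' * (g * k⁻¹)⁻¹) ?_ ?_
    · exact mul_mem (mul_mem (mul_mem hg' hkm) (gS_mem _ _)) (inv_mem (mul_mem hg hkm))
    · have h4 : (g * k⁻¹) * ((g * k⁻¹)⁻¹ * gS 1 0 * (g * k⁻¹))⁻¹ * (g * k⁻¹)⁻¹ = (gS 1 0)⁻¹ := by
        group
      rw [← h4, h3]
      group

end Pool.Agent.Helper8.SUZ
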