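import Pool.Agent.Helper8.SUZ.Ord

set_option autoImplicit false

namespace Pool.Agent.Helper8.SUZ

open MvPolynomial

/-! ### auxiliary facts on orders -/

theorem val_hasOrd_lt {x : HF} {g h : Z2} (hx : HasOrd x h) (hg : g < h) :
    (g : WithTop Z2) < x.orderTop := by
  rw [hx]; exact WithTop.coe_lt_coe.2 hg

theorem val_add_lt {x y : HF} {g : WithTop Z2} (hx : g < x.orderTop) (hy : g < y.orderTop) :
    g < (x + y).orderTop :=
  lt_of_lt_of_le (lt_min hx hy) HahnSeries.min_orderTop_le_orderTop_add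

theorem val_add' {x y : HF} {g : Z2} (hy : HasOrd y g) (hx : (g : WithTop Z2) < x.orderTop) :
    HasOrd (x + y) g := by
  rw [add_comm]; exact hy.add hx

theorem val_congr {x : HF} {g h : Z2} (hx : HasOrd x g) (hg : g = h) : HasOrd x h := hg ▸ hx

theorem val_add_self (x : HF) : x + x = 0 := by
  ext g
  simp only [HahnSeries.coeff_add, HahnSeries.coeff_zero]
  exact CharTwo.add_self_eq_zero _

theorem val_sq_lt {x : HF} {g : Z2} (h0 : (0 : WithTop Z2) ≤ x.orderTop)
    (hx : (g : WithTop Z2) < x.orderTop) : (g : WithTop Z2) < (x ^ 2).orderTop := by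
  rw [pow_two, HahnSeries.orderTop_mul]
  exact lt_of_lt_of_le hx (le_add_of_nonneg_left h0)

/-! ### inequalities in `ℤ√2` -/

theorem val_tp (n : ℕ) : (0 : Z2) < tau ^ n := pow_pos tau_pos n

theorem val_one_le (n : ℕ) : (1 : Z2) ≤ tau ^ n := one_le_pow₀ tau_gt.le

theorem val_lt_succ (n : ℕ) : tau ^ n < tau ^ (n + 1) := by
  rw [pow_succ]
  nlinarith [val_tp n, tau_gt]

theorem val_succ_lt (n : ℕ) : tau ^ (n + 1) < 2 * tau ^ n := by
  rw [pow_succ]
  nlinarith [val_tp n, tau_lt]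

theorem val_succ_succ (n : ℕ) : tau ^ (n + 2) = 2 * tau ^ n := by
  rw [pow_add, pow_two, tau_mul, mul_comm]

theorem val_le_sg (n : ℕ) : tau ^ n ≤ sg n := by
  induction n with
  | zero => simp [sg]
  | succ n ih =>
    have := val_tp n
    show tau ^ (n + 1) ≤ sg n + tau ^ (n + 1)
    linarith

theorem val_sg_pos (n : ℕ) : 0 < sg n := lt_of_lt_of_le (val_tp n) (val_le_sg n)

theorem val_lt_one_sg (n : ℕ) : tau ^ (n + 1) < 1 + sg n := by
  induction n with
  | zero =>
    show tau ^ (0 + 1) < 1 + 1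
    rw [zero_add, pow_one]
    have := tau_lt
    norm_num
    exact this
  | succ n ih =>
    show tau ^ (n + 1 + 1) < 1 + (sg n + tau ^ (n + 1))
    have := val_succ_lt (n + 1)
    linarith

theorem val_tau_sg (n : ℕ) : tau * sg n = sg (n + 1) - 1 := by
  induction n with
  | zero =>
    show tau * 1 = (1 + tau ^ (0 + 1)) - 1
    ring
  | succ n ih =>
    show tau * (sg n + tau ^ (n + 1)) = (sg (n + 1) + tau ^ (n + 1 + 1)) - 1
    rw [mul_add, ih]
    ring

/-! ### the orders of the sequences -/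

section
variable {a d e : HF} {n : ℕ}

theorem val_th (ha : HasOrd a (-tau ^ n)) : HasOrd (thH a) (-tau ^ (n + 1)) :=
  val_congr ha.thH (by ring)

theorem val_ath (ha : HasOrd a (-tau ^ n)) : HasOrd (a + thH a) (-tau ^ (n + 1)) :=
  val_add' (val_th ha) (val_hasOrd_lt ha (by have := val_lt_succ n; linarith))

theorem val_athd (ha : HasOrd a (-tau ^ n)) (hd : HasOrd d (sg n)) :
    HasOrd ((a + thH a) * d) (-tau ^ (n + 1) + sg n) := (val_ath ha).mul hd

theorem val_a' (ha : HasOrd a (-tau ^ n)) (hd : HasOrd d (sg n))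
    (he : (0 : WithTop Z2) ≤ e.orderTop) :
    HasOrd (thH a + e + (a + thH a) * d) (-tau ^ (n + 1)) := by
  refine ((val_th ha).add ?_).add (val_hasOrd_lt (val_athd ha hd) ?_)
  · refine lt_of_lt_of_le ?_ he
    have := val_tp (n + 1)
    exact WithTop.coe_lt_coe.2 (by linarith)
  · have := val_sg_pos n
    linarith

theorem val_norm (ha : HasOrd a (-tau ^ n)) : HasOrd (a ^ 2 + a + 1) (-(2 * tau ^ n)) := by
  have h2 : HasOrd (a ^ 2) (-(2 * tau ^ n)) := val_congr (ha.pow 2) (by push_cast; ring)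
  have := val_tp n
  exact (h2.add (val_hasOrd_lt ha (by linarith))).add (val_hasOrd_lt hasOrd_one (by linarith))

theorem val_num (ha : HasOrd a (-tau ^ n)) (hd : HasOrd d (sg n))
    (he0 : (0 : WithTop Z2) ≤ e.orderTop)
    (he : ((sg n - tau ^ (n + 1) : Z2) : WithTop Z2) < e.orderTop) :
    HasOrd ((a ^ 2 + thH a + 1) * d ^ 2 + (a + thH a) * d + e ^ 2 + e)
      (-tau ^ (n + 1) + sg n) := by
  have h2 : HasOrd (a ^ 2) (-(2 * tau ^ n)) := val_congr (ha.pow 2) (by push_cast; ring)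
  have hp := val_tp n
  have hs := val_succ_lt n
  have hl := val_le_sg n
  have ho := val_lt_succ n
  have h1 : HasOrd (a ^ 2 + thH a + 1) (-(2 * tau ^ n)) :=
    (h2.add (val_hasOrd_lt (val_th ha) (by linarith))).add
      (val_hasOrd_lt hasOrd_one (by linarith))
  have h3 : HasOrd ((a ^ 2 + thH a + 1) * d ^ 2) (-(2 * tau ^ n) + 2 * sg n) :=
    val_congr (h1.mul (hd.pow 2)) (by push_cast; ring)
  have he' : ((-tau ^ (n + 1) + sg n : Z2) : WithTop Z2) < e.orderTop := by
    have : (-tau ^ (n + 1) + sg n : Z2) = sg n - tau ^ (n + 1) := by ring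
    rw [this]; exact he
  refine HasOrd.add (HasOrd.add (val_add' (val_athd ha hd) ?_) (val_sq_lt he0 he')) he'
  exact val_hasOrd_lt h3 (by linarith)

theorem val_d' (ha : HasOrd a (-tau ^ n)) (hd : HasOrd d (sg n))
    (he0 : (0 : WithTop Z2) ≤ e.orderTop)
    (he : ((sg n - tau ^ (n + 1) : Z2) : WithTop Z2) < e.orderTop) :
    HasOrd (((a ^ 2 + thH a + 1) * d ^ 2 + (a + thH a) * d + e ^ 2 + e) *
      ((thH a + e + (a + thH a) * d) ^ 2 + (thH a + e + (a + thH a) * d) + 1)⁻¹)
      (sg (n + 1)) := by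
  refine val_congr ((val_num ha hd he0 he).mul (val_norm (val_a' ha hd he0)).inv) ?_
  show _ = sg n + tau ^ (n + 1)
  ring

end

theorem val_inv (n : ℕ) : HasOrd (ev thH elE (aE n)) (-tau ^ n) ∧
    HasOrd (ev thH elE (dE n)) (sg n) ∧ (0 : WithTop Z2) ≤ (ev thH elE (eE n)).orderTop ∧
    ((sg n - tau ^ (n + 1) : Z2) : WithTop Z2) < (ev thH elE (eE n)).orderTop := by
  induction n with
  | zero =>
    rw [ev_a_zero, ev_d_zero, ev_e_zero]
    refine ⟨val_congr hasOrd_E (by simp), val_congr hasOrd_E.inv (by simp [sg]), ?_, ?_⟩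
    · simp
    · rw [HahnSeries.orderTop_zero]; exact WithTop.coe_lt_top _
  | succ n ih =>
    obtain ⟨ha, hd, he0, he⟩ := ih
    refine ⟨?_, ?_, ?_, ?_⟩
    · rw [ev_a_succ]; exact val_a' ha hd he0
    · rw [ev_d_succ, ev_a_succ]; exact val_d' ha hd he0 he
    · rw [ev_e_succ, hd]
      exact WithTop.coe_le_coe.2 (val_sg_pos n).le
    · rw [ev_e_succ]
      refine val_hasOrd_lt hd ?_
      show sg n + tau ^ (n + 1) - tau ^ (n + 1 + 1) < sg n
      have := val_lt_succ (n + 1)
      linarith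

theorem hasOrd_g_zero : HasOrd (ev thH elE (gE 0)) (-sg 0) := by
  rw [ev_g_zero]
  exact val_congr hasOrd_E (by simp [sg])

theorem hasOrd_g_succ (n : ℕ) : HasOrd (ev thH elE (gE (n + 1))) (-sg (n + 2)) := by
  obtain ⟨ha, hd, he0, he⟩ := val_inv n
  obtain ⟨ha', hd', -, -⟩ := val_inv (n + 1)
  rw [ev_g_succ]
  have h1 : HasOrd (thH (ev thH elE (aE (n + 1))) + 1 + ev thH elE (aE n))
      (-tau ^ (n + 1 + 1)) := by
    have hp := val_tp (n + 1 + 1)
    have h1 := val_lt_succ n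
    have h2 := val_lt_succ (n + 1)
    exact ((val_th ha').add (val_hasOrd_lt hasOrd_one (by linarith))).add
      (val_hasOrd_lt ha (by linarith))
  have h2 : HasOrd ((thH (ev thH elE (aE (n + 1))) + 1 + ev thH elE (aE n)) *
      (ev thH elE (dE (n + 1)))⁻¹) (-sg (n + 2)) := by
    refine val_congr (h1.mul hd'.inv) ?_
    show _ = -(sg (n + 1) + tau ^ (n + 1 + 1))
    ring
  refine h2.add ?_
  have h3 : ev thH elE (aE (n + 1)) + thH (ev thH elE (aE n)) = ev thH elE (eE n) +
      (ev thH elE (aE n) + thH (ev thH elE (aE n))) * ev thH elE (dE n) := by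
    rw [ev_a_succ]
    linear_combination val_add_self (thH (ev thH elE (aE n)))
  have h4 : HasOrd (ev thH elE (aE (n + 1)) + thH (ev thH elE (aE n)))
      (-tau ^ (n + 1) + sg n) := by
    rw [h3]
    refine val_add' (val_athd ha hd) ?_
    have : (-tau ^ (n + 1) + sg n : Z2) = sg n - tau ^ (n + 1) := by ring
    rw [this]; exact he
  refine val_hasOrd_lt (h4.mul hd'.thH.inv) ?_
  rw [val_tau_sg]
  show -sg (n + 2) < -tau ^ (n + 1) + sg n + -(sg (n + 2) - 1)
  have := val_lt_one_sg n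
  linarith

end Pool.Agent.Helper8.SUZ
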